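import Pool.Agent.Helper53.AC.Defs

/-!
# L2b: lattice sum of the cubic weight
-/

set_option autoImplicit false

open Complex Filter Topology Metric
open scoped ComplexConjugate

namespace Pool.Agent.SV

open Pool.Agent.Helper53.CAC

private theorem ls_key {s : ℝ} (hs : 0 < s) (z : ℂ) (j : ℤ × ℤ) (x : Fin 2 → ℤ)
    (hx0 : x 0 = j.1 - ⌊z.re / s⌋) (hx1 : x 1 = j.2 - ⌊z.im / s⌋) :
    s * (‖x‖ - 1) ≤ ‖z - lp s j‖ := by
  have hdist : ∀ (t : ℝ) (i : ℤ), s * (|((i - ⌊t / s⌋ : ℤ) : ℝ)| - 1) ≤ |t - s * i| := by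
    intro t i
    have h1 : t = s * (t / s) := by field_simp
    have h2 : |t - s * i| = s * |t / s - i| := by
      conv_lhs => rw [h1, ← mul_sub, abs_mul, abs_of_pos hs]
    rw [h2]
    apply mul_le_mul_of_nonneg_left _ hs.le
    have h3 : ((i - ⌊t / s⌋ : ℤ) : ℝ) = ((i : ℝ) - t / s) + (t / s - ⌊t / s⌋) := by
      push_cast
      ring
    have h4 : |t / s - ⌊t / s⌋| ≤ 1 := by
      rw [abs_le]
      have := Int.floor_le (t / s)
      have := Int.lt_floor_add_one (t / s)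
      constructor <;> linarith
    have h5 := abs_add_le ((i : ℝ) - t / s) (t / s - ⌊t / s⌋)
    rw [← h3, abs_sub_comm (i : ℝ) (t / s)] at h5
    linarith
  have hre := Complex.abs_re_le_norm (z - lp s j)
  have him := Complex.abs_im_le_norm (z - lp s j)
  have e1 : (z - lp s j).re = z.re - s * j.1 := rfl
  have e2 : (z - lp s j).im = z.im - s * j.2 := rfl
  rw [e1] at hre
  rw [e2] at him
  rw [EisensteinSeries.norm_eq_max_natAbs]
  have h1 := hdist z.re j.1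
  have h2 := hdist z.im j.2
  rw [← hx0] at h1
  rw [← hx1] at h2
  have h3 : (((x 0).natAbs : ℕ) : ℝ) = |((x 0 : ℤ) : ℝ)| := by
    rw [Nat.cast_natAbs, Int.cast_abs]
  have h4 : (((x 1).natAbs : ℕ) : ℝ) = |((x 1 : ℤ) : ℝ)| := by
    rw [Nat.cast_natAbs, Int.cast_abs]
  rw [Nat.cast_max, h3, h4]
  rcases max_choice |((x 0 : ℤ) : ℝ)| |((x 1 : ℤ) : ℝ)| with h | h
  · rw [h]
    exact h1.trans hre
  · rw [h]
    exact h2.trans him

private theorem ls_wt_le {R : ℝ} (hR : 0 < R) {y : ℂ} {n : ℝ} (hn : 0 < n)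
    (h : R * n ≤ 3 * max R ‖y‖) : wt R y ≤ 27 * n ^ (-3 : ℝ) := by
  have hm : 0 < max R ‖y‖ := lt_max_of_lt_left hR
  have h1 : R / max R ‖y‖ ≤ 3 / n := by
    rw [div_le_div_iff₀ hm hn]
    exact h
  have h2 : wt R y ≤ (3 / n) ^ 3 := by
    unfold wt
    exact pow_le_pow_left₀ (div_nonneg hR.le hm.le) h1 3
  have h3 : (3 / n) ^ 3 = 27 * n ^ (-3 : ℝ) := by
    rw [Real.rpow_neg hn.le, div_pow]
    norm_num
    rfl
  rw [← h3]
  exact h2

private theorem ls_wt_le_one {R : ℝ} (hR : 0 < R) (y : ℂ) : wt R y ≤ 1 := by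
  have hm : 0 < max R ‖y‖ := lt_max_of_lt_left hR
  unfold wt
  apply pow_le_one₀ (div_nonneg hR.le hm.le)
  rw [div_le_one hm]
  exact le_max_left _ _

/-- L2b.lean -/
theorem lattice_sum : ∃ C₀ : ℝ, 0 < C₀ ∧ ∀ s : ℝ, 0 < s → ∀ z : ℂ, ∀ J : Finset (ℤ × ℤ),
    ∑ j ∈ J, wt (2 * s) (z - lp s j) ≤ C₀ := by
  classical
  have hsum := EisensteinSeries.summable_one_div_norm_rpow (k := 3) (by norm_num)
  set S : ℝ := ∑' x : Fin 2 → ℤ, ‖x‖ ^ (-3 : ℝ) with hS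
  have hnn : ∀ x : Fin 2 → ℤ, 0 ≤ ‖x‖ ^ (-3 : ℝ) := fun x => Real.rpow_nonneg (norm_nonneg _) _
  have hS0 : 0 ≤ S := tsum_nonneg hnn
  refine ⟨1 + 27 * S, by positivity, ?_⟩
  intro s hs z J
  have h2s : 0 < 2 * s := by positivity
  let φ : ℤ × ℤ → (Fin 2 → ℤ) := fun j => ![j.1 - ⌊z.re / s⌋, j.2 - ⌊z.im / s⌋]
  have hφ : Function.Injective φ := by
    intro j j' h
    have h1 := congrFun h 0
    have h2 := congrFun h 1
    simp only [φ, Matrix.cons_val_zero, Matrix.cons_val_one] at h1 h2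
    exact Prod.ext (by linarith) (by linarith)
  let j₀ : ℤ × ℤ := (⌊z.re / s⌋, ⌊z.im / s⌋)
  have hterm : ∀ j : ℤ × ℤ, j ≠ j₀ → wt (2 * s) (z - lp s j) ≤ 27 * ‖φ j‖ ^ (-3 : ℝ) := by
    intro j hj
    have hk := ls_key hs z j (φ j) rfl rfl
    have hne : φ j ≠ 0 := by
      intro h0
      apply hj
      have h1 := congrFun h0 0
      have h2 := congrFun h0 1
      simp only [φ, Matrix.cons_val_zero, Matrix.cons_val_one, Pi.zero_apply] at h1 h2
      exact Prod.ext (by simpa [j₀] using sub_eq_zero.1 h1) (by simpa [j₀] using sub_eq_zero.1 h2)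
    have hn : 0 < ‖φ j‖ := norm_pos_iff.2 hne
    apply ls_wt_le h2s hn
    rcases le_total ‖φ j‖ 3 with h | h
    · have h1 : 2 * s ≤ max (2 * s) ‖z - lp s j‖ := le_max_left _ _
      nlinarith
    · have h1 : ‖z - lp s j‖ ≤ max (2 * s) ‖z - lp s j‖ := le_max_right _ _
      nlinarith
  have hle : ∀ j ∈ J, wt (2 * s) (z - lp s j) ≤
      (if j = j₀ then 1 else 0) + 27 * ‖φ j‖ ^ (-3 : ℝ) := by
    intro j _
    by_cases hj : j = j₀
    · rw [if_pos hj]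
      have h1 := ls_wt_le_one h2s (z - lp s j)
      have h2 := hnn (φ j)
      linarith
    · rw [if_neg hj, zero_add]
      exact hterm j hj
  refine (Finset.sum_le_sum hle).trans ?_
  rw [Finset.sum_add_distrib, ← Finset.mul_sum]
  have h1 : ∑ j ∈ J, (if j = j₀ then (1 : ℝ) else 0) ≤ 1 := by
    rw [Finset.sum_ite_eq']
    split_ifs
    · exact le_rfl
    · exact zero_le_one
  have h2 : ∑ j ∈ J, ‖φ j‖ ^ (-3 : ℝ) ≤ S := by
    have h3 : ∑ j ∈ J, ‖φ j‖ ^ (-3 : ℝ) = ∑ x ∈ J.image φ, ‖x‖ ^ (-3 : ℝ) := by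
      rw [Finset.sum_image (fun a _ b _ h => hφ h)]
    rw [h3]
    exact hsum.sum_le_tsum _ (fun x _ => hnn x)
  linarith

end Pool.Agent.SV
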