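import Pool.Agent.Helper53.AC.Defs
import Pool.Agent.Helper9.KA.CT

/-!
# B2: potentials of continuous functions with compact support
-/

set_option autoImplicit false

open Complex Filter Topology Metric MeasureTheory
open scoped ComplexConjugate

namespace Pool.Agent.SV

theorem b2_integrable {g : ℂ → ℂ} (hg : Continuous g) (hs : HasCompactSupport g) (z : ℂ) :
    Integrable (fun ζ => g ζ / (z - ζ)) := by
  have h1 : LocallyIntegrable (fun t : ℂ => t⁻¹) := Pool.Agent.KA.ct_locallyIntegrable_inv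
  have h2 : Integrable (fun t : ℂ => g (z - t) • t⁻¹) := by
    refine h1.integrable_smul_left_of_hasCompactSupport (g := fun t => g (z - t)) (by fun_prop) ?_
    exact hs.comp_homeomorph (Homeomorph.subLeft z)
  have h3 := h2.comp_sub_left z
  refine h3.congr (Eventually.of_forall fun ζ => ?_)
  simp only [sub_sub_cancel, smul_eq_mul, div_eq_mul_inv]

theorem b2_cont {g : ℂ → ℂ} (hg : Continuous g) (hs : HasCompactSupport g) :
    Continuous (fun z => ∫ ζ, g ζ / (z - ζ)) := by
  have h1 : LocallyIntegrable (fun t : ℂ => t⁻¹) := Pool.Agent.KA.ct_locallyIntegrable_inv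
  have h2 := HasCompactSupport.continuous_convolution_left (ContinuousLinearMap.mul ℝ ℂ)
    (μ := (volume : Measure ℂ)) hs hg h1
  refine h2.congr fun z => ?_
  rw [convolution_def]
  simp only [ContinuousLinearMap.mul_apply', div_eq_mul_inv]

theorem b2_holo {g : ℂ → ℂ} (hg : Continuous g) (hs : HasCompactSupport g) :
    DifferentiableOn ℂ (fun z => ∫ ζ, g ζ / (z - ζ)) (tsupport g)ᶜ := by
  intro z₀ hz₀
  obtain ⟨ε, hε, hball⟩ := Metric.isOpen_iff.1 (isClosed_tsupport g).isOpen_compl z₀ hz₀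
  have hd : ∀ z ∈ ball z₀ (ε / 2), ∀ ζ ∈ tsupport g, ε / 2 ≤ ‖z - ζ‖ := by
    intro z hz ζ hζ
    have h1 : ζ ∉ ball z₀ ε := fun h => hball h hζ
    rw [mem_ball, dist_eq_norm, not_lt] at h1
    rw [mem_ball, dist_eq_norm] at hz
    have h2 : ‖ζ - z₀‖ ≤ ‖z - ζ‖ + ‖z - z₀‖ := by
      calc ‖ζ - z₀‖ = ‖(z - z₀) - (z - ζ)‖ := by congr 1; ring
        _ ≤ ‖z - z₀‖ + ‖z - ζ‖ := norm_sub_le _ _
        _ = _ := add_comm _ _
    linarith
  have hgi : Integrable g := hg.integrable_of_hasCompactSupport hs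
  have key := hasDerivAt_integral_of_dominated_loc_of_deriv_le (μ := (volume : Measure ℂ))
    (F := fun z ζ => g ζ / (z - ζ)) (F' := fun z ζ => - g ζ / (z - ζ) ^ 2)
    (bound := fun ζ => ‖g ζ‖ * (4 / ε ^ 2)) (x₀ := z₀) (s := ball z₀ (ε / 2))
    (ball_mem_nhds _ (half_pos hε))
    (Eventually.of_forall fun z => (b2_integrable hg hs z).aestronglyMeasurable)
    (b2_integrable hg hs z₀) ?_ ?_ (hgi.norm.mul_const _) ?_
  · exact key.2.differentiableAt.differentiableWithinAt
  · refine (Measurable.div (by fun_prop) (by fun_prop)).aestronglyMeasurable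
  · refine Eventually.of_forall fun ζ z hz => ?_
    by_cases hζ : ζ ∈ tsupport g
    · have h1 := hd z hz ζ hζ
      rw [norm_div, norm_neg, norm_pow, div_eq_mul_inv]
      refine mul_le_mul_of_nonneg_left ?_ (norm_nonneg _)
      have h0 : 0 < ‖z - ζ‖ := lt_of_lt_of_le (half_pos hε) h1
      rw [inv_le_comm₀ (by positivity) (by positivity)]
      have h2 : (4 / ε ^ 2)⁻¹ = (ε / 2) ^ 2 := by
        field_simp
        norm_num
      rw [h2]
      gcongr
    · rw [image_eq_zero_of_notMem_tsupport hζ]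
      simp
  · refine Eventually.of_forall fun ζ z hz => ?_
    by_cases hζ : ζ ∈ tsupport g
    · have h1 := hd z hz ζ hζ
      have h2 : z - ζ ≠ 0 := by
        intro h
        rw [h, norm_zero] at h1
        linarith
      have h3 := ((hasDerivAt_id z).sub_const ζ).inv h2
      have h4 := h3.const_mul (g ζ)
      simp only [div_eq_mul_inv]
      refine h4.congr_deriv ?_
      simp only [id]
      field_simp
    · rw [image_eq_zero_of_notMem_tsupport hζ]
      simp only [zero_div, neg_zero]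
      exact hasDerivAt_const _ _

/-- the potential tends to zero at infinity -/
theorem b2_zero {g : ℂ → ℂ} (hg : Continuous g) (hs : HasCompactSupport g) :
    Tendsto (fun z => ∫ ζ, g ζ / (z - ζ)) (cocompact ℂ) (𝓝 0) := by
  obtain ⟨ρ, hρ⟩ := hs.isBounded.subset_closedBall (0 : ℂ)
  have hgi : Integrable g := hg.integrable_of_hasCompactSupport hs
  have hnt : Tendsto (fun z : ℂ => ‖z‖) (cocompact ℂ) atTop := tendsto_norm_cocompact_atTop
  have h1 : Tendsto (fun z : ℂ => (∫ ζ, ‖g ζ‖) * (2 / ‖z‖)) (cocompact ℂ) (𝓝 0) := by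
    have h2 : Tendsto (fun z : ℂ => 2 / ‖z‖) (cocompact ℂ) (𝓝 0) :=
      hnt.const_div_atTop 2
    simpa using h2.const_mul (∫ ζ, ‖g ζ‖)
  refine squeeze_zero_norm' ?_ h1
  filter_upwards [hnt.eventually_gt_atTop (2 * max ρ 0)] with z hz
  have hz0 : 0 < ‖z‖ := by
    have := le_max_right ρ 0
    linarith
  rw [← integral_mul_const]
  refine norm_integral_le_of_norm_le (hgi.norm.mul_const _) (Eventually.of_forall fun ζ => ?_)
  by_cases hζ : ζ ∈ tsupport g
  · have h2 : ‖ζ‖ ≤ ρ := by
      have := hρ hζ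
      rwa [mem_closedBall_zero_iff] at this
    have h3 : ‖z‖ / 2 ≤ ‖z - ζ‖ := by
      have h4 := norm_sub_norm_le z ζ
      have h5 := le_max_left ρ 0
      linarith
    rw [norm_div, div_eq_mul_inv]
    refine mul_le_mul_of_nonneg_left ?_ (norm_nonneg _)
    rw [inv_le_comm₀ (by linarith) (by positivity), inv_div]
    exact h3
  · rw [image_eq_zero_of_notMem_tsupport hζ]
    simp

theorem b2_shift {g : ℂ → ℂ} (hg : Continuous g) (hs : HasCompactSupport g) (c : ℂ) {z : ℂ}
    (hz : z ∉ tsupport g) : (z - c) * (∫ ζ, g ζ / (z - ζ))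
      = (∫ ζ, g ζ) + ∫ ζ, g ζ * (ζ - c) / (z - ζ) := by
  have hgi : Integrable g := hg.integrable_of_hasCompactSupport hs
  have h2 : Integrable (fun ζ => g ζ * (ζ - c) / (z - ζ)) :=
    b2_integrable (g := fun ζ => g ζ * (ζ - c)) (by fun_prop) hs.mul_right z
  rw [← integral_add hgi h2, ← integral_const_mul]
  refine integral_congr_ae (Eventually.of_forall fun ζ => ?_)
  simp only
  by_cases hζ : ζ ∈ tsupport g
  · have h3 : z - ζ ≠ 0 := by
      intro h
      rw [sub_eq_zero] at h
      exact hz (h ▸ hζ)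
    field_simp
    ring
  · rw [image_eq_zero_of_notMem_tsupport hζ]
    simp

theorem b2_ev {g : ℂ → ℂ} (hs : HasCompactSupport g) :
    ∀ᶠ z in cocompact ℂ, z ∉ tsupport g := by
  have := hs.isCompact.compl_mem_cocompact
  filter_upwards [this] with z hz
  exact hz

theorem pot_AF {g : ℂ → ℂ} (hg : Continuous g) (hs : HasCompactSupport g) (c : ℂ) :
    AF (tsupport g) c (fun z => ∫ ζ, g ζ / (z - ζ)) (∫ ζ, g ζ) (∫ ζ, g ζ * (ζ - c)) := by
  refine ⟨b2_cont hg hs, b2_holo hg hs, b2_zero hg hs, ?_, ?_⟩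
  · have h1 : Continuous (fun ζ => g ζ * (ζ - 0)) := by fun_prop
    have h2 : HasCompactSupport (fun ζ => g ζ * (ζ - 0)) := hs.mul_right
    have h3 := (tendsto_const_nhds (x := ∫ ζ, g ζ)).add (b2_zero h1 h2)
    rw [add_zero] at h3
    refine h3.congr' ?_
    filter_upwards [b2_ev hs] with z hz
    have h4 := b2_shift hg hs 0 hz
    rw [sub_zero] at h4
    exact h4.symm
  · have h1 : Continuous (fun ζ => g ζ * (ζ - c)) := by fun_prop
    have h2 : HasCompactSupport (fun ζ => g ζ * (ζ - c)) := hs.mul_right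
    have h1' : Continuous (fun ζ => g ζ * (ζ - c) * (ζ - c)) := by fun_prop
    have h2' : HasCompactSupport (fun ζ => g ζ * (ζ - c) * (ζ - c)) := h2.mul_right
    have h3 := (tendsto_const_nhds (x := ∫ ζ, g ζ * (ζ - c))).add (b2_zero h1' h2')
    rw [add_zero] at h3
    refine h3.congr' ?_
    filter_upwards [b2_ev hs, b2_ev h2] with z hz hz'
    rw [b2_shift hg hs c hz, add_sub_cancel_left, b2_shift h1 h2 c hz']

end Pool.Agent.SV
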