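import Pool.Agent.Helper53.AC.L0

/-!
# B1: blobs
-/

set_option autoImplicit false

open Complex Filter Topology Metric MeasureTheory Set

namespace Pool.Agent.SV

theorem blob_cont (c : ℂ) (t : ℝ) : Continuous (blob c t) := by
  unfold blob
  fun_prop

theorem blob_nonneg (c : ℂ) (t : ℝ) (ζ : ℂ) : 0 ≤ blob c t ζ := by
  unfold blob
  have := Real.pi_pos
  positivity

theorem blob_supp (c : ℂ) {t : ℝ} (ht : 0 < t) {ζ : ℂ} (h : blob c t ζ ≠ 0) : ‖ζ - c‖ < t := by
  by_contra hcon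
  push Not at hcon
  apply h
  unfold blob
  have h1 : 1 - ‖ζ - c‖ / t ≤ 0 := by
    rw [sub_nonpos, le_div_iff₀ ht]
    linarith
  rw [max_eq_left h1, mul_zero]

theorem blob_zero (c : ℂ) {t : ℝ} (ht : 0 < t) {ζ : ℂ} (h : t ≤ ‖ζ - c‖) : blob c t ζ = 0 := by
  by_contra hcon
  exact absurd (blob_supp c ht hcon) (not_lt.2 h)

theorem blob_compact (c : ℂ) {t : ℝ} (ht : 0 < t) : HasCompactSupport (blob c t) := by
  refine HasCompactSupport.intro (isCompact_closedBall c t) (fun ζ hζ => blob_zero c ht ?_)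
  rw [mem_closedBall, dist_eq_norm, not_le] at hζ
  exact hζ.le

theorem blob_le (c : ℂ) {t : ℝ} (ht : 0 < t) (ζ : ℂ) : blob c t ζ ≤ 1 / t ^ 2 := by
  unfold blob
  have hpi := Real.pi_gt_three
  have h1 : max 0 (1 - ‖ζ - c‖ / t) ≤ 1 := by
    refine max_le zero_le_one ?_
    have : 0 ≤ ‖ζ - c‖ / t := by positivity
    linarith
  calc 3 / (Real.pi * t ^ 2) * max 0 (1 - ‖ζ - c‖ / t) ≤ 3 / (Real.pi * t ^ 2) * 1 := by
        gcongr
    _ ≤ 1 / t ^ 2 := by
        rw [mul_one, div_le_div_iff₀ (by positivity) (by positivity)]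
        nlinarith [sq_nonneg t]

theorem blob_int (c : ℂ) {t : ℝ} (ht : 0 < t) : ∫ ζ, blob c t ζ = 1 := by
  have hpi := Real.pi_pos
  set F : ℝ → ℝ := fun y => 3 / (Real.pi * t ^ 2) * max 0 (1 - y / t) with hF
  have e1 : ∫ ζ, blob c t ζ = ∫ x : ℂ, F ‖x‖ :=
    integral_sub_right_eq_self (fun x : ℂ => F ‖x‖) c
  have e2 : EqOn (fun y : ℝ => y ^ (2 - 1) • F y)
      ((Iic t).indicator (fun y => 3 / (Real.pi * t ^ 2) * (y - y ^ 2 / t))) (Ioi 0) := by
    intro y hy
    have hy' : (0 : ℝ) < y := hy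
    simp only [Nat.add_one_sub_one, pow_one, smul_eq_mul, hF]
    by_cases h : y ∈ Iic t
    · rw [indicator_of_mem h]
      have h1 : 0 ≤ 1 - y / t := by
        rw [sub_nonneg, div_le_one ht]; exact h
      rw [max_eq_right h1]
      ring
    · rw [indicator_of_notMem h]
      have h1 : 1 - y / t ≤ 0 := by
        rw [sub_nonpos, one_le_div ht]; exact (not_le.1 h).le
      rw [max_eq_left h1]
      ring
  have h2 : volume.real (ball (0 : ℂ) 1) = Real.pi := by
    rw [Measure.real, Complex.volume_ball]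
    simp
  rw [e1, integral_fun_norm_addHaar volume (f := F), Complex.finrank_real_complex, h2,
    setIntegral_congr_fun measurableSet_Ioi e2, setIntegral_indicator measurableSet_Iic]
  have h1 : Ioi (0 : ℝ) ∩ Iic t = Ioc 0 t := rfl
  rw [h1, ← intervalIntegral.integral_of_le ht.le, intervalIntegral.integral_const_mul,
    intervalIntegral.integral_sub (Continuous.intervalIntegrable (by fun_prop) _ _)
      (Continuous.intervalIntegrable (by fun_prop) _ _)]
  have h3 : ∫ x in (0 : ℝ)..t, x = t ^ 2 / 2 := by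
    rw [integral_id]; ring
  have h4 : ∫ x in (0 : ℝ)..t, x ^ 2 / t = t ^ 2 / 3 := by
    rw [intervalIntegral.integral_div, integral_pow]
    field_simp
    norm_num
    ring
  rw [h3, h4]
  simp only [nsmul_eq_mul, smul_eq_mul]
  push_cast
  field_simp
  norm_num

theorem blob_first (c : ℂ) {t : ℝ} (_ht : 0 < t) :
    ∫ ζ, (blob c t ζ : ℂ) * (ζ - c) = 0 := by
  have h := integral_sub_left_eq_self (fun ζ : ℂ => (blob c t ζ : ℂ) * (ζ - c)) volume (2 * c)
  have h2 : (fun ζ : ℂ => (blob c t (2 * c - ζ) : ℂ) * (2 * c - ζ - c)) =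
      fun ζ : ℂ => -((blob c t ζ : ℂ) * (ζ - c)) := by
    funext ζ
    have e : 2 * c - ζ - c = -(ζ - c) := by ring
    have e2 : blob c t (2 * c - ζ) = blob c t ζ := by
      unfold blob
      rw [e, norm_neg]
    rw [e, e2]
    ring
  rw [h2, integral_neg] at h
  have h3 : (2 : ℂ) * ∫ ζ, (blob c t ζ : ℂ) * (ζ - c) = 0 := by
    linear_combination -h
  simpa using h3

theorem blob_pot (c : ℂ) {t : ℝ} (ht : 0 < t) (z : ℂ) :
    ‖∫ ζ, (blob c t ζ : ℂ) / (z - ζ)‖ ≤ 6 / t := by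
  have hpi := Real.pi_pos
  obtain ⟨hI, hb⟩ := inv_ball_integral z c ht
  have h1 : Integrable ((closedBall c t).indicator
      (fun ζ : ℂ => 3 / (Real.pi * t ^ 2) * ‖z - ζ‖⁻¹)) :=
    (integrable_indicator_iff measurableSet_closedBall).2 (hI.const_mul _)
  have h2 : ‖∫ ζ, (blob c t ζ : ℂ) / (z - ζ)‖ ≤ ∫ ζ, (closedBall c t).indicator
      (fun ζ : ℂ => 3 / (Real.pi * t ^ 2) * ‖z - ζ‖⁻¹) ζ := by
    refine norm_integral_le_of_norm_le h1 (Eventually.of_forall fun ζ => ?_)
    rw [norm_div, Complex.norm_real, Real.norm_eq_abs, abs_of_nonneg (blob_nonneg c t ζ)]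
    by_cases h : ζ ∈ closedBall c t
    · rw [indicator_of_mem h, div_eq_mul_inv]
      refine mul_le_mul_of_nonneg_right ?_ (by positivity)
      unfold blob
      have : max 0 (1 - ‖ζ - c‖ / t) ≤ 1 := by
        refine max_le zero_le_one ?_
        have : 0 ≤ ‖ζ - c‖ / t := by positivity
        linarith
      calc 3 / (Real.pi * t ^ 2) * max 0 (1 - ‖ζ - c‖ / t) ≤ 3 / (Real.pi * t ^ 2) * 1 := by
            gcongr
        _ = _ := mul_one _
    · rw [indicator_of_notMem h]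
      rw [mem_closedBall, dist_eq_norm, not_le] at h
      rw [blob_zero c ht h.le, zero_div]
  refine h2.trans ?_
  rw [integral_indicator measurableSet_closedBall, integral_const_mul]
  calc 3 / (Real.pi * t ^ 2) * ∫ ζ in closedBall c t, ‖z - ζ‖⁻¹
      ≤ 3 / (Real.pi * t ^ 2) * (2 * Real.pi * t) := by gcongr
    _ = 6 / t := by field_simp; norm_num

end Pool.Agent.SV
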