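import Pool.Agent.Helper53.AC.Defs

/-!
# Decay of functions whose first two coefficients at infinity vanish
-/

set_option autoImplicit false

open Complex Filter Topology Metric
open scoped ComplexConjugate

namespace Pool.Agent.SV

open Pool.Agent.Helper53.CAC

theorem wt_nonneg {R : ℝ} (hR : 0 < R) (y : ℂ) : 0 ≤ wt R y := by
  unfold wt
  have : 0 < max R ‖y‖ := lt_max_of_lt_left hR
  positivity

theorem wt_le_one {R : ℝ} (hR : 0 < R) (y : ℂ) : wt R y ≤ 1 := by
  unfold wt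
  have h : 0 < max R ‖y‖ := lt_max_of_lt_left hR
  have h1 : R / max R ‖y‖ ≤ 1 := (div_le_one h).2 (le_max_left _ _)
  exact pow_le_one₀ (by positivity) h1

theorem wt_scale {R t : ℝ} (hR : 0 < R) (ht : 1 ≤ t) (y : ℂ) : wt (t * R) y ≤ t ^ 3 * wt R y := by
  unfold wt
  have ht0 : 0 < t := by linarith
  have h : 0 < max R ‖y‖ := lt_max_of_lt_left hR
  have h2 : R ≤ t * R := by nlinarith
  have h3 : max R ‖y‖ ≤ max (t * R) ‖y‖ := max_le_max h2 le_rfl
  have h4 : t * R / max (t * R) ‖y‖ ≤ t * (R / max R ‖y‖) := by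
    rw [mul_div_assoc]
    exact mul_le_mul_of_nonneg_left (div_le_div_of_nonneg_left hR.le h h3) ht0.le
  calc (t * R / max (t * R) ‖y‖) ^ 3 ≤ (t * (R / max R ‖y‖)) ^ 3 := by
        apply pow_le_pow_left₀ _ h4
        have : 0 < max (t * R) ‖y‖ := lt_of_lt_of_le h h3
        positivity
    _ = t ^ 3 * (R / max R ‖y‖) ^ 3 := by ring

theorem cube_decay {f : ℂ → ℂ} {x : ℂ} {R M : ℝ} (hR : 0 < R)
    (hf : DifferentiableOn ℂ f {z | R < ‖z - x‖}) (hb : ∀ z, R < ‖z - x‖ → ‖f z‖ ≤ M)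
    (h : Coef f x 0 0) : ∀ z, R < ‖z - x‖ → ‖f z‖ ≤ M * (R / ‖z - x‖) ^ 3 := by
  intro z hz
  set ρ : ℝ := ‖z - x‖ with hρ
  have hρ0 : 0 < ρ := hR.trans hz
  -- the function in the inverted coordinate
  set g : ℂ → ℂ := fun u => f (x + u⁻¹) * (u⁻¹) ^ 3 with hg
  have hin : ∀ u ∈ ball (0 : ℂ) R⁻¹ \ {0}, R < ‖(x + u⁻¹) - x‖ := by
    intro u hu
    have hu0 : u ≠ 0 := hu.2
    have hu1 : ‖u‖ < R⁻¹ := by simpa using hu.1
    have hu2 : 0 < ‖u‖ := norm_pos_iff.2 hu0
    rw [add_sub_cancel_left, norm_inv]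
    rw [lt_inv_comm₀ hR hu2]
    exact hu1
  have hopen : IsOpen {z : ℂ | R < ‖z - x‖} := isOpen_lt continuous_const (by fun_prop)
  have hgd : DifferentiableOn ℂ g (ball (0 : ℂ) R⁻¹ \ {0}) := by
    intro u hu
    have hu0 : u ≠ 0 := hu.2
    have h1 : DifferentiableAt ℂ f (x + u⁻¹) :=
      (hf _ (hin u hu)).differentiableAt (hopen.mem_nhds (hin u hu))
    have h2 : DifferentiableAt ℂ (fun u : ℂ => x + u⁻¹) u :=
      (differentiableAt_inv hu0).const_add x
    have h3 : DifferentiableAt ℂ (fun u : ℂ => f (x + u⁻¹)) u :=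
      DifferentiableAt.comp u h1 h2
    exact (h3.mul ((differentiableAt_inv hu0).pow 3)).differentiableWithinAt
  -- the limit
  have hlim : Tendsto (fun u : ℂ => u * g u) (𝓝[≠] 0) (𝓝 0) := by
    have h1 : Tendsto (fun u : ℂ => x + u⁻¹) (𝓝[≠] 0) (cocompact ℂ) := by
      have h2 : Tendsto (fun u : ℂ => u⁻¹) (𝓝[≠] 0) (cocompact ℂ) := by
        rw [← Metric.cobounded_eq_cocompact]
        exact tendsto_inv₀_nhdsNE_zero
      have h3 := (Homeomorph.addLeft x).isClosedEmbedding.tendsto_cocompact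
      exact h3.comp h2
    have h4 := h.cb.comp h1
    refine h4.congr' ?_
    filter_upwards [self_mem_nhdsWithin] with u hu
    have hu0 : u ≠ 0 := hu
    simp only [Function.comp, hg]
    rw [add_sub_cancel_left]
    field_simp
    ring
  have hlit : (fun u => g u - g 0) =o[𝓝[≠] (0 : ℂ)] fun u => (u - 0)⁻¹ := by
    have h1 : g 0 = 0 := by simp [hg]
    rw [Asymptotics.isLittleO_iff_tendsto']
    · refine hlim.congr' ?_
      filter_upwards with u
      rw [h1]
      simp [div_eq_mul_inv, mul_comm]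
    · filter_upwards [self_mem_nhdsWithin] with u hu h0
      have hu0 : u ≠ 0 := hu
      exfalso
      apply hu0
      simpa using h0
  set G : ℂ → ℂ := Function.update g 0 (limUnder (𝓝[≠] 0) g) with hG
  have hGd : DifferentiableOn ℂ G (ball (0 : ℂ) R⁻¹) :=
    Complex.differentiableOn_update_limUnder_of_isLittleO
      (isOpen_ball.mem_nhds (mem_ball_self (inv_pos.2 hR))) hgd hlit
  have hGg : ∀ u : ℂ, u ≠ 0 → G u = g u := fun u hu => Function.update_of_ne hu _ _
  -- maximum principle on the disc of radius `1 / r`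
  have key : ∀ r, R < r → r < ρ → ‖f z‖ * ρ ^ 3 ≤ M * r ^ 3 := by
    intro r hr hrρ
    have hr0 : 0 < r := hR.trans hr
    have hsub : closedBall (0 : ℂ) r⁻¹ ⊆ ball (0 : ℂ) R⁻¹ :=
      closedBall_subset_ball (inv_strictAnti₀ hR hr)
    have hdc : DiffContOnCl ℂ G (ball (0 : ℂ) r⁻¹) := by
      apply DifferentiableOn.diffContOnCl
      rw [closure_ball _ (inv_pos.2 hr0).ne']
      exact hGd.mono hsub
    have hz0 : z - x ≠ 0 := by
      intro h0
      rw [hρ, h0, norm_zero] at hρ0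
      exact lt_irrefl _ hρ0
    have hmem : (z - x)⁻¹ ∈ closure (ball (0 : ℂ) r⁻¹) := by
      rw [closure_ball _ (inv_pos.2 hr0).ne', mem_closedBall, dist_zero_right, norm_inv, ← hρ]
      exact (inv_strictAnti₀ hr0 hrρ).le
    have hfr : ∀ u ∈ frontier (ball (0 : ℂ) r⁻¹), ‖G u‖ ≤ M * r ^ 3 := by
      intro u hu
      rw [frontier_ball _ (inv_pos.2 hr0).ne', mem_sphere, dist_zero_right] at hu
      have hu0 : u ≠ 0 := by
        intro h0
        rw [h0, norm_zero] at hu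
        exact (inv_pos.2 hr0).ne hu
      rw [hGg u hu0]
      have hu3 : ‖u⁻¹‖ = r := by rw [norm_inv, hu, inv_inv]
      have hu2 : R < ‖(x + u⁻¹) - x‖ := by
        rw [add_sub_cancel_left, hu3]
        exact hr
      simp only [hg]
      rw [norm_mul, norm_pow, hu3]
      exact mul_le_mul_of_nonneg_right (hb _ hu2) (by positivity)
    have h5 := Complex.norm_le_of_forall_mem_frontier_norm_le isBounded_ball hdc hfr hmem
    rw [hGg _ (inv_ne_zero hz0)] at h5
    simp only [hg] at h5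
    rw [inv_inv, add_sub_cancel, norm_mul, norm_pow, ← hρ] at h5
    exact h5
  have hfin : ‖f z‖ * ρ ^ 3 ≤ M * R ^ 3 := by
    have hcont : Tendsto (fun r : ℝ => M * r ^ 3) (𝓝[>] R) (𝓝 (M * R ^ 3)) := by
      have : Continuous fun r : ℝ => M * r ^ 3 := by fun_prop
      exact this.continuousAt.tendsto.mono_left nhdsWithin_le_nhds
    refine ge_of_tendsto hcont ?_
    filter_upwards [Ioo_mem_nhdsGT hz] with r hr
    exact key r hr.1 hr.2
  rw [div_pow, mul_div_assoc', le_div_iff₀ (by positivity)]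
  exact hfin

theorem cube_wt {f : ℂ → ℂ} {x : ℂ} {R M : ℝ} (hR : 0 < R) (hM : 0 ≤ M) {S : Set ℂ}
    (hS : {z | R < ‖z - x‖} ⊆ S) (hf : DifferentiableOn ℂ f {z | R < ‖z - x‖})
    (hb : ∀ z ∈ S, ‖f z‖ ≤ M) (h : Coef f x 0 0) : ∀ z ∈ S, ‖f z‖ ≤ M * wt R (z - x) := by
  intro z hz
  have _ := hM
  rcases lt_or_ge R ‖z - x‖ with h1 | h1
  · have h2 := cube_decay hR hf (fun w hw => hb w (hS hw)) h z h1
    have h3 : wt R (z - x) = (R / ‖z - x‖) ^ 3 := by
      unfold wt
      rw [max_eq_right h1.le]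
    rw [h3]
    exact h2
  · have h3 : wt R (z - x) = 1 := by
      unfold wt
      rw [max_eq_left h1, div_self hR.ne', one_pow]
    rw [h3, mul_one]
    exact hb z hz

end Pool.Agent.SV
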