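import Pool.Agent.Helper53.AC.C1
import Pool.Agent.Helper53.AC.C3
import Pool.Agent.Helper53.AC.B1
import Pool.Agent.Helper53.AC.B2

/-!
# B3: one cell, forward
-/

set_option autoImplicit false

open Complex Filter Topology Metric
open scoped ComplexConjugate

namespace Pool.Agent.SV

open MeasureTheory

theorem b3_d_pos {P : Set ℂ} {x : ℂ} {R α d : ℝ} {c : ℂ} {G H : ℂ → ℂ}
    (hC : Cell P x R α d c G H) : 0 < d := by
  have h1 := hC.α_pos
  have h2 := hC.α_d
  linarith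

/-- the two weights of the density -/
theorem b3_weights {P : Set ℂ} {x : ℂ} {R α d : ℝ} {c : ℂ} {G H : ℂ → ℂ}
    (hC : Cell P x R α d c G H) {f : ℂ → ℂ} {a b : ℂ} {M : ℝ}
    (hf : AF P c f a b) (hM : ∀ z, ‖f z‖ ≤ M) :
    ‖(a + b / d) / 2‖ ≤ 2 * M * α ∧ ‖(a - b / d) / 2‖ ≤ 2 * M * α := by
  have hd := b3_d_pos hC
  obtain ⟨h1, h2⟩ := hC.up f a b M hf hM
  have h3 : ‖b / (d : ℂ)‖ ≤ 3 * M * α := by
    rw [norm_div, Complex.norm_real, Real.norm_eq_abs, abs_of_pos hd, div_le_iff₀ hd]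
    calc ‖b‖ ≤ 3 * M * (α * d) := h2
      _ = _ := by ring
  constructor
  · rw [norm_div, Complex.norm_ofNat]
    have := norm_add_le a (b / (d : ℂ))
    linarith
  · rw [norm_div, Complex.norm_ofNat]
    have := norm_sub_le a (b / (d : ℂ))
    linarith

theorem gC_norm {P : Set ℂ} {x : ℂ} {R α d : ℝ} {c : ℂ} {G H : ℂ → ℂ}
    (hC : Cell P x R α d c G H) {θ : ℝ} (hθ : 0 < θ) {f : ℂ → ℂ} {a b : ℂ} {M : ℝ}
    (hf : AF P c f a b) (hM : ∀ z, ‖f z‖ ≤ M) (ζ : ℂ) :
    ‖gC α d c θ a b ζ‖ ≤ Real.pi * rhoC α d c θ (2 * M) ζ := by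
  obtain ⟨h1, h2⟩ := b3_weights hC hf hM
  have hp := blob_nonneg (c + d) (θ * α) ζ
  have hq := blob_nonneg (c - d) (θ * α) ζ
  unfold gC rhoC
  rw [norm_mul, Complex.norm_real, Real.norm_eq_abs, abs_of_pos Real.pi_pos]
  apply mul_le_mul_of_nonneg_left _ Real.pi_pos.le
  refine (norm_add_le _ _).trans ?_
  rw [norm_mul, norm_mul, Complex.norm_real, Complex.norm_real, Real.norm_eq_abs,
    Real.norm_eq_abs, abs_of_nonneg hp, abs_of_nonneg hq]
  calc ‖(a + b / d) / 2‖ * blob (c + d) (θ * α) ζ + ‖(a - b / d) / 2‖ * blob (c - d) (θ * α) ζ ≤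
      2 * M * α * blob (c + d) (θ * α) ζ + 2 * M * α * blob (c - d) (θ * α) ζ :=
        add_le_add (mul_le_mul_of_nonneg_right h1 hp) (mul_le_mul_of_nonneg_right h2 hq)
    _ = _ := by ring

theorem b3_blob_int (p : ℂ) {t : ℝ} (ht : 0 < t) : ∫ ζ, (blob p t ζ : ℂ) = 1 := by
  rw [integral_complex_ofReal, blob_int p ht, Complex.ofReal_one]

theorem b3_blob_integrable (p : ℂ) {t : ℝ} (ht : 0 < t) :
    Integrable (fun ζ => (blob p t ζ : ℂ)) := by
  apply Continuous.integrable_of_hasCompactSupport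
  · exact Complex.continuous_ofReal.comp (blob_cont p t)
  · exact (blob_compact p ht).comp_left (g := fun t : ℝ => (t : ℂ)) Complex.ofReal_zero

theorem gC_int {α d : ℝ} (hα : 0 < α) (c : ℂ) {θ : ℝ} (hθ : 0 < θ) (a b : ℂ) :
    (Real.pi : ℂ)⁻¹ * ∫ ζ, gC α d c θ a b ζ = a := by
  have ht : 0 < θ * α := mul_pos hθ hα
  have hpi : (Real.pi : ℂ) ≠ 0 := by exact_mod_cast Real.pi_ne_zero
  unfold gC
  rw [integral_const_mul, integral_add ((b3_blob_integrable _ ht).const_mul _)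
    ((b3_blob_integrable _ ht).const_mul _), integral_const_mul, integral_const_mul,
    b3_blob_int _ ht, b3_blob_int _ ht]
  field_simp
  ring

theorem b3_gC_cont (α d : ℝ) (c : ℂ) (θ : ℝ) (a b : ℂ) : Continuous (gC α d c θ a b) := by
  unfold gC
  have h1 := Complex.continuous_ofReal.comp (blob_cont (c + d) (θ * α))
  have h2 := Complex.continuous_ofReal.comp (blob_cont (c - d) (θ * α))
  exact continuous_const.mul ((continuous_const.mul h1).add (continuous_const.mul h2))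

theorem b3_gC_support {α d : ℝ} (c : ℂ) {θ : ℝ} (ht : 0 < θ * α) (a b : ℂ) :
    tsupport (gC α d c θ a b) ⊆ closedBall (c + d) (θ * α) ∪ closedBall (c - d) (θ * α) := by
  apply closure_minimal _ (isClosed_closedBall.union isClosed_closedBall)
  intro ζ hζ
  rw [Function.mem_support] at hζ
  by_contra hcon
  rw [Set.mem_union, not_or, mem_closedBall, mem_closedBall, dist_eq_norm, dist_eq_norm] at hcon
  obtain ⟨h1, h2⟩ := hcon
  apply hζ
  have e1 : blob (c + d) (θ * α) ζ = 0 := by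
    by_contra h
    exact h1 (blob_supp _ ht h).le
  have e2 : blob (c - d) (θ * α) ζ = 0 := by
    by_contra h
    exact h2 (blob_supp _ ht h).le
  unfold gC
  rw [e1, e2]
  simp

theorem b3_gC_compact {α d : ℝ} (c : ℂ) {θ : ℝ} (ht : 0 < θ * α) (a b : ℂ) :
    HasCompactSupport (gC α d c θ a b) :=
  ((isCompact_closedBall _ _).union (isCompact_closedBall _ _)).of_isClosed_subset
    (isClosed_tsupport _) (b3_gC_support c ht a b)

theorem b3_blob_mom (p y : ℂ) {t : ℝ} (ht : 0 < t) :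
    Integrable (fun ζ => (blob p t ζ : ℂ) * (ζ - y)) ∧
      ∫ ζ, (blob p t ζ : ℂ) * (ζ - y) = p - y := by
  have hc : Continuous (fun ζ => (blob p t ζ : ℂ)) :=
    Complex.continuous_ofReal.comp (blob_cont p t)
  have hs : HasCompactSupport (fun ζ => (blob p t ζ : ℂ)) :=
    (blob_compact p ht).comp_left (g := fun t : ℝ => (t : ℂ)) Complex.ofReal_zero
  have hi : ∀ y : ℂ, Integrable (fun ζ => (blob p t ζ : ℂ) * (ζ - y)) := fun y =>
    (hc.mul (continuous_id.sub continuous_const)).integrable_of_hasCompactSupport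
      (hs.mul_right)
  refine ⟨hi y, ?_⟩
  have h1 : ∀ ζ : ℂ, (blob p t ζ : ℂ) * (ζ - y) =
      (blob p t ζ : ℂ) * (ζ - p) + (blob p t ζ : ℂ) * (p - y) := by
    intro ζ; ring
  simp only [h1]
  rw [integral_add (hi p) ((b3_blob_integrable p ht).mul_const _), blob_first p ht,
    integral_mul_const, b3_blob_int p ht]
  ring

theorem fwd_cell {P : Set ℂ} {x : ℂ} {R α d : ℝ} {c : ℂ} {G H : ℂ → ℂ} (hR : 0 < R)
    (hC : Cell P x R α d c G H) {θ : ℝ} (hθ : 0 < θ) (hθ1 : θ ≤ 1 / 8) {f : ℂ → ℂ} {a b : ℂ}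
    {M : ℝ} (hf : AF P c f a b) (hM : ∀ z, ‖f z‖ ≤ M) (z : ℂ) :
    ‖(Real.pi : ℂ)⁻¹ * (∫ ζ, gC α d c θ a b ζ / (z - ζ)) - f z‖
      ≤ 10 ^ 4 * M / θ * wt R (z - x) := by
  have hα := hC.α_pos
  have hd := b3_d_pos hC
  have ht : 0 < θ * α := mul_pos hθ hα
  have hM0 : 0 ≤ M := (norm_nonneg (f 0)).trans (hM 0)
  obtain ⟨w1, w2⟩ := b3_weights hC hf hM
  have hpi : (Real.pi : ℂ) ≠ 0 := by exact_mod_cast Real.pi_ne_zero
  have hd0 : (d : ℂ) ≠ 0 := by exact_mod_cast hd.ne'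
  set g := gC α d c θ a b with hg
  have hgc : Continuous g := b3_gC_cont α d c θ a b
  have hgs : HasCompactSupport g := b3_gC_compact c ht a b
  -- the coefficients
  have hmass : (Real.pi : ℂ)⁻¹ * ∫ ζ, g ζ = a := gC_int hα c hθ a b
  have hmom : (Real.pi : ℂ)⁻¹ * ∫ ζ, g ζ * (ζ - c) = b := by
    obtain ⟨i1, m1⟩ := b3_blob_mom (c + d) c ht
    obtain ⟨i2, m2⟩ := b3_blob_mom (c - d) c ht
    have h1 : ∀ ζ : ℂ, g ζ * (ζ - c) =
        (Real.pi : ℂ) * ((a + b / d) / 2 * ((blob (c + d) (θ * α) ζ : ℂ) * (ζ - c)) +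
          (a - b / d) / 2 * ((blob (c - d) (θ * α) ζ : ℂ) * (ζ - c))) := by
      intro ζ
      rw [hg]
      unfold gC
      ring
    simp only [h1]
    rw [integral_const_mul, integral_add (i1.const_mul _) (i2.const_mul _), integral_const_mul,
      integral_const_mul, m1, m2]
    field_simp
    ring
  have hAF := (pot_AF hgc hgs c).const_mul (Real.pi : ℂ)⁻¹
  rw [hmass, hmom] at hAF
  -- bound of the potential
  have hpot : ∀ z, ‖(Real.pi : ℂ)⁻¹ * ∫ ζ, g ζ / (z - ζ)‖ ≤ 24 * M / θ := by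
    intro z
    have hb : ∀ p : ℂ, Integrable (fun ζ => (blob p (θ * α) ζ : ℂ) / (z - ζ)) := by
      intro p
      exact b2_integrable (Complex.continuous_ofReal.comp (blob_cont p _))
        ((blob_compact p ht).comp_left (g := fun t : ℝ => (t : ℂ)) Complex.ofReal_zero) z
    have h1 : ∀ ζ : ℂ, g ζ / (z - ζ) =
        (Real.pi : ℂ) * ((a + b / d) / 2 * ((blob (c + d) (θ * α) ζ : ℂ) / (z - ζ)) +
          (a - b / d) / 2 * ((blob (c - d) (θ * α) ζ : ℂ) / (z - ζ))) := by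
      intro ζ
      rw [hg]
      unfold gC
      ring
    simp only [h1]
    rw [integral_const_mul, integral_add ((hb _).const_mul _) ((hb _).const_mul _),
      integral_const_mul, integral_const_mul, inv_mul_cancel_left₀ hpi]
    refine (norm_add_le _ _).trans ?_
    rw [norm_mul, norm_mul]
    have p1 := blob_pot (c + d) ht z
    have p2 := blob_pot (c - d) ht z
    have hw0 : 0 ≤ 2 * M * α := by positivity
    calc ‖(a + b / d) / 2‖ * ‖∫ ζ, (blob (c + d) (θ * α) ζ : ℂ) / (z - ζ)‖ +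
        ‖(a - b / d) / 2‖ * ‖∫ ζ, (blob (c - d) (θ * α) ζ : ℂ) / (z - ζ)‖ ≤
        2 * M * α * (6 / (θ * α)) + 2 * M * α * (6 / (θ * α)) :=
          add_le_add (mul_le_mul w1 p1 (norm_nonneg _) hw0)
            (mul_le_mul w2 p2 (norm_nonneg _) hw0)
      _ = 24 * M / θ := by field_simp; ring
  -- the difference
  set Δ : ℂ → ℂ := fun z => (Real.pi : ℂ)⁻¹ * (∫ ζ, g ζ / (z - ζ)) - f z with hΔ
  have hdiff : AF (tsupport g ∪ P) c Δ (a - a) (b - b) :=
    (hAF.mono Set.subset_union_left).sub (hf.mono Set.subset_union_right)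
  rw [sub_self, sub_self] at hdiff
  have hrec := hdiff.coef.recenter x
  rw [mul_zero, add_zero] at hrec
  have h7R : 0 < 7 * R := by linarith
  have hθα : θ * α ≤ R / 8 := by
    calc θ * α ≤ 1 / 8 * R := mul_le_mul hθ1 hC.α_le hα.le (by norm_num)
      _ = R / 8 := by ring
  have hnear := hC.near
  have hdle := hC.d_le
  have hsub : tsupport g ∪ P ⊆ closedBall x (7 * R) := by
    have hcd : ∀ e : ℂ, ‖e‖ = d → closedBall (c + e) (θ * α) ⊆ closedBall x (7 * R) := by
      intro e he ζ hζ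
      rw [mem_closedBall, dist_eq_norm] at hζ ⊢
      have e1 : ζ - x = (ζ - (c + e)) + e + (c - x) := by ring
      rw [e1]
      refine (norm_add₃_le).trans ?_
      rw [he]
      linarith
    have hdn : ‖(d : ℂ)‖ = d := by rw [Complex.norm_real, Real.norm_eq_abs, abs_of_pos hd]
    intro ζ hζ
    rcases hζ with hζ | hζ
    · rcases b3_gC_support c ht a b hζ with h | h
      · exact hcd d hdn h
      · refine hcd (-d) (by rw [norm_neg, hdn]) ?_
        rwa [← sub_eq_add_neg]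
    · have h1 := hC.sub hζ
      rw [mem_closedBall] at h1 ⊢
      linarith
  have hholo : DifferentiableOn ℂ Δ {z | 7 * R < ‖z - x‖} := by
    apply hdiff.holo.mono
    intro z hz hmem
    have h1 := hsub hmem
    rw [mem_closedBall, dist_eq_norm] at h1
    exact absurd hz (not_lt.2 h1)
  have hbound : ∀ z ∈ (Set.univ : Set ℂ), ‖Δ z‖ ≤ 25 * M / θ := by
    intro z _
    have h1 := hpot z
    have h2 := hM z
    have h3 : M ≤ M / θ := by
      rw [le_div_iff₀ hθ]
      nlinarith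
    calc ‖Δ z‖ ≤ ‖(Real.pi : ℂ)⁻¹ * ∫ ζ, g ζ / (z - ζ)‖ + ‖f z‖ := norm_sub_le _ _
      _ ≤ 24 * M / θ + M / θ := by linarith
      _ = 25 * M / θ := by ring
  have hkey := cube_wt (M := 25 * M / θ) h7R (by positivity) (Set.subset_univ _) hholo hbound
    hrec z (Set.mem_univ z)
  have hsc := wt_scale (t := 7) hR (by norm_num) (z - x)
  have hw0 := wt_nonneg hR (z - x)
  calc ‖Δ z‖ ≤ 25 * M / θ * wt (7 * R) (z - x) := hkey
    _ ≤ 25 * M / θ * (7 ^ 3 * wt R (z - x)) :=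
        mul_le_mul_of_nonneg_left hsc (by positivity)
    _ = (8575 * (M / θ)) * wt R (z - x) := by ring
    _ ≤ (10 ^ 4 * (M / θ)) * wt R (z - x) := by
        apply mul_le_mul_of_nonneg_right _ hw0
        have : 0 ≤ M / θ := by positivity
        linarith
    _ = 10 ^ 4 * M / θ * wt R (z - x) := by ring

end Pool.Agent.SV
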