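import Pool.Agent.Helper53.AC.Defs
import Pool.Agent.Helper53.CAC.Exterior

/-!
# Module C1: algebra of the coefficients at infinity
-/

set_option autoImplicit false

open Complex Filter Topology Metric
open scoped ComplexConjugate

namespace Pool.Agent.SV

open Pool.Agent.Helper53.CAC

/-- `(z - x) * f z` has the same limit as `z * f z` when `f` tends to zero. -/
theorem Coef.ca' {f : ℂ → ℂ} {x a b : ℂ} (h : Coef f x a b) (y : ℂ) :
    Tendsto (fun z => (z - y) * f z) (cocompact ℂ) (𝓝 a) := by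
  have h1 : Tendsto (fun z => z * f z - y * f z) (cocompact ℂ) (𝓝 (a - y * 0)) :=
    h.ca.sub (tendsto_const_nhds.mul h.zero)
  rw [mul_zero, sub_zero] at h1
  exact h1.congr fun z => by ring

theorem Coef.add {f g : ℂ → ℂ} {x a b a' b' : ℂ} (h : Coef f x a b) (h' : Coef g x a' b') :
    Coef (fun z => f z + g z) x (a + a') (b + b') where
  zero := by
    have := h.zero.add h'.zero
    rwa [add_zero] at this
  ca := (h.ca.add h'.ca).congr fun z => by ring
  cb := (h.cb.add h'.cb).congr fun z => by ring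

theorem Coef.const_mul {f : ℂ → ℂ} {x a b : ℂ} (t : ℂ) (h : Coef f x a b) :
    Coef (fun z => t * f z) x (t * a) (t * b) where
  zero := by
    have := h.zero.const_mul t
    rwa [mul_zero] at this
  ca := (h.ca.const_mul t).congr fun z => by ring
  cb := (h.cb.const_mul t).congr fun z => by ring

theorem Coef.sub {f g : ℂ → ℂ} {x a b a' b' : ℂ} (h : Coef f x a b) (h' : Coef g x a' b') :
    Coef (fun z => f z - g z) x (a - a') (b - b') where
  zero := by
    have := h.zero.sub h'.zero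
    rwa [sub_zero] at this
  ca := (h.ca.sub h'.ca).congr fun z => by ring
  cb := (h.cb.sub h'.cb).congr fun z => by ring

theorem Coef.sum {ι : Type*} (s : Finset ι) {f : ι → ℂ → ℂ} {x : ℂ} {a b : ι → ℂ}
    (h : ∀ i ∈ s, Coef (f i) x (a i) (b i)) :
    Coef (fun z => ∑ i ∈ s, f i z) x (∑ i ∈ s, a i) (∑ i ∈ s, b i) := by
  classical
  induction s using Finset.induction_on with
  | empty =>
    simp only [Finset.sum_empty]
    exact ⟨tendsto_const_nhds, by simp, by simp⟩
  | insert i s hi ih =>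
    have h1 := (h i (Finset.mem_insert_self i s)).add
      (ih fun j hj => h j (Finset.mem_insert_of_mem hj))
    simp only [Finset.sum_insert hi]
    exact h1

theorem Coef.recenter {f : ℂ → ℂ} {x a b : ℂ} (h : Coef f x a b) (y : ℂ) :
    Coef f y a (b + (x - y) * a) where
  zero := h.zero
  ca := h.ca
  cb := by
    have h1 : Tendsto (fun z => (z - x) * ((z - x) * f z - a) + (x - y) * ((z - x) * f z) +
        ((x - y) * ((z - x) * f z - a) + (x - y) ^ 2 * f z)) (cocompact ℂ)
        (𝓝 (b + (x - y) * a + ((x - y) * (a - a) + (x - y) ^ 2 * 0))) :=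
      (h.cb.add ((h.ca' x).const_mul (x - y))).add
        ((((h.ca' x).sub tendsto_const_nhds).const_mul (x - y)).add (h.zero.const_mul _))
    rw [sub_self, mul_zero, mul_zero, add_zero, add_zero] at h1
    exact h1.congr fun z => by ring

theorem Coef.unique {f : ℂ → ℂ} {x a b a' b' : ℂ} (h : Coef f x a b) (h' : Coef f x a' b') :
    a = a' ∧ b = b' := by
  have h1 : a = a' := tendsto_nhds_unique h.ca h'.ca
  subst h1
  exact ⟨rfl, tendsto_nhds_unique h.cb h'.cb⟩

theorem Coef.sq {f : ℂ → ℂ} {x a b : ℂ} (h : Coef f x a b) :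
    Coef (fun z => f z * f z) x 0 (a ^ 2) where
  zero := by
    have := h.zero.mul h.zero
    rwa [mul_zero] at this
  ca := by
    have := h.ca.mul h.zero
    rw [mul_zero] at this
    exact this.congr fun z => by ring
  cb := by
    have := (h.ca' x).mul (h.ca' x)
    rw [← pow_two] at this
    exact this.congr fun z => by ring

/-- A function holomorphic near infinity with limit `h` has a first coefficient. -/
theorem exists_coeff_inf {Q : ℂ → ℂ} {h : ℂ} {N : ℝ} (hN : 0 < N)
    (hQ : DifferentiableOn ℂ Q {z | N < ‖z‖}) (hlim : Tendsto Q (cocompact ℂ) (𝓝 h)) :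
    ∃ c : ℂ, Tendsto (fun z => z * (Q z - h)) (cocompact ℂ) (𝓝 c) := by
  have hd := inv_ext hN hQ hlim
  set φ := Function.update (fun ζ => Q ζ⁻¹) 0 h with hφ
  have hb : ball (0 : ℂ) N⁻¹ ∈ 𝓝 (0 : ℂ) := ball_mem_nhds _ (inv_pos.mpr hN)
  have hda : DifferentiableAt ℂ φ 0 :=
    hd.differentiableAt hb
  have hsl := hasDerivAt_iff_tendsto_slope.mp hda.hasDerivAt
  refine ⟨deriv φ 0, ?_⟩
  have h2 : ∀ᶠ z : ℂ in cocompact ℂ, z ≠ 0 := by
    filter_upwards [(isCompact_singleton (x := (0 : ℂ))).compl_mem_cocompact] with z hz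
    exact hz
  have h1 : Tendsto (fun z : ℂ => z⁻¹) (cocompact ℂ) (𝓝[≠] 0) := by
    rw [tendsto_nhdsWithin_iff]
    constructor
    · rw [← Metric.cobounded_eq_cocompact]
      exact tendsto_inv₀_cobounded
    · filter_upwards [h2] with z hz
      exact inv_ne_zero hz
  refine (hsl.comp h1).congr' ?_
  filter_upwards [h2] with z hz
  simp only [Function.comp, slope, vsub_eq_sub, sub_zero, inv_inv, smul_eq_mul]
  rw [hφ, Function.update_of_ne (inv_ne_zero hz), Function.update_self, inv_inv]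

set_option linter.unusedVariables false in
theorem Coef.exists_of {f : ℂ → ℂ} {x : ℂ} {R M : ℝ}
    (hf : DifferentiableOn ℂ f {z | R < ‖z - x‖}) (hb : ∀ z, R < ‖z - x‖ → ‖f z‖ ≤ M)
    (h0 : Tendsto f (cocompact ℂ) (𝓝 0)) : ∃ a b : ℂ, Coef f x a b := by
  set N : ℝ := max 1 (R + ‖x‖) with hNdef
  have hN : 0 < N := lt_of_lt_of_le one_pos (le_max_left _ _)
  have hsub : {z : ℂ | N < ‖z‖} ⊆ {z | R < ‖z - x‖} := by
    intro z hz
    have hz' : N < ‖z‖ := hz
    have h1 : R + ‖x‖ ≤ N := le_max_right _ _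
    have h2 : ‖z‖ ≤ ‖z - x‖ + ‖x‖ := by
      calc ‖z‖ = ‖(z - x) + x‖ := by rw [sub_add_cancel]
        _ ≤ ‖z - x‖ + ‖x‖ := norm_add_le _ _
    change R < ‖z - x‖
    linarith
  obtain ⟨a, ha⟩ := exists_coeff_inf hN (hf.mono hsub) h0
  have ha1 : Tendsto (fun z => z * f z) (cocompact ℂ) (𝓝 a) := ha.congr fun z => by ring
  have ha2 : Tendsto (fun z => (z - x) * f z) (cocompact ℂ) (𝓝 a) := by
    have h1 : Tendsto (fun z => z * f z - x * f z) (cocompact ℂ) (𝓝 (a - x * 0)) :=
      ha1.sub (tendsto_const_nhds.mul h0)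
    rw [mul_zero, sub_zero] at h1
    exact h1.congr fun z => by ring
  have hd2 : DifferentiableOn ℂ (fun z => (z - x) * f z) {z | N < ‖z‖} :=
    (differentiableOn_id.sub_const x).mul (hf.mono hsub)
  obtain ⟨b, hb⟩ := exists_coeff_inf hN hd2 ha2
  refine ⟨a, b, h0, ha1, ?_⟩
  have h1 : Tendsto (fun z => z * ((z - x) * f z - a) - x * ((z - x) * f z - a)) (cocompact ℂ)
      (𝓝 (b - x * (a - a))) :=
    hb.sub ((ha2.sub tendsto_const_nhds).const_mul x)
  rw [sub_self, mul_zero, sub_zero] at h1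
  exact h1.congr fun z => by ring

theorem AF.add {P : Set ℂ} {f g : ℂ → ℂ} {x a b a' b' : ℂ} (h : AF P x f a b)
    (h' : AF P x g a' b') : AF P x (fun z => f z + g z) (a + a') (b + b') :=
  ⟨h.cont.add h'.cont, h.holo.add h'.holo, h.coef.add h'.coef⟩

theorem AF.sub {P : Set ℂ} {f g : ℂ → ℂ} {x a b a' b' : ℂ} (h : AF P x f a b)
    (h' : AF P x g a' b') : AF P x (fun z => f z - g z) (a - a') (b - b') :=
  ⟨h.cont.sub h'.cont, h.holo.sub h'.holo, h.coef.sub h'.coef⟩

theorem AF.const_mul {P : Set ℂ} {f : ℂ → ℂ} {x a b : ℂ} (t : ℂ) (h : AF P x f a b) :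
    AF P x (fun z => t * f z) (t * a) (t * b) :=
  ⟨continuous_const.mul h.cont, h.holo.const_mul t, h.coef.const_mul t⟩

theorem AF.recenter {P : Set ℂ} {f : ℂ → ℂ} {x a b : ℂ} (h : AF P x f a b) (y : ℂ) :
    AF P y f a (b + (x - y) * a) := ⟨h.cont, h.holo, h.coef.recenter y⟩

theorem AF.mono {P Q : Set ℂ} {f : ℂ → ℂ} {x a b : ℂ} (h : AF P x f a b) (hPQ : P ⊆ Q) :
    AF Q x f a b := ⟨h.cont, h.holo.mono (Set.compl_subset_compl.2 hPQ), h.coef⟩

end Pool.Agent.SV
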