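import Pool.Agent.Helper53.AC.Defs

/-!
# L0: the integral of the inverse distance over a disc
-/

set_option autoImplicit false

open Complex Filter Topology Metric MeasureTheory Set

namespace Pool.Agent.SV

open Pool.Agent.Helper53.CAC

theorem l0_fun (r : ℝ) : EqOn (fun y : ℝ => y ^ (Module.finrank ℝ ℂ - 1) •
    (Iic r).indicator (fun y : ℝ => y⁻¹) y) ((Iic r).indicator (fun _ => (1 : ℝ))) (Ioi 0) := by
  intro y hy
  have hy' : (0 : ℝ) < y := hy
  simp only [Complex.finrank_real_complex, Nat.add_one_sub_one, pow_one, smul_eq_mul]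
  by_cases h : y ∈ Iic r
  · rw [indicator_of_mem h, indicator_of_mem h, mul_inv_cancel₀ hy'.ne']
  · rw [indicator_of_notMem h, indicator_of_notMem h, mul_zero]

theorem l0_integrable (r : ℝ) :
    Integrable (fun x : ℂ => (Iic r).indicator (fun y : ℝ => y⁻¹) ‖x‖) := by
  rw [integrable_fun_norm_addHaar volume (f := (Iic r).indicator (fun y : ℝ => y⁻¹))]
  rw [integrableOn_congr_fun (l0_fun r) measurableSet_Ioi,
    ← integrable_indicator_iff measurableSet_Ioi, indicator_indicator,
    integrable_indicator_iff (measurableSet_Ioi.inter measurableSet_Iic)]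
  refine integrableOn_const (ne_of_lt ?_)
  have : Ioi (0 : ℝ) ∩ Iic r = Ioc 0 r := rfl
  rw [this, Real.volume_Ioc]
  exact ENNReal.ofReal_lt_top

theorem l0_integral {r : ℝ} (hr : 0 < r) :
    ∫ x : ℂ, (Iic r).indicator (fun y : ℝ => y⁻¹) ‖x‖ = 2 * Real.pi * r := by
  rw [integral_fun_norm_addHaar volume (f := (Iic r).indicator (fun y : ℝ => y⁻¹)),
    setIntegral_congr_fun measurableSet_Ioi (l0_fun r), Complex.finrank_real_complex,
    setIntegral_indicator measurableSet_Iic]
  have h1 : Ioi (0 : ℝ) ∩ Iic r = Ioc 0 r := rfl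
  have h2 : volume.real (ball (0 : ℂ) 1) = Real.pi := by
    rw [Measure.real, Complex.volume_ball]
    simp
  rw [h1, h2, setIntegral_const, Measure.real, Real.volume_Ioc,
    ENNReal.toReal_ofReal (by linarith)]
  simp only [nsmul_eq_mul, smul_eq_mul]
  push_cast
  ring

theorem l0_ind (z : ℂ) (r : ℝ) (ζ : ℂ) : (closedBall z r).indicator (fun ζ : ℂ => ‖z - ζ‖⁻¹) ζ =
    (Iic r).indicator (fun y : ℝ => y⁻¹) ‖z - ζ‖ := by
  by_cases h : ζ ∈ closedBall z r
  · have h' : ‖z - ζ‖ ∈ Iic r := by
      rw [mem_closedBall, dist_comm, dist_eq_norm] at h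
      exact h
    rw [indicator_of_mem h, indicator_of_mem h']
  · have h' : ‖z - ζ‖ ∉ Iic r := by
      intro h2
      apply h
      rw [mem_closedBall, dist_comm, dist_eq_norm]
      exact h2
    rw [indicator_of_notMem h, indicator_of_notMem h']

theorem l0_self_integrableOn (z : ℂ) (r : ℝ) :
    IntegrableOn (fun ζ : ℂ => ‖z - ζ‖⁻¹) (closedBall z r) := by
  rw [← integrable_indicator_iff measurableSet_closedBall]
  have h := (l0_integrable r).comp_sub_left z
  refine h.congr (Eventually.of_forall fun ζ => ?_)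
  exact (l0_ind z r ζ).symm

theorem l0_self_integral (z : ℂ) {r : ℝ} (hr : 0 < r) :
    ∫ ζ in closedBall z r, ‖z - ζ‖⁻¹ = 2 * Real.pi * r := by
  rw [← integral_indicator measurableSet_closedBall, ← l0_integral hr,
    ← integral_sub_left_eq_self (fun x : ℂ => (Iic r).indicator (fun y : ℝ => y⁻¹) ‖x‖) volume z]
  exact integral_congr_ae (Eventually.of_forall fun ζ => l0_ind z r ζ)

theorem inv_ball_integral (z c : ℂ) {t : ℝ} (ht : 0 < t) :
    MeasureTheory.IntegrableOn (fun ζ : ℂ => ‖z - ζ‖⁻¹) (closedBall c t) ∧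
      ∫ ζ in closedBall c t, ‖z - ζ‖⁻¹ ≤ 2 * Real.pi * t := by
  have hI : IntegrableOn (fun ζ : ℂ => ‖z - ζ‖⁻¹) (closedBall c t) := by
    refine (l0_self_integrableOn z (t + dist c z)).mono_set ?_
    exact closedBall_subset_closedBall' le_rfl
  refine ⟨hI, ?_⟩
  set A := closedBall c t with hA
  set B := closedBall z t with hB
  set f : ℂ → ℝ := fun ζ => ‖z - ζ‖⁻¹ with hf
  have mA : MeasurableSet A := measurableSet_closedBall
  have mB : MeasurableSet B := measurableSet_closedBall
  have hIB : IntegrableOn f B := l0_self_integrableOn z t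
  have e1 : ∫ ζ in A, f ζ = (∫ ζ in A ∩ B, f ζ) + ∫ ζ in A \ B, f ζ :=
    (integral_inter_add_sdiff mB hI).symm
  have e2 : ∫ ζ in B, f ζ = (∫ ζ in B ∩ A, f ζ) + ∫ ζ in B \ A, f ζ :=
    (integral_inter_add_sdiff mA hIB).symm
  have fA : volume A ≠ ⊤ := (isCompact_closedBall c t).measure_lt_top.ne
  have fB : volume B ≠ ⊤ := (isCompact_closedBall z t).measure_lt_top.ne
  have vAB : volume.real A = volume.real B := by
    rw [Measure.real, Measure.real, hA, hB, Complex.volume_closedBall, Complex.volume_closedBall]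
  have v1 : volume.real A = volume.real (A ∩ B) + volume.real (A \ B) :=
    (measureReal_inter_add_sdiff mB fA).symm
  have v2 : volume.real B = volume.real (B ∩ A) + volume.real (B \ A) :=
    (measureReal_inter_add_sdiff mA fB).symm
  have v3 : volume.real (A \ B) = volume.real (B \ A) := by
    rw [inter_comm] at v2
    linarith
  have u1 : ∫ ζ in A \ B, f ζ ≤ ∫ ζ in A \ B, t⁻¹ := by
    refine setIntegral_mono_on (hI.mono_set sdiff_subset) ?_ (mA.diff mB) ?_
    · exact integrableOn_const (ne_top_of_le_ne_top fA (measure_mono sdiff_subset))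
    · intro ζ hζ
      have : t < ‖z - ζ‖ := by
        by_contra hcon
        push Not at hcon
        apply hζ.2
        rw [hB, mem_closedBall, dist_comm, dist_eq_norm]
        exact hcon
      exact inv_anti₀ ht this.le
  have u2 : ∫ ζ in B \ A, t⁻¹ ≤ ∫ ζ in B \ A, f ζ := by
    refine setIntegral_mono_ae_restrict ?_ (hIB.mono_set sdiff_subset) ?_
    · exact integrableOn_const (ne_top_of_le_ne_top fB (measure_mono sdiff_subset))
    · have h0 : ∀ᵐ ζ : ℂ, ζ ≠ z := by
        rw [ae_iff]
        simp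
      refine (ae_restrict_iff' (mB.diff mA)).2 ?_
      filter_upwards [h0] with ζ h0 hζ
      have h1 : ‖z - ζ‖ ≤ t := by
        have := hζ.1
        rw [hB, mem_closedBall, dist_comm, dist_eq_norm] at this
        exact this
      have h2 : 0 < ‖z - ζ‖ := norm_pos_iff.2 (sub_ne_zero.2 h0.symm)
      exact inv_anti₀ h2 h1
  rw [setIntegral_const] at u1 u2
  rw [v3] at u1
  have e3 := l0_self_integral z ht
  rw [← hB] at e3
  rw [inter_comm] at e2
  have : ∫ ζ in B, f ζ = 2 * Real.pi * t := e3
  linarith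

end Pool.Agent.SV
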