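import Pool.Agent.Helper53.AC.Defs
import Pool.Agent.Helper9.KA.CT

/-!
# SV-L1a: regularity of the localisation operator
-/

set_option autoImplicit false

open Complex Filter Topology Metric MeasureTheory
open scoped ComplexConjugate

namespace Pool.Agent.SV

/-- the potential of `g` -/
noncomputable def l1a_ptl (g : ℂ → ℂ) (z : ℂ) : ℂ := ∫ ζ, g ζ / (ζ - z)

theorem l1a_ptl_integrable {g : ℂ → ℂ} (hg : Continuous g) (hs : HasCompactSupport g) (z : ℂ) :
    Integrable fun ζ => g ζ / (ζ - z) := by
  have h1 : Integrable (fun t : ℂ => t⁻¹ * g (z - t)) :=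
    hs.convolutionExists_right (ContinuousLinearMap.mul ℝ ℂ)
      Pool.Agent.KA.ct_locallyIntegrable_inv hg z
  have h2 := (h1.comp_sub_left z).neg
  refine h2.congr (Eventually.of_forall fun ζ => ?_)
  have e1 : (ζ - z)⁻¹ = -(z - ζ)⁻¹ := by rw [← neg_sub z ζ, inv_neg]
  simp only [Pi.neg_apply, sub_sub_cancel]
  rw [div_eq_mul_inv, e1]
  ring

theorem l1a_ptl_continuous {g : ℂ → ℂ} (hg : Continuous g) (hs : HasCompactSupport g) :
    Continuous (l1a_ptl g) := by
  have h1 : Continuous (MeasureTheory.convolution (fun t : ℂ => t⁻¹) g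
      (ContinuousLinearMap.mul ℝ ℂ) volume) :=
    hs.continuous_convolution_right (ContinuousLinearMap.mul ℝ ℂ)
      Pool.Agent.KA.ct_locallyIntegrable_inv hg
  have h2 : l1a_ptl g = fun z => -(MeasureTheory.convolution (fun t : ℂ => t⁻¹) g
      (ContinuousLinearMap.mul ℝ ℂ) volume z) := by
    funext z
    have e0 : MeasureTheory.convolution (fun t : ℂ => t⁻¹) g
      (ContinuousLinearMap.mul ℝ ℂ) volume z = ∫ t, t⁻¹ * g (z - t) := rfl
    rw [e0, ← integral_sub_left_eq_self _ volume z, ← integral_neg]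
    unfold l1a_ptl
    refine integral_congr_ae (Eventually.of_forall fun ζ => ?_)
    have e1 : (ζ - z)⁻¹ = -(z - ζ)⁻¹ := by rw [← neg_sub z ζ, inv_neg]
    simp only [sub_sub_cancel]
    rw [div_eq_mul_inv, e1]
    ring
  rw [h2]
  exact h1.neg

theorem l1a_ptl_tendsto {g : ℂ → ℂ} (hg : Continuous g) (hs : HasCompactSupport g) :
    Tendsto (l1a_ptl g) (cocompact ℂ) (𝓝 0) := by
  obtain ⟨R, hR⟩ := hs.isCompact.isBounded.subset_closedBall (0 : ℂ)
  have hgi : Integrable g := hg.integrable_of_hasCompactSupport hs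
  have h1 : ∀ z : ℂ, R < ‖z‖ → ‖l1a_ptl g z‖ ≤ (∫ ζ, ‖g ζ‖) * (‖z‖ - R)⁻¹ := by
    intro z hz
    have hz0 : 0 < ‖z‖ - R := by linarith
    rw [← integral_mul_const]
    refine norm_integral_le_of_norm_le (hgi.norm.mul_const _) (Eventually.of_forall fun ζ => ?_)
    rw [norm_div, div_eq_mul_inv]
    by_cases hζ : ζ ∈ tsupport g
    · have h2 := hR hζ
      rw [mem_closedBall_zero_iff] at h2
      have h3 : ‖z‖ ≤ ‖ζ - z‖ + ‖ζ‖ := by
        have := norm_sub_le ζ (ζ - z)
        rw [sub_sub_cancel] at this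
        linarith
      exact mul_le_mul_of_nonneg_left (inv_anti₀ hz0 (by linarith)) (norm_nonneg _)
    · rw [image_eq_zero_of_notMem_tsupport hζ, norm_zero, zero_mul, zero_mul]
  rw [tendsto_zero_iff_norm_tendsto_zero]
  have h2 : Tendsto (fun z : ℂ => (∫ ζ, ‖g ζ‖) * (‖z‖ - R)⁻¹) (cocompact ℂ)
      (𝓝 ((∫ ζ, ‖g ζ‖) * 0)) := by
    refine Tendsto.const_mul _ (tendsto_inv_atTop_zero.comp ?_)
    exact tendsto_atTop_add_const_right _ _ tendsto_norm_cocompact_atTop
  rw [mul_zero] at h2
  refine squeeze_zero' (Eventually.of_forall fun z => norm_nonneg _) ?_ h2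
  have h3 : ∀ᶠ z : ℂ in cocompact ℂ, R < ‖z‖ :=
    tendsto_norm_cocompact_atTop.eventually (eventually_gt_atTop R)
  exact h3.mono fun z hz => h1 z hz

theorem l1a_ptl_differentiableAt {g : ℂ → ℂ} (hg : Continuous g) (hs : HasCompactSupport g) {z : ℂ}
    (hz : z ∉ tsupport g) : DifferentiableAt ℂ (l1a_ptl g) z := by
  obtain ⟨δ, hδ, hb⟩ := Metric.isOpen_iff.1 (isClosed_tsupport g).isOpen_compl z hz
  have hgi : Integrable g := hg.integrable_of_hasCompactSupport hs
  have hd : ∀ w ∈ ball z (δ / 2), ∀ ζ ∈ tsupport g, δ / 2 ≤ ‖ζ - w‖ := by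
    intro w hw ζ hζ
    by_contra hc
    push Not at hc
    refine hb ?_ hζ
    rw [mem_ball, dist_eq_norm] at hw ⊢
    have : ζ - z = (ζ - w) + (w - z) := by ring
    rw [this]
    refine lt_of_le_of_lt (norm_add_le _ _) ?_
    linarith
  have hmeas : ∀ w, AEStronglyMeasurable (fun ζ => g ζ / (ζ - w)) volume := fun w =>
    (l1a_ptl_integrable hg hs w).aestronglyMeasurable
  have key := hasDerivAt_integral_of_dominated_loc_of_deriv_le (μ := (volume : Measure ℂ))
    (F := fun w ζ => g ζ / (ζ - w)) (x₀ := z) (s := ball z (δ / 2))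
    (F' := fun w ζ => g ζ / (ζ - w) ^ 2) (bound := fun ζ => ‖g ζ‖ * ((δ / 2) ^ 2)⁻¹)
    (ball_mem_nhds z (by positivity)) (Eventually.of_forall hmeas) (l1a_ptl_integrable hg hs z)
    ?_ ?_ (hgi.norm.mul_const _) ?_
  · exact key.2.differentiableAt
  · refine (hg.measurable.div ?_).aestronglyMeasurable
    fun_prop
  · refine Eventually.of_forall fun ζ w hw => ?_
    rw [norm_div, div_eq_mul_inv]
    by_cases hζ : ζ ∈ tsupport g
    · refine mul_le_mul_of_nonneg_left (inv_anti₀ (by positivity) ?_) (norm_nonneg _)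
      rw [norm_pow]
      exact pow_le_pow_left₀ (by positivity) (hd w hw ζ hζ) 2
    · rw [image_eq_zero_of_notMem_tsupport hζ, norm_zero, zero_mul, zero_mul]
  · refine Eventually.of_forall fun ζ w hw => ?_
    by_cases hζ : ζ ∈ tsupport g
    · have h1 : ζ - w ≠ 0 := by
        intro h0
        have := hd w hw ζ hζ
        rw [h0, norm_zero] at this
        linarith
      have h2 : HasDerivAt (fun w => ζ - w) (-1) w := by
        simpa using (hasDerivAt_id w).const_sub ζ
      have h3 := (hasDerivAt_const w (g ζ)).div h2 h1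
      refine h3.congr_deriv ?_
      ring
    · simp only [image_eq_zero_of_notMem_tsupport hζ, zero_div]
      exact hasDerivAt_const _ _

theorem l1a_dbarR_continuous {φ : ℂ → ℝ} (hφ : ContDiff ℝ (⊤ : ℕ∞) φ) : Continuous (dbarR φ) := by
  have h1 : Continuous (fderiv ℝ φ) := hφ.continuous_fderiv (by simp)
  unfold dbarR
  have h2 : ∀ v : ℂ, Continuous fun z => fderiv ℝ φ z v := fun v => h1.clm_apply continuous_const
  exact ((continuous_ofReal.comp (h2 1)).add
    (continuous_const.mul (continuous_ofReal.comp (h2 I)))).div_const _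

theorem l1a_dbarR_zero {φ : ℂ → ℝ} {z : ℂ} (hz : z ∉ tsupport φ) : dbarR φ z = 0 := by
  rw [notMem_tsupport_iff_eventuallyEq] at hz
  unfold dbarR
  rw [hz.fderiv_eq]
  have : fderiv ℝ (0 : ℂ → ℝ) z = 0 := (hasFDerivAt_const (0 : ℝ) z).fderiv
  rw [this]
  simp

theorem loc_reg {φ : ℂ → ℝ} {f : ℂ → ℂ} {K : Set ℂ} {x : ℂ} {R : ℝ}
    (hφ : ContDiff ℝ (⊤ : ℕ∞) φ) (hs : tsupport φ ⊆ closedBall x R) (hf : Continuous f)
    (hK : IsCompact K) (hfK : DifferentiableOn ℂ f Kᶜ) :
    Continuous (loc φ f) ∧ DifferentiableOn ℂ (loc φ f) (K ∩ closedBall x R)ᶜ ∧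
      Tendsto (loc φ f) (cocompact ℂ) (𝓝 0) := by
  set g : ℂ → ℂ := fun ζ => f ζ * dbarR φ ζ with hgdef
  have hg : Continuous g := hf.mul (l1a_dbarR_continuous hφ)
  have hφs : HasCompactSupport φ :=
    (isCompact_closedBall x R).of_isClosed_subset isClosed_closure hs
  have hgz : ∀ z, z ∉ tsupport φ → g z = 0 := fun z hz => by
    simp only [hgdef, l1a_dbarR_zero hz, mul_zero]
  have hgs : HasCompactSupport g := by
    refine HasCompactSupport.intro hφs.isCompact ?_
    exact hgz
  have hgt : tsupport g ⊆ tsupport φ := by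
    refine closure_minimal ?_ (isClosed_tsupport φ)
    intro z hz
    by_contra h
    exact hz (hgz z h)
  have hloc : loc φ f = fun z => φ z * f z + (Real.pi : ℂ)⁻¹ * l1a_ptl g z := rfl
  have hφc : Continuous fun z => (φ z : ℂ) := continuous_ofReal.comp hφ.continuous
  have hcl : Continuous (loc φ f) := by
    rw [hloc]
    exact (hφc.mul hf).add (continuous_const.mul (l1a_ptl_continuous hg hgs))
  refine ⟨hcl, ?_, ?_⟩
  · intro z hz
    refine DifferentiableAt.differentiableWithinAt ?_
    rw [Set.compl_inter, Set.mem_union] at hz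
    rcases hz.symm with hz | hz
    · have h1 : z ∉ tsupport φ := fun h => hz (hs h)
      have h2 : loc φ f =ᶠ[𝓝 z] fun w => (Real.pi : ℂ)⁻¹ * l1a_ptl g w := by
        rw [notMem_tsupport_iff_eventuallyEq] at h1
        filter_upwards [h1] with w hw
        rw [hloc]
        simp only [hw, Pi.zero_apply, ofReal_zero, zero_mul, zero_add]
      rw [h2.differentiableAt_iff]
      exact (l1a_ptl_differentiableAt hg hgs fun h => h1 (hgt h)).const_mul _
    · obtain ⟨δ, hδ, hb⟩ := Metric.isOpen_iff.1 hK.isClosed.isOpen_compl z hz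
      set ψ : ContDiffBump z := ⟨δ / 4, δ / 2, by positivity, by linarith⟩ with hψ
      have hψs : tsupport (ψ : ℂ → ℝ) = closedBall z (δ / 2) := ψ.tsupport_eq
      set h : ℂ → ℂ := fun w => (ψ w : ℂ) * (φ w * f w) with hh
      have hhz : ∀ w, w ∉ closedBall z (δ / 2) → h =ᶠ[𝓝 w] 0 := by
        intro w hw
        rw [← hψs, notMem_tsupport_iff_eventuallyEq] at hw
        filter_upwards [hw] with u hu
        simp only [hh, hu, Pi.zero_apply, ofReal_zero, zero_mul]
      have hhs : HasCompactSupport h := by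
        refine HasCompactSupport.intro (isCompact_closedBall z (δ / 2)) fun w hw => ?_
        exact (hhz w hw).self_of_nhds
      have hhc : ContDiff ℝ 1 h := by
        rw [contDiff_iff_contDiffAt]
        intro w
        by_cases hw : w ∈ closedBall z (δ / 2)
        · have hwK : w ∈ Kᶜ := by
            refine hb ?_
            rw [mem_closedBall] at hw
            rw [mem_ball]
            linarith
          have hfw : ContDiffAt ℝ 1 f w :=
            ((hfK.contDiffOn hK.isClosed.isOpen_compl).contDiffAt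
              (hK.isClosed.isOpen_compl.mem_nhds hwK)).restrict_scalars ℝ
          have h1 : ContDiffAt ℝ 1 (fun w => (φ w : ℂ)) w :=
            (ofRealCLM.contDiff.comp (hφ.of_le (by norm_cast))).contDiffAt
          have h2 : ContDiffAt ℝ 1 (fun w => (ψ w : ℂ)) w :=
            (ofRealCLM.contDiff.comp ψ.contDiff).contDiffAt
          exact h2.mul (h1.mul hfw)
        · exact contDiffAt_const.congr_of_eventuallyEq (hhz w hw)
      have hdc : Continuous (Pool.Agent.EN.dzbar h) := by
        have hcf : Continuous (fderiv ℝ h) := hhc.continuous_fderiv (by norm_num)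
        unfold Pool.Agent.EN.dzbar
        exact ((hcf.clm_apply continuous_const).add
          (continuous_const.mul (hcf.clm_apply continuous_const))).div_const _
      have hdz : ∀ w, w ∉ closedBall z (δ / 2) → Pool.Agent.EN.dzbar h w = 0 := by
        intro w hw
        unfold Pool.Agent.EN.dzbar
        rw [(hhz w hw).fderiv_eq]
        have : fderiv ℝ (0 : ℂ → ℂ) w = 0 := (hasFDerivAt_const (0 : ℂ) w).fderiv
        rw [this]
        simp
      have hds : HasCompactSupport (Pool.Agent.EN.dzbar h) :=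
        HasCompactSupport.intro (isCompact_closedBall z (δ / 2)) hdz
      set g' : ℂ → ℂ := fun w => g w - Pool.Agent.EN.dzbar h w with hg'
      have hg'c : Continuous g' := hg.sub hdc
      have hg's : HasCompactSupport g' := hgs.sub hds
      have hpi : (Real.pi : ℂ) ≠ 0 := by exact_mod_cast Real.pi_pos.ne'
      have hpom : ∀ w, l1a_ptl (Pool.Agent.EN.dzbar h) w = -(Real.pi * h w) := by
        intro w
        rw [← Pool.Agent.EN.pompeiu hhc hhs w, ← integral_neg]
        unfold l1a_ptl
        refine integral_congr_ae (Eventually.of_forall fun ζ => ?_)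
        simp only
        rw [← neg_sub w ζ, div_neg]
      have hsub : ∀ w, l1a_ptl g' w = l1a_ptl g w + Real.pi * h w := by
        intro w
        have e1 : l1a_ptl g' w = l1a_ptl g w - l1a_ptl (Pool.Agent.EN.dzbar h) w := by
          unfold l1a_ptl
          rw [← integral_sub (l1a_ptl_integrable hg hgs w) (l1a_ptl_integrable hdc hds w)]
          refine integral_congr_ae (Eventually.of_forall fun ζ => ?_)
          simp only [hg']
          rw [sub_div]
        rw [e1, hpom]
        ring
      have hnear : ∀ᶠ w in 𝓝 z, ψ w = 1 := by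
        filter_upwards [closedBall_mem_nhds z (show (0 : ℝ) < δ / 4 by positivity)] with w hw
        exact ψ.one_of_mem_closedBall hw
      have hnear2 : ∀ᶠ w in 𝓝 z, h =ᶠ[𝓝 w] fun w => (φ w : ℂ) * f w := by
        filter_upwards [hnear.eventually_nhds] with w hw
        filter_upwards [hw] with u hu
        simp only [hh, hu, ofReal_one, one_mul]
      have hnear3 : ∀ᶠ w in 𝓝 z, g' w = 0 := by
        filter_upwards [hnear2, hK.isClosed.isOpen_compl.mem_nhds hz] with w hw hwK
        have hfd : HasDerivAt f (deriv f w) w :=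
          ((hfK w hwK).differentiableAt (hK.isClosed.isOpen_compl.mem_nhds hwK)).hasDerivAt
        have hfd2 : HasFDerivAt f ((ContinuousLinearMap.toSpanSingleton ℂ (deriv f w)).restrictScalars ℝ) w :=
          hfd.hasFDerivAt.restrictScalars ℝ
        have hφd : HasFDerivAt φ (fderiv ℝ φ w) w :=
          (hφ.differentiable (by simp)).differentiableAt.hasFDerivAt
        have hφd2 : HasFDerivAt (fun w => (φ w : ℂ)) (ofRealCLM.comp (fderiv ℝ φ w)) w :=
          ofRealCLM.hasFDerivAt.comp w hφd
        have hprod := hφd2.mul hfd2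
        have e1 : Pool.Agent.EN.dzbar h w = f w * dbarR φ w := by
          unfold Pool.Agent.EN.dzbar dbarR
          rw [hw.fderiv_eq]
          have e2 : fderiv ℝ (fun w => (φ w : ℂ) * f w) w = _ := hprod.fderiv
          rw [e2]
          simp
          ring_nf
          rw [I_sq]
          ring
        simp only [hg', hgdef, e1, sub_self]
      have hz' : z ∉ tsupport g' := by
        rw [notMem_tsupport_iff_eventuallyEq]
        exact hnear3
      have h2 : loc φ f =ᶠ[𝓝 z] fun w => (Real.pi : ℂ)⁻¹ * l1a_ptl g' w := by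
        filter_upwards [hnear2] with w hw
        rw [hsub, hloc, hw.self_of_nhds]
        simp only
        rw [mul_add, inv_mul_cancel_left₀ hpi]
        ring
      rw [h2.differentiableAt_iff]
      exact (l1a_ptl_differentiableAt hg'c hg's hz').const_mul _
  · have h1 := l1a_ptl_tendsto hg hgs
    have h2 : loc φ f =ᶠ[cocompact ℂ] fun w => (Real.pi : ℂ)⁻¹ * l1a_ptl g w := by
      have h3 : ∀ᶠ w in cocompact ℂ, w ∉ tsupport φ := hφs.isCompact.compl_mem_cocompact
      filter_upwards [h3] with w hw
      rw [hloc]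
      simp only [image_eq_zero_of_notMem_tsupport hw, ofReal_zero, zero_mul, zero_add]
    refine Tendsto.congr' h2.symm ?_
    simpa using h1.const_mul (Real.pi : ℂ)⁻¹

end Pool.Agent.SV
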