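import Pool.Agent.Helper53.AC.Defs
import Pool.Agent.Helper53.SV.H1

/-!
# The part of a function at a disc: coefficients and bounds
-/

set_option autoImplicit false

open Complex Filter Topology Metric
open scoped ComplexConjugate

namespace Pool.Agent.SV

private theorem two_pi_I_ne : (2 * Real.pi * I : ℂ) ≠ 0 := by
  simp [Complex.I_ne_zero, Real.pi_ne_zero]

private theorem norm_two_pi_I_inv : ‖(2 * Real.pi * I : ℂ)⁻¹‖ = (2 * Real.pi)⁻¹ := by
  rw [norm_inv, norm_mul, norm_mul, norm_I, mul_one]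
  simp [abs_of_pos Real.pi_pos]

private theorem sub_ne {p z : ℂ} {t : ℝ} (hz : t < ‖z - p‖) {w : ℂ} (hw : w ∈ sphere p t) :
    z - w ≠ 0 := by
  intro h
  rw [mem_sphere, dist_eq_norm] at hw
  rw [sub_eq_zero.mp h, hw] at hz
  exact lt_irrefl _ hz

private theorem sub_lower {p z : ℂ} {t : ℝ} {w : ℂ} (hw : w ∈ sphere p t) :
    ‖z - p‖ - t ≤ ‖z - w‖ := by
  rw [mem_sphere, dist_eq_norm] at hw
  have h : z - p = (z - w) + (w - p) := by ring
  have := norm_add_le (z - w) (w - p)
  rw [← h, hw] at this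
  linarith

/-- the part is continuous data times the Cauchy kernel: integrability -/
private theorem part_integrable {F : ℂ → ℂ} {p z : ℂ} {t : ℝ} (ht : 0 < t)
    (hF : ContinuousOn F (sphere p t)) (hz : t < ‖z - p‖) :
    CircleIntegrable (fun ζ => F ζ / (z - ζ)) p t := by
  refine ContinuousOn.circleIntegrable ht.le ?_
  exact hF.div (continuousOn_const.sub continuousOn_id) fun w hw => sub_ne hz hw

/-- the general bound -/
private theorem part_bound {F : ℂ → ℂ} {p z : ℂ} {t M : ℝ} (ht : 0 < t)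
    (hb : ∀ ζ ∈ sphere p t, ‖F ζ‖ ≤ M) (hz : t < ‖z - p‖) :
    ‖part F p t z‖ ≤ t * M / (‖z - p‖ - t) := by
  have h0 : 0 < ‖z - p‖ - t := by linarith
  have hM : 0 ≤ M := by
    obtain ⟨w, hw⟩ : (sphere p t).Nonempty := NormedSpace.sphere_nonempty.mpr ht.le
    exact (norm_nonneg _).trans (hb w hw)
  have h1 : ‖∮ ζ in C(p, t), F ζ / (z - ζ)‖ ≤ 2 * Real.pi * t * (M / (‖z - p‖ - t)) := by
    refine circleIntegral.norm_integral_le_of_norm_le_const ht.le fun w hw => ?_
    rw [norm_div]
    exact div_le_div₀ hM (hb w hw) h0 (sub_lower hw)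
  rw [part, norm_mul, norm_two_pi_I_inv]
  calc (2 * Real.pi)⁻¹ * ‖∮ ζ in C(p, t), F ζ / (z - ζ)‖
      ≤ (2 * Real.pi)⁻¹ * (2 * Real.pi * t * (M / (‖z - p‖ - t))) := by gcongr
    _ = t * M / (‖z - p‖ - t) := by
        have := Real.pi_ne_zero
        field_simp

/-- the recursion -/
private theorem part_rec {F : ℂ → ℂ} {p z : ℂ} {t : ℝ} (ht : 0 < t)
    (hF : ContinuousOn F (sphere p t)) (c : ℂ) (hz : t < ‖z - p‖) :
    (z - c) * part F p t z = pA F p t + part (fun ζ => F ζ * (ζ - c)) p t z := by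
  have hG : ContinuousOn (fun ζ => F ζ * (ζ - c)) (sphere p t) :=
    hF.mul (continuousOn_id.sub continuousOn_const)
  rw [part, pA, part, ← mul_add, ← circleIntegral.integral_add (hF.circleIntegrable ht.le)
    (part_integrable ht hG hz), mul_left_comm, ← circleIntegral.integral_const_mul]
  congr 1
  refine circleIntegral.integral_congr ht.le fun w hw => ?_
  have := sub_ne hz hw
  field_simp
  ring

private theorem tendsto_norm_sub (p : ℂ) :
    Tendsto (fun z : ℂ => ‖z - p‖) (cocompact ℂ) atTop := by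
  have hn : Tendsto (fun z : ℂ => ‖z‖) (cocompact ℂ) atTop := tendsto_norm_cocompact_atTop
  refine tendsto_atTop_mono (fun z => ?_) (tendsto_atTop_add_const_right _ (-‖p‖) hn)
  have := norm_sub_norm_le z p
  linarith

private theorem part_zero {F : ℂ → ℂ} {p : ℂ} {t : ℝ} (ht : 0 < t)
    (hF : ContinuousOn F (sphere p t)) : Tendsto (part F p t) (cocompact ℂ) (𝓝 0) := by
  obtain ⟨M, hM⟩ := (isCompact_sphere p t).exists_bound_of_continuousOn hF
  have hn := tendsto_norm_sub p
  have h1 : Tendsto (fun z : ℂ => t * M / (‖z - p‖ - t)) (cocompact ℂ) (𝓝 0) :=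
    Tendsto.div_atTop tendsto_const_nhds (tendsto_atTop_add_const_right _ (-t) hn)
  rw [tendsto_zero_iff_norm_tendsto_zero]
  refine squeeze_zero' (Eventually.of_forall fun z => norm_nonneg _) ?_ h1
  filter_upwards [hn.eventually_gt_atTop t] with z hz
  exact part_bound ht hM hz

theorem part_spec {F : ℂ → ℂ} {p : ℂ} {t : ℝ} (ht : 0 < t) (hF : ContinuousOn F (sphere p t))
    (hb : ∀ ζ ∈ sphere p t, ‖F ζ‖ ≤ 1) (c : ℂ) :
    DifferentiableOn ℂ (part F p t) {z | t < ‖z - p‖} ∧
      Coef (part F p t) c (pA F p t) (pB F p t c) ∧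
      (∀ z, 2 * t ≤ ‖z - p‖ → ‖part F p t z‖ ≤ 2 * t / ‖z - p‖) ∧
      ‖pA F p t‖ ≤ t ∧ ‖pB F p t c‖ ≤ t * (‖p - c‖ + t) := by
  have hn := tendsto_norm_sub p
  have hev : ∀ᶠ z : ℂ in cocompact ℂ, t < ‖z - p‖ := hn.eventually_gt_atTop t
  have hG : ContinuousOn (fun ζ => F ζ * (ζ - c)) (sphere p t) :=
    hF.mul (continuousOn_id.sub continuousOn_const)
  have hG2 : ContinuousOn (fun ζ => F ζ * (ζ - c) * (ζ - c)) (sphere p t) :=
    hG.mul (continuousOn_id.sub continuousOn_const)
  have hF0 := part_zero ht hF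
  have hG0 := part_zero ht hG
  have hG20 := part_zero ht hG2
  refine ⟨?_, ⟨hF0, ?_, ?_⟩, ?_, ?_, ?_⟩
  · intro z hz
    have h := (cint_out_diff ht hF hz).const_mul (-(2 * Real.pi * I : ℂ)⁻¹)
    refine (h.congr_of_eventuallyEq ?_).differentiableWithinAt
    refine Eventually.of_forall fun x => ?_
    change part F p t x = -(2 * Real.pi * I : ℂ)⁻¹ * ∮ w in C(p, t), (w - x)⁻¹ * F w
    have e : (∮ w in C(p, t), F w / (x - w)) = ∮ w in C(p, t), (-1 : ℂ) * ((w - x)⁻¹ * F w) := by
      refine circleIntegral.integral_congr ht.le fun w _ => ?_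
      rw [show w - x = -(x - w) by ring, inv_neg, div_eq_inv_mul]
      ring
    rw [part, e, circleIntegral.integral_const_mul]
    ring
  · have h1 : Tendsto (fun z => (pA F p t + part (fun ζ => F ζ * (ζ - c)) p t z)
        + c * part F p t z) (cocompact ℂ) (𝓝 ((pA F p t + 0) + c * 0)) :=
      (tendsto_const_nhds.add hG0).add (tendsto_const_nhds.mul hF0)
    rw [add_zero, mul_zero, add_zero] at h1
    refine h1.congr' ?_
    filter_upwards [hev] with z hz
    rw [← part_rec ht hF c hz]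
    ring
  · have h1 : Tendsto (fun z => pB F p t c + part (fun ζ => F ζ * (ζ - c) * (ζ - c)) p t z)
        (cocompact ℂ) (𝓝 (pB F p t c + 0)) := tendsto_const_nhds.add hG20
    rw [add_zero] at h1
    refine h1.congr' ?_
    filter_upwards [hev] with z hz
    rw [part_rec ht hF c hz, add_sub_cancel_left, part_rec ht hG c hz]
    rfl
  · intro z hz
    have h1 : t < ‖z - p‖ := by linarith
    refine (part_bound ht hb h1).trans ?_
    rw [mul_one, div_le_div_iff₀ (by linarith) (by linarith)]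
    nlinarith
  · rw [pA, norm_mul, norm_two_pi_I_inv]
    calc (2 * Real.pi)⁻¹ * ‖∮ ζ in C(p, t), F ζ‖
        ≤ (2 * Real.pi)⁻¹ * (2 * Real.pi * t * 1) := by
          gcongr
          exact circleIntegral.norm_integral_le_of_norm_le_const ht.le hb
      _ = t := by
          have := Real.pi_ne_zero
          field_simp
  · rw [pB, norm_mul, norm_two_pi_I_inv]
    calc (2 * Real.pi)⁻¹ * ‖∮ ζ in C(p, t), F ζ * (ζ - c)‖
        ≤ (2 * Real.pi)⁻¹ * (2 * Real.pi * t * (‖p - c‖ + t)) := by
          gcongr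
          refine circleIntegral.norm_integral_le_of_norm_le_const ht.le fun w hw => ?_
          rw [norm_mul]
          have h1 : ‖w - c‖ ≤ ‖p - c‖ + t := by
            rw [mem_sphere, dist_eq_norm] at hw
            have h2 : w - c = (p - c) + (w - p) := by ring
            rw [h2, ← hw]
            exact norm_add_le _ _
          calc ‖F w‖ * ‖w - c‖ ≤ 1 * (‖p - c‖ + t) :=
                mul_le_mul (hb w hw) h1 (norm_nonneg _) zero_le_one
            _ = _ := one_mul _
      _ = t * (‖p - c‖ + t) := by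
          have := Real.pi_ne_zero
          field_simp

end Pool.Agent.SV
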