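import Pool.Agent.Helper53.AC.Defs
import Pool.Agent.Helper53.SV.H2

/-!
# SV-B5: a function outside of discs is the sum of its parts
-/

set_option autoImplicit false

open Complex Filter Topology Metric
open scoped ComplexConjugate

namespace Pool.Agent.SV

theorem split_parts {N : ℕ} (c : Config N) {F : ℂ → ℂ} {a : ℂ} (hF : Reg c F 0)
    (ha : Tendsto (fun z => z * F z) (cocompact ℂ) (𝓝 a)) :
    (∀ z ∈ Om c, F z = ∑ k, part F (c.p k) (c.r k) z) ∧ a = ∑ k, pA F (c.p k) (c.r k) := by
  have hpi : (2 * Real.pi * I : ℂ) ≠ 0 := by simp [Complex.I_ne_zero, Real.pi_ne_zero]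
  constructor
  · intro z hz
    have h0 : Reg c (fun _ => (0 : ℂ)) 0 :=
      ⟨differentiableOn_const _, continuousOn_const, tendsto_const_nhds⟩
    have h1 := pair_ker c hF h0 hz
    have h2 : ∀ k, part F (c.p k) (c.r k) z =
        -((2 * Real.pi * I)⁻¹ * ∮ ζ in C(c.p k, c.r k), F ζ * Lf z (fun _ => 0) ζ) := by
      intro k
      unfold part
      have h3 : (∮ ζ in C(c.p k, c.r k), F ζ / (z - ζ)) =
          ∮ ζ in C(c.p k, c.r k), (-1 : ℂ) * (F ζ * Lf z (fun _ => 0) ζ) := by
        refine circleIntegral.integral_congr (c.hr k).le fun ζ _ => ?_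
        simp only [Lf]
        rw [add_zero, div_eq_mul_inv, ← neg_sub ζ z, inv_neg]
        ring
      rw [h3, circleIntegral.integral_const_mul]
      ring
    rw [Finset.sum_congr rfl fun k _ => h2 k, Finset.sum_neg_distrib, ← Finset.mul_sum, h1]
    field_simp
  · have h1 := circ_cauchy c hF.diff hF.cont ha
    have h2 : ∑ k, pA F (c.p k) (c.r k) =
        (2 * Real.pi * I)⁻¹ * ∑ k, ∮ ζ in C(c.p k, c.r k), F ζ := by
      unfold pA
      rw [← Finset.mul_sum]
    rw [h2, h1]
    field_simp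

end Pool.Agent.SV
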