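import Pool.Agent.Helper53.AC.L0
import Pool.Agent.Helper53.SV.D10a

/-!
# B6: potentials of grids
-/

set_option autoImplicit false

open Complex Filter Topology Metric
open scoped ComplexConjugate

namespace Pool.Agent.SV

open MeasureTheory

theorem grid_pot {k : ℕ} (j : Fin k) {c : ℂ} {t h : ℝ} (ht : 0 < t) (hh : 0 < h)
    (J : Finset (Fin k × ℤ × ℤ)) (hJ : ∀ y ∈ J, y.1 = j ∧ ‖gp k h y - c‖ ≤ t) (z : ℂ)
    (hz : ∀ y ∈ J, h / 2 ≤ ‖z - gp k h y‖) :
    ∑ y ∈ J, h ^ 2 / ‖z - gp k h y‖ ≤ 6 * Real.pi * (t + h) := by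
  classical
  set w : ℂ := ⟨h / 2, h / 2⟩ with hw
  have hth : 0 < t + h := by linarith
  obtain ⟨hint, hle⟩ := inv_ball_integral (z + w) (c + w) hth
  have hcell : ∀ y : Fin k × ℤ × ℤ, ∀ ζ ∈ d10cell k h y, ‖ζ - w - gp k h y‖ ≤ h := by
    intro y ζ hζ
    obtain ⟨h1, h2, h3, h4⟩ := hζ
    refine (Complex.norm_le_abs_re_add_abs_im _).trans ?_
    have e1 : |(ζ - w - gp k h y).re| ≤ h / 2 := by
      rw [Complex.sub_re, Complex.sub_re, abs_le]
      have : w.re = h / 2 := rfl
      rw [this]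
      constructor <;> linarith
    have e2 : |(ζ - w - gp k h y).im| ≤ h / 2 := by
      rw [Complex.sub_im, Complex.sub_im, abs_le]
      have : w.im = h / 2 := rfl
      rw [this]
      constructor <;> linarith
    linarith
  have hsub : ∀ y ∈ J, d10cell k h y ⊆ closedBall (c + w) (t + h) := by
    intro y hy ζ hζ
    rw [mem_closedBall, dist_eq_norm]
    have e : ζ - (c + w) = (ζ - w - gp k h y) + (gp k h y - c) := by ring
    rw [e]
    have h1 := hcell y ζ hζ
    have h2 := (hJ y hy).2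
    exact (norm_add_le _ _).trans (by linarith)
  have hone : ∀ y ∈ J, h ^ 2 / ‖z - gp k h y‖ ≤
      3 * ∫ ζ in d10cell k h y, ‖z + w - ζ‖⁻¹ := by
    intro y hy
    have hpos : 0 < ‖z - gp k h y‖ := lt_of_lt_of_le (by positivity) (hz y hy)
    have hfin : volume (d10cell k h y) ≠ ⊤ := by
      rw [d10cell_vol k hh]
      exact ENNReal.ofReal_ne_top
    have hconst : h ^ 2 / ‖z - gp k h y‖ = ∫ _ζ in d10cell k h y, ‖z - gp k h y‖⁻¹ := by
      rw [setIntegral_const, Measure.real, d10cell_vol k hh, ENNReal.toReal_ofReal (by positivity),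
        smul_eq_mul, div_eq_mul_inv]
    rw [hconst, ← integral_const_mul]
    apply integral_mono_ae
    · exact integrableOn_const hfin (by finiteness)
    · exact (hint.mono_set (hsub y hy)).const_mul 3
    · have hne : ∀ᵐ ζ : ℂ ∂(volume.restrict (d10cell k h y)), ζ ≠ z + w := by
        refine ae_restrict_of_ae ?_
        rw [ae_iff]
        simp
      filter_upwards [hne, ae_restrict_mem (d10cell_meas k h y)] with ζ h1 h2
      have h3 : 0 < ‖z + w - ζ‖ := by
        rw [norm_pos_iff, sub_ne_zero]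
        exact h1.symm
      have h4 : ‖z + w - ζ‖ ≤ 3 * ‖z - gp k h y‖ := by
        have e : z + w - ζ = (z - gp k h y) - (ζ - w - gp k h y) := by ring
        rw [e]
        have h5 := hcell y ζ h2
        have h6 := hz y hy
        exact (norm_sub_le _ _).trans (by linarith)
      rw [← div_eq_mul_inv, inv_eq_one_div, div_le_div_iff₀ hpos h3]
      linarith
  have hdisj : (J : Set (Fin k × ℤ × ℤ)).Pairwise (Function.onFun Disjoint (d10cell k h)) := by
    intro x hx y hy hxy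
    have h1 := (hJ x hx).1
    have h2 := (hJ y hy).1
    have h3 : x.2 ≠ y.2 := by
      intro h4
      exact hxy (Prod.ext (h1.trans h2.symm) h4)
    have h5 := d10cell_disj k hh j h3
    rw [Function.onFun] at h5 ⊢
    have e1 : x = (j, x.2) := Prod.ext h1 rfl
    have e2 : y = (j, y.2) := Prod.ext h2 rfl
    rw [e1, e2]
    exact h5
  calc ∑ y ∈ J, h ^ 2 / ‖z - gp k h y‖ ≤ ∑ y ∈ J, 3 * ∫ ζ in d10cell k h y, ‖z + w - ζ‖⁻¹ :=
        Finset.sum_le_sum hone
    _ = 3 * ∑ y ∈ J, ∫ ζ in d10cell k h y, ‖z + w - ζ‖⁻¹ := by rw [Finset.mul_sum]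
    _ = 3 * ∫ ζ in ⋃ y ∈ J, d10cell k h y, ‖z + w - ζ‖⁻¹ := by
        rw [integral_biUnion_finset J (fun y _ => d10cell_meas k h y) hdisj
          (fun y hy => hint.mono_set (hsub y hy))]
    _ ≤ 3 * ∫ ζ in closedBall (c + w) (t + h), ‖z + w - ζ‖⁻¹ := by
        apply mul_le_mul_of_nonneg_left _ (by norm_num)
        apply setIntegral_mono_set hint
        · exact Eventually.of_forall fun ζ => by positivity
        · exact HasSubset.Subset.eventuallyLE (Set.iUnion₂_subset hsub)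
    _ ≤ 3 * (2 * Real.pi * (t + h)) := mul_le_mul_of_nonneg_left hle (by norm_num)
    _ = 6 * Real.pi * (t + h) := by ring

/-- the grid points in a bounded set are finite in number -/
theorem b6_finite (k : ℕ) {h : ℝ} (hh : 0 < h) (R : ℝ) :
    ∃ I : Finset (Fin k × ℤ × ℤ), ∀ x, ‖gp k h x‖ ≤ R → x ∈ I := by
  obtain ⟨N, hN⟩ := exists_nat_ge (R / h + 1)
  refine ⟨Finset.univ ×ˢ (Finset.Icc (-N : ℤ) N ×ˢ Finset.Icc (-N : ℤ) N), fun x hx => ?_⟩
  have hre : |(gp k h x).re| ≤ R := (Complex.abs_re_le_norm _).trans hx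
  have him : |(gp k h x).im| ≤ R := (Complex.abs_im_le_norm _).trans hx
  have hR : R ≤ (N - 1) * h := by
    have : R / h ≤ N - 1 := by linarith
    rwa [div_le_iff₀ hh] at this
  have e1 : (gp k h x).re = h * ((x.2.1 : ℝ) + (x.1 : ℝ) / k) := rfl
  have e2 : (gp k h x).im = h * (x.2.2 : ℝ) := rfl
  have hk : (0 : ℝ) < k := by exact_mod_cast x.1.pos
  have hx1 : (x.1 : ℝ) / k ≤ 1 := by
    rw [div_le_one hk]
    exact_mod_cast x.1.2.le
  have hx0 : 0 ≤ (x.1 : ℝ) / k := by positivity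
  rw [e1, abs_mul, abs_of_pos hh] at hre
  rw [e2, abs_mul, abs_of_pos hh] at him
  have a1 : |(x.2.1 : ℝ) + (x.1 : ℝ) / k| ≤ N - 1 := by
    by_contra hcon
    push Not at hcon
    nlinarith
  have a2 : |(x.2.2 : ℝ)| ≤ N - 1 := by
    by_contra hcon
    push Not at hcon
    nlinarith
  rw [abs_le] at a1 a2
  rw [Finset.mem_product, Finset.mem_product, Finset.mem_Icc, Finset.mem_Icc]
  refine ⟨Finset.mem_univ _, ⟨?_, ?_⟩, ?_, ?_⟩
  · have : (-(N : ℝ)) ≤ (x.2.1 : ℝ) := by linarith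
    exact_mod_cast this
  · have : (x.2.1 : ℝ) ≤ N := by linarith
    exact_mod_cast this
  · have : (-(N : ℝ)) ≤ (x.2.2 : ℝ) := by linarith
    exact_mod_cast this
  · have : (x.2.2 : ℝ) ≤ N := by linarith
    exact_mod_cast this

theorem grid_mass {k : ℕ} (hk : 0 < k) (j : Fin k) {ρ : ℂ → ℝ} (hρ : Continuous ρ)
    (hρ0 : ∀ z, 0 ≤ ρ z) (hρs : HasCompactSupport ρ) {η : ℝ} (hη : 0 < η) :
    ∀ᶠ h : ℝ in 𝓝[>] 0, ∀ J : Finset (Fin k × ℤ × ℤ), (∀ y ∈ J, y.1 = j) →
      ∑ y ∈ J, ρ (gp k h y) * h ^ 2 ≤ (∫ ζ, ρ ζ) + η := by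
  classical
  set g : Fin k → ℂ → ℂ := fun c ζ => if c = j then (ρ ζ : ℂ) else 0 with hg
  have hgc : ∀ c, Continuous (g c) := by
    intro c
    by_cases hc : c = j
    · have : g c = fun ζ => (ρ ζ : ℂ) := by funext ζ; simp only [hg, if_pos hc]
      rw [this]
      exact Complex.continuous_ofReal.comp hρ
    · have : g c = fun _ => 0 := by funext ζ; simp only [hg, if_neg hc]
      rw [this]
      exact continuous_const
  have hgs : ∀ c, HasCompactSupport (g c) := by
    intro c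
    by_cases hc : c = j
    · have : g c = fun ζ => (ρ ζ : ℂ) := by funext ζ; simp only [hg, if_pos hc]
      rw [this]
      exact hρs.comp_left (g := fun t : ℝ => (t : ℂ)) Complex.ofReal_zero
    · have : g c = 0 := by funext ζ; simp only [hg, if_neg hc]; rfl
      rw [this]
      exact HasCompactSupport.zero
  have hsum : ∑ c, ∫ ζ, g c ζ = ((∫ ζ, ρ ζ : ℝ) : ℂ) := by
    rw [Finset.sum_eq_single j]
    · simp only [hg, if_true]
      exact integral_ofReal
    · intro c _ hc
      simp only [hg, if_neg hc, integral_zero]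
    · intro h; exact absurd (Finset.mem_univ j) h
  obtain ⟨R, hR⟩ := hρs.isCompact.isBounded.subset_closedBall 0
  have hpos : ∀ᶠ h : ℝ in 𝓝[>] 0, 0 < h := self_mem_nhdsWithin
  filter_upwards [riemann_sum k hk g hgc hgs hη, hpos] with h hrs hh J hJ
  obtain ⟨I, hI⟩ := b6_finite k hh R
  have h1 := hrs (I ∪ J) (by
    intro x hx
    apply Finset.mem_union_left
    apply hI
    have h2 : ρ (gp k h x) ≠ 0 := by
      intro h0
      apply hx
      simp only [hg, h0, Complex.ofReal_zero, ite_self]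
    have h3 := hR (subset_tsupport _ h2)
    rwa [mem_closedBall_zero_iff] at h3)
  rw [hsum] at h1
  have h2 := (Complex.abs_re_le_norm _).trans h1
  rw [Complex.sub_re, Complex.ofReal_re, Complex.re_sum] at h2
  have h3 : ∀ x, ((h : ℂ) ^ 2 * g x.1 (gp k h x)).re =
      if x.1 = j then ρ (gp k h x) * h ^ 2 else 0 := by
    intro x
    simp only [hg]
    split_ifs
    · rw [← Complex.ofReal_pow, ← Complex.ofReal_mul, Complex.ofReal_re, mul_comm]
    · simp
  simp only [h3] at h2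
  have h4 : ∑ y ∈ J, ρ (gp k h y) * h ^ 2 ≤
      ∑ x ∈ I ∪ J, if x.1 = j then ρ (gp k h x) * h ^ 2 else 0 := by
    calc ∑ y ∈ J, ρ (gp k h y) * h ^ 2 =
        ∑ y ∈ J, if y.1 = j then ρ (gp k h y) * h ^ 2 else 0 :=
          Finset.sum_congr rfl fun y hy => by rw [if_pos (hJ y hy)]
      _ ≤ _ := by
          apply Finset.sum_le_sum_of_subset_of_nonneg Finset.subset_union_right
          intro x _ _
          split_ifs
          · exact mul_nonneg (hρ0 _) (by positivity)
          · exact le_rfl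
  have h5 := (abs_le.1 h2).2
  linarith

end Pool.Agent.SV
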