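import Pool.Agent.Helper53.AC.B1
import Pool.Agent.Helper53.AC.B4
import Pool.Agent.Helper53.AC.B6
import Pool.Agent.Helper53.AC.C1
import Pool.Agent.Helper53.AC.C3

/-!
# One cell, backward (B7)
-/

set_option autoImplicit false

open Complex Filter Topology Metric
open scoped ComplexConjugate

namespace Pool.Agent.SV

open Pool.Agent.Helper53.CAC

/-- bound for the density -/
theorem b7_rho_le {α d : ℝ} (hα : 0 < α) (c : ℂ) {θ lam : ℝ} (hθ : 0 < θ) (hlam : 0 < lam)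
    (ζ : ℂ) : rhoC α d c θ lam ζ ≤ 2 * lam / (θ ^ 2 * α) := by
  have ht : 0 < θ * α := by positivity
  have h1 := blob_le (c + d) ht ζ
  have h2 := blob_le (c - d) ht ζ
  unfold rhoC
  calc lam * α * (blob (c + d) (θ * α) ζ + blob (c - d) (θ * α) ζ)
      ≤ lam * α * (1 / (θ * α) ^ 2 + 1 / (θ * α) ^ 2) :=
        mul_le_mul_of_nonneg_left (by linarith) (by positivity)
    _ = 2 * lam / (θ ^ 2 * α) := by field_simp; ring

theorem b7_rho_nonneg {α d : ℝ} (hα : 0 < α) (c : ℂ) {θ lam : ℝ} (hlam : 0 < lam)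
    (ζ : ℂ) : 0 ≤ rhoC α d c θ lam ζ := by
  unfold rhoC
  have h1 := blob_nonneg (c + d) (θ * α) ζ
  have h2 := blob_nonneg (c - d) (θ * α) ζ
  positivity

theorem b7_rho_cont (α d : ℝ) (c : ℂ) (θ lam : ℝ) : Continuous (rhoC α d c θ lam) := by
  unfold rhoC
  exact continuous_const.mul ((blob_cont _ _).add (blob_cont _ _))

theorem b7_rho_compact {α d : ℝ} (hα : 0 < α) (c : ℂ) {θ : ℝ} (lam : ℝ) (hθ : 0 < θ) :
    HasCompactSupport (rhoC α d c θ lam) := by
  have ht : 0 < θ * α := by positivity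
  have h1 := (blob_compact (c + d) ht).add (blob_compact (c - d) ht)
  exact h1.mul_left

theorem b7_rho_int {α d : ℝ} (hα : 0 < α) (c : ℂ) {θ : ℝ} (lam : ℝ) (hθ : 0 < θ) :
    ∫ ζ, rhoC α d c θ lam ζ = 2 * lam * α := by
  have ht : 0 < θ * α := by positivity
  unfold rhoC
  rw [MeasureTheory.integral_const_mul, MeasureTheory.integral_add
    ((blob_cont _ _).integrable_of_hasCompactSupport (blob_compact _ ht))
    ((blob_cont _ _).integrable_of_hasCompactSupport (blob_compact _ ht)),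
    blob_int _ ht, blob_int _ ht]
  ring

theorem b7_supp {α d : ℝ} (hα : 0 < α) (c : ℂ) {θ lam : ℝ} (hθ : 0 < θ) {ζ : ℂ}
    (h : 0 < rhoC α d c θ lam ζ) : ‖ζ - (c + d)‖ < θ * α ∨ ‖ζ - (c - d)‖ < θ * α := by
  have ht : 0 < θ * α := by positivity
  by_contra hcon
  push Not at hcon
  have h1 : blob (c + d) (θ * α) ζ = 0 := by
    by_contra hne
    exact absurd (blob_supp _ ht hne) (not_lt.2 hcon.1)
  have h2 : blob (c - d) (θ * α) ζ = 0 := by
    by_contra hne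
    exact absurd (blob_supp _ ht hne) (not_lt.2 hcon.2)
  unfold rhoC at h
  rw [h1, h2] at h
  simp at h

theorem b7_dist {P : Set ℂ} {x : ℂ} {R α d : ℝ} {c : ℂ} {G H : ℂ → ℂ}
    (hC : Cell P x R α d c G H) {θ lam : ℝ} (hθ : 0 < θ) {ζ : ℂ}
    (h : 0 < rhoC α d c θ lam ζ) : ‖ζ - c‖ ≤ d + θ * α := by
  have hα := hC.α_pos
  have hd : 0 ≤ d := by have := hC.α_d; linarith
  have hdn : ‖(d : ℂ)‖ = d := by rw [norm_real, Real.norm_of_nonneg hd]
  rcases b7_supp hα c hθ h with h1 | h1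
  · have h2 : ζ - c = (ζ - (c + d)) + d := by ring
    rw [h2]
    refine (norm_add_le _ _).trans ?_
    rw [hdn]; linarith
  · have h2 : ζ - c = (ζ - (c - d)) - d := by ring
    rw [h2]
    refine (norm_sub_le _ _).trans ?_
    rw [hdn]; linarith

/-- the sum of the potentials -/
theorem b7_pot {k : ℕ} (j : Fin k) {P : Set ℂ} {x : ℂ} {R α d : ℝ} {c : ℂ}
    {G H : ℂ → ℂ} (hC : Cell P x R α d c G H) {θ lam : ℝ} (hθ : 0 < θ) (hlam : 0 < lam)
    {h : ℝ} (hh : 0 < h) (hhα : h ≤ θ * α) (J : Finset (Fin k × ℤ × ℤ))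
    (hJ : ∀ y ∈ J, y.1 = j ∧ 0 < rhoC α d c θ lam (gp k h y)) {z : ℂ}
    (hz : ∀ y ∈ J, h / 2 ≤ ‖z - gp k h y‖) :
    ∑ y ∈ J, rhoC α d c θ lam (gp k h y) * h ^ 2 / ‖z - gp k h y‖
      ≤ 48 * Real.pi * lam / θ := by
  have hα := hC.α_pos
  have ht : 0 < θ * α := by positivity
  set J₁ := J.filter (fun y => ‖gp k h y - (c + d)‖ ≤ θ * α) with hJ₁
  set J₂ := J.filter (fun y => ‖gp k h y - (c - d)‖ ≤ θ * α) with hJ₂
  have h1 := grid_pot j ht hh J₁ (c := c + d) (fun y hy => by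
    rw [hJ₁, Finset.mem_filter] at hy
    exact ⟨(hJ y hy.1).1, hy.2⟩) z (fun y hy => hz y (Finset.mem_filter.1 hy).1)
  have h2 := grid_pot j ht hh J₂ (c := c - d) (fun y hy => by
    rw [hJ₂, Finset.mem_filter] at hy
    exact ⟨(hJ y hy.1).1, hy.2⟩) z (fun y hy => hz y (Finset.mem_filter.1 hy).1)
  have h3 : ∑ y ∈ J, h ^ 2 / ‖z - gp k h y‖
      ≤ ∑ y ∈ J₁, h ^ 2 / ‖z - gp k h y‖ + ∑ y ∈ J₂, h ^ 2 / ‖z - gp k h y‖ := by
    have hsub : J ⊆ J₁ ∪ J₂ := by
      intro y hy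
      rw [Finset.mem_union, hJ₁, hJ₂, Finset.mem_filter, Finset.mem_filter]
      rcases b7_supp hα c hθ (hJ y hy).2 with h4 | h4
      · exact Or.inl ⟨hy, h4.le⟩
      · exact Or.inr ⟨hy, h4.le⟩
    have hnn : ∀ y : Fin k × ℤ × ℤ, 0 ≤ h ^ 2 / ‖z - gp k h y‖ := fun y => by positivity
    refine (Finset.sum_le_sum_of_subset_of_nonneg hsub fun y _ _ => hnn y).trans ?_
    rw [← Finset.sum_union_inter]
    have : 0 ≤ ∑ y ∈ J₁ ∩ J₂, h ^ 2 / ‖z - gp k h y‖ := Finset.sum_nonneg fun y _ => hnn y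
    linarith
  have h4 : ∑ y ∈ J, rhoC α d c θ lam (gp k h y) * h ^ 2 / ‖z - gp k h y‖
      ≤ 2 * lam / (θ ^ 2 * α) * ∑ y ∈ J, h ^ 2 / ‖z - gp k h y‖ := by
    rw [Finset.mul_sum]
    refine Finset.sum_le_sum fun y _ => ?_
    rw [mul_div_assoc]
    exact mul_le_mul_of_nonneg_right (b7_rho_le hα c hθ hlam _) (by positivity)
  refine h4.trans ?_
  have h5 : ∑ y ∈ J, h ^ 2 / ‖z - gp k h y‖ ≤ 24 * Real.pi * (θ * α) := by
    have h6 : 6 * Real.pi * (θ * α + h) ≤ 12 * Real.pi * (θ * α) := by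
      nlinarith [Real.pi_pos]
    linarith
  calc 2 * lam / (θ ^ 2 * α) * ∑ y ∈ J, h ^ 2 / ‖z - gp k h y‖
      ≤ 2 * lam / (θ ^ 2 * α) * (24 * Real.pi * (θ * α)) :=
        mul_le_mul_of_nonneg_left h5 (by positivity)
    _ = 48 * Real.pi * lam / θ := by field_simp; ring

theorem back_cell {k : ℕ} (hk : 0 < k) (j : Fin k) {P : Set ℂ} {x : ℂ} {R α d : ℝ} {c : ℂ}
    {G H : ℂ → ℂ} (hR : 0 < R) (hC : Cell P x R α d c G H) {θ lam : ℝ} (hθ : 0 < θ)
    (hθ1 : θ ≤ 1 / 8) (hlam : 0 < lam) :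
    ∀ᶠ h : ℝ in 𝓝[>] 0, ∀ J : Finset (Fin k × ℤ × ℤ),
      (∀ y ∈ J, y.1 = j ∧ 0 < rhoC α d c θ lam (gp k h y)) → ∀ F : ℂ → ℂ,
      (∀ y ∈ J, ContinuousOn F (sphere (gp k h y) (64 * (rhoC α d c θ lam (gp k h y) * h ^ 2)))) →
      (∀ y ∈ J, ∀ z ∈ sphere (gp k h y) (64 * (rhoC α d c θ lam (gp k h y) * h ^ 2)),
        ‖F z‖ ≤ 1) →
      ∃ u v : ℂ, ‖u‖ ≤ 200 * lam ∧ ‖v‖ ≤ 400 * lam ∧
        ∑ y ∈ J, pA F (gp k h y) (64 * (rhoC α d c θ lam (gp k h y) * h ^ 2)) = u * α ∧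
        ∀ z, (∀ y ∈ J, h / 2 ≤ ‖z - gp k h y‖) →
          ‖∑ y ∈ J, part F (gp k h y) (64 * (rhoC α d c θ lam (gp k h y) * h ^ 2)) z
            - (u * G z + v * H z)‖ ≤ 10 ^ 7 * lam / θ * wt R (z - x) := by
  have hα := hC.α_pos
  have hαR := hC.α_le
  have hαd := hC.α_d
  have hdR := hC.d_le
  have hd : 0 < d := by linarith
  have ht : 0 < θ * α := by positivity
  have htα : θ * α ≤ α / 8 := by nlinarith
  set Mρ := 2 * lam / (θ ^ 2 * α) with hMρ
  have hMρ0 : 0 < Mρ := by positivity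
  have e1 := grid_mass hk j (b7_rho_cont α d c θ lam) (b7_rho_nonneg hα c hlam)
    (b7_rho_compact hα c lam hθ) (η := lam * α) (by positivity)
  have e2 : ∀ᶠ h : ℝ in 𝓝[>] 0, h ≤ θ * α :=
    (eventually_nhdsWithin_of_eventually_nhds (eventually_le_nhds ht))
  have e3 : ∀ᶠ h : ℝ in 𝓝[>] 0, h ≤ 1 / (256 * Mρ) :=
    (eventually_nhdsWithin_of_eventually_nhds (eventually_le_nhds (by positivity)))
  filter_upwards [e1, e2, e3, self_mem_nhdsWithin] with h hmass hhα hhM hh0 J hJ F hFc hFb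
  have hh : 0 < h := hh0
  rw [b7_rho_int hα c lam hθ] at hmass
  have hsum := hmass J fun y hy => (hJ y hy).1
  -- abbreviations
  set ρ : ℂ → ℝ := rhoC α d c θ lam with hρ
  set T : Fin k × ℤ × ℤ → ℝ := fun y => 64 * (ρ (gp k h y) * h ^ 2) with hT
  have hTpos : ∀ y ∈ J, 0 < T y := fun y hy => by
    have := (hJ y hy).2
    simp only [hT]
    positivity
  have hTle : ∀ y, T y ≤ h / 4 := by
    intro y
    have h1 : ρ (gp k h y) ≤ Mρ := b7_rho_le hα c hθ hlam _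
    have h2 : 256 * Mρ * h ≤ 1 := by
      rw [le_div_iff₀ (by positivity)] at hhM
      linarith
    simp only [hT]
    have h3 : ρ (gp k h y) * h ^ 2 ≤ Mρ * h ^ 2 := mul_le_mul_of_nonneg_right h1 (by positivity)
    nlinarith
  have hTsum : ∑ y ∈ J, T y ≤ 192 * lam * α := by
    simp only [hT]
    rw [← Finset.mul_sum]
    linarith
  have hdist : ∀ y ∈ J, ‖gp k h y - c‖ ≤ d + θ * α := fun y hy => b7_dist hC hθ (hJ y hy).2
  have hspec : ∀ y ∈ J, _ := fun y hy => part_spec (hTpos y hy) (hFc y hy) (hFb y hy) c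
  have hαC : (α : ℂ) ≠ 0 := by exact_mod_cast hα.ne'
  have hdC : (d : ℂ) ≠ 0 := by exact_mod_cast hd.ne'
  set u : ℂ := (∑ y ∈ J, pA F (gp k h y) (T y)) / α with hu
  set v : ℂ := (∑ y ∈ J, pB F (gp k h y) (T y) c) / (α * d) with hv
  have huα : ∑ y ∈ J, pA F (gp k h y) (T y) = u * α := by
    rw [hu]; field_simp
  have hvα : ∑ y ∈ J, pB F (gp k h y) (T y) c = v * (α * d) := by
    rw [hv]; field_simp
  have hun : ‖u‖ ≤ 200 * lam := by
    rw [hu, norm_div, norm_real, Real.norm_of_nonneg hα.le, div_le_iff₀ hα]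
    have h1 : ‖∑ y ∈ J, pA F (gp k h y) (T y)‖ ≤ ∑ y ∈ J, T y :=
      (norm_sum_le _ _).trans (Finset.sum_le_sum fun y hy => (hspec y hy).2.2.2.1)
    nlinarith
  have hvn : ‖v‖ ≤ 400 * lam := by
    have hαd0 : 0 < α * d := by positivity
    rw [hv, norm_div, ← ofReal_mul, norm_real, Real.norm_of_nonneg hαd0.le, div_le_iff₀ hαd0]
    have h1 : ‖∑ y ∈ J, pB F (gp k h y) (T y) c‖ ≤ ∑ y ∈ J, T y * (2 * d) := by
      refine (norm_sum_le _ _).trans (Finset.sum_le_sum fun y hy => ?_)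
      refine ((hspec y hy).2.2.2.2).trans (mul_le_mul_of_nonneg_left ?_ (hTpos y hy).le)
      have h2 := hdist y hy
      have h3 := hTle y
      linarith
    rw [← Finset.sum_mul] at h1
    have h2 : (∑ y ∈ J, T y) * (2 * d) ≤ 192 * lam * α * (2 * d) :=
      mul_le_mul_of_nonneg_right hTsum (by positivity)
    nlinarith [mul_pos hlam hαd0]
  refine ⟨u, v, hun, hvn, huα, ?_⟩
  -- the difference
  have hcoef : Coef (fun z => ∑ y ∈ J, part F (gp k h y) (T y) z - (u * G z + v * H z)) x 0 0 := by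
    have h1 := Coef.sum J (f := fun y z => part F (gp k h y) (T y) z) (x := c)
      (a := fun y => pA F (gp k h y) (T y)) (b := fun y => pB F (gp k h y) (T y) c)
      (fun y hy => (hspec y hy).2.1)
    have h2 := (hC.hG.coef.const_mul u).add (hC.hH.coef.const_mul v)
    have h3 := (h1.sub h2).recenter x
    have e4 : ∑ y ∈ J, pA F (gp k h y) (T y) - (u * α + v * 0) = 0 := by rw [huα]; ring
    have e5 : ∑ y ∈ J, pB F (gp k h y) (T y) c - (u * 0 + v * (α * d))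
        + (c - x) * (∑ y ∈ J, pA F (gp k h y) (T y) - (u * α + v * 0)) = 0 := by
      rw [e4, hvα]; ring
    have h4 := h3
    rw [e5, e4] at h4
    exact h4
  have hfar : ∀ z, 7 * R < ‖z - x‖ → ∀ y ∈ J, h / 2 ≤ ‖z - gp k h y‖ := by
    intro z hz y hy
    have h1 := hdist y hy
    have h2 := hC.near
    have h3 : ‖z - x‖ ≤ ‖z - gp k h y‖ + ‖gp k h y - c‖ + ‖c - x‖ := by
      have h4 : z - x = (z - gp k h y) + (gp k h y - c) + (c - x) := by ring
      rw [h4]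
      exact (norm_add_le _ _).trans (add_le_add (norm_add_le _ _) le_rfl)
    nlinarith
  have hPsub : {z | 7 * R < ‖z - x‖} ⊆ Pᶜ := by
    intro z hz hzP
    have h1 := hC.sub hzP
    rw [mem_closedBall, dist_eq_norm] at h1
    have h2 : 7 * R < ‖z - x‖ := hz
    linarith
  have hdiff : DifferentiableOn ℂ
      (fun z => ∑ y ∈ J, part F (gp k h y) (T y) z - (u * G z + v * H z))
      {z | 7 * R < ‖z - x‖} := by
    refine DifferentiableOn.sub ?_ ?_
    · refine DifferentiableOn.fun_sum fun y hy => ((hspec y hy).1).mono fun z hz => ?_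
      have h1 := hfar z hz y hy
      have h2 := hTle y
      have h3 : T y < ‖z - gp k h y‖ := by linarith
      exact h3
    · exact ((hC.hG.holo.mono hPsub).const_mul u).add ((hC.hH.holo.mono hPsub).const_mul v)
  have hbound : ∀ z ∈ {z | ∀ y ∈ J, h / 2 ≤ ‖z - gp k h y‖},
      ‖∑ y ∈ J, part F (gp k h y) (T y) z - (u * G z + v * H z)‖ ≤ 29000 * lam / θ := by
    intro z hz
    have h1 : ‖∑ y ∈ J, part F (gp k h y) (T y) z‖ ≤ 128 * (48 * Real.pi * lam / θ) := by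
      have h2 := b7_pot j hC hθ hlam hh hhα J hJ hz
      refine le_trans ?_ (mul_le_mul_of_nonneg_left h2 (by norm_num))
      rw [Finset.mul_sum]
      refine (norm_sum_le _ _).trans (Finset.sum_le_sum fun y hy => ?_)
      have h3 := hz y hy
      have h4 := hTle y
      have h5 := (hspec y hy).2.2.1 z (by linarith)
      refine h5.trans (le_of_eq ?_)
      simp only [hT]
      ring
    have h2 : ‖u * G z + v * H z‖ ≤ 1200 * lam := by
      have g1 := hC.hGb z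
      have g2 := hC.hHb z
      refine (norm_add_le _ _).trans ?_
      rw [norm_mul, norm_mul]
      have g3 : ‖u‖ * ‖G z‖ ≤ 200 * lam * 2 :=
        mul_le_mul hun g1 (norm_nonneg _) (by positivity)
      have g4 : ‖v‖ * ‖H z‖ ≤ 400 * lam * 2 :=
        mul_le_mul hvn g2 (norm_nonneg _) (by positivity)
      linarith
    have h3 : 1200 * lam ≤ 150 * lam / θ := by
      rw [le_div_iff₀ hθ]
      nlinarith
    have h4 : 128 * (48 * Real.pi * lam / θ) ≤ 19400 * lam / θ := by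
      have h5 : 128 * (48 * Real.pi * lam / θ) = (6144 * Real.pi) * lam / θ := by ring
      rw [h5]
      have h6 := Real.pi_lt_d4
      gcongr
      linarith
    have h5 : 19400 * lam / θ + 150 * lam / θ ≤ 29000 * lam / θ := by
      rw [← add_div]
      gcongr
      linarith
    calc ‖∑ y ∈ J, part F (gp k h y) (T y) z - (u * G z + v * H z)‖
        ≤ ‖∑ y ∈ J, part F (gp k h y) (T y) z‖ + ‖u * G z + v * H z‖ := norm_sub_le _ _
      _ ≤ 29000 * lam / θ := by linarith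
  have hM0 : 0 ≤ 29000 * lam / θ := by positivity
  have hfin := cube_wt (R := 7 * R) (by positivity) hM0
    (S := {z | ∀ y ∈ J, h / 2 ≤ ‖z - gp k h y‖}) (fun z hz y hy => hfar z hz y hy) hdiff hbound
    hcoef
  intro z hz
  refine (hfin z hz).trans ?_
  have h1 := wt_scale hR (t := 7) (by norm_num) (z - x)
  have h2 := wt_nonneg hR (z - x)
  calc 29000 * lam / θ * wt (7 * R) (z - x)
      ≤ 29000 * lam / θ * (7 ^ 3 * wt R (z - x)) := mul_le_mul_of_nonneg_left h1 hM0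
    _ = (9947000 * lam / θ) * wt R (z - x) := by ring
    _ ≤ 10 ^ 7 * lam / θ * wt R (z - x) := by
        refine mul_le_mul_of_nonneg_right ?_ h2
        gcongr
        norm_num

end Pool.Agent.SV
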