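import Pool.Agent.Helper53.AC.Defs

/-!
# SV-B8a: equicontinuity
-/

set_option autoImplicit false

open Complex Filter Topology Metric
open scoped ComplexConjugate

namespace Pool.Agent.SV

/-- equicontinuity -/
theorem equi {n : ℕ} {G : Fin n → ℂ → ℂ} (hG : ∀ j, Continuous (G j))
    (h0 : ∀ j, Tendsto (G j) (cocompact ℂ) (𝓝 0)) {L η : ℝ} (hη : 0 < η) :
    ∀ᶠ h : ℝ in 𝓝[>] 0, ∀ u : Fin n → ℂ, (∀ j, ‖u j‖ ≤ L) → ∀ z z' : ℂ, ‖z - z'‖ ≤ h →
      ‖∑ j, u j * G j z - ∑ j, u j * G j z'‖ ≤ η := by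
  have hη' : 0 < η / (n * |L| + 1) := by positivity
  have h1 : ∀ᶠ h : ℝ in 𝓝[>] 0, ∀ j : Fin n, ∀ z z' : ℂ, ‖z - z'‖ ≤ h →
      ‖G j z - G j z'‖ ≤ η / (n * |L| + 1) := by
    rw [Filter.eventually_all]
    intro j
    have huc : UniformContinuous (G j) :=
      (hG j).uniformContinuous_of_tendsto_cocompact (h0 j)
    obtain ⟨δ, hδ, hδ2⟩ := Metric.uniformContinuous_iff.1 huc _ hη'
    filter_upwards [Ioo_mem_nhdsGT hδ] with h hh z z' hz
    have h2 := hδ2 (a := z) (b := z') (by rw [dist_eq_norm]; exact lt_of_le_of_lt hz hh.2)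
    rw [dist_eq_norm] at h2
    exact h2.le
  filter_upwards [h1] with h hh u hu z z' hz
  rw [← Finset.sum_sub_distrib]
  have h2 : ∀ j ∈ (Finset.univ : Finset (Fin n)),
      ‖u j * G j z - u j * G j z'‖ ≤ |L| * (η / (n * |L| + 1)) := by
    intro j _
    rw [← mul_sub, norm_mul]
    exact mul_le_mul ((hu j).trans (le_abs_self L)) (hh j z z' hz) (norm_nonneg _) (abs_nonneg _)
  refine (norm_sum_le_of_le _ h2).trans ?_
  rw [Finset.sum_const, Finset.card_univ, Fintype.card_fin, nsmul_eq_mul]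
  have h3 : (n : ℝ) * (|L| * (η / (n * |L| + 1))) = (n * |L|) / (n * |L| + 1) * η := by
    field_simp
  rw [h3]
  have h4 : (n * |L|) / (n * |L| + 1) ≤ 1 := by
    rw [div_le_one (by positivity)]
    linarith
  calc (n * |L|) / (n * |L| + 1) * η ≤ 1 * η := mul_le_mul_of_nonneg_right h4 hη.le
    _ = η := one_mul η

end Pool.Agent.SV
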