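import Pool.Agent.Helper53.AC.Defs
import Pool.Agent.Helper53.AC.C1
import Pool.Agent.Helper53.CAC.Exterior
import Pool.Agent.Helper53.CAC.Disc

/-!
# Module C2: capacity bounds
-/

set_option autoImplicit false

open Complex Filter Topology Metric
open scoped ComplexConjugate

namespace Pool.Agent.SV

open Pool.Agent.Helper53.CAC

theorem alpha_mono {P Q : Set ℂ} (h : P ⊆ Q) : alpha P ≤ alpha Q := by
  rw [alpha_le_iff]
  intro f A hf
  exact (hf.mono h).le_alpha

theorem alpha_le_radius {P : Set ℂ} {x : ℂ} {R : ℝ} (hR : 0 < R) (h : P ⊆ closedBall x R) :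
    alpha P ≤ ENNReal.ofReal R :=
  (alpha_mono h).trans (alpha_closedBall x hR).le

theorem alpha_ne_top {P : Set ℂ} (hP : IsCompact P) : alpha P ≠ ⊤ := by
  obtain ⟨N, hN0, hN⟩ := exists_bound_compact hP
  have h1 : P ⊆ closedBall (0 : ℂ) N := fun z hz => by
    rw [mem_closedBall, dist_zero_right]; exact hN z hz
  exact ((alpha_le_radius hN0 h1).trans_lt ENNReal.ofReal_lt_top).ne

theorem alpha_toReal_le {P : Set ℂ} {x : ℂ} {R : ℝ} (hR : 0 < R) (h : P ⊆ closedBall x R) :
    (alpha P).toReal ≤ R :=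
  ENNReal.toReal_le_of_le_ofReal hR.le (alpha_le_radius hR h)

/-- the basic bound for the first coefficient -/
theorem coeff_le_alpha {P : Set ℂ} {g : ℂ → ℂ} {b : ℂ} {C : ℝ} (hP : IsCompact P)
    (hg : Continuous g) (hd : DifferentiableOn ℂ g Pᶜ) (h0 : Tendsto g (cocompact ℂ) (𝓝 0))
    (h1 : Tendsto (fun z => z * g z) (cocompact ℂ) (𝓝 b)) (hC : ∀ z, ‖g z‖ ≤ C) :
    ‖b‖ ≤ C * (alpha P).toReal := by
  have hC0 : 0 ≤ C := (norm_nonneg _).trans (hC 0)
  rcases hC0.eq_or_lt with h | h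
  · have hz : ∀ z, g z = 0 := fun z => norm_le_zero_iff.mp (by rw [h]; exact hC z)
    have h2 : Tendsto (fun z => z * g z) (cocompact ℂ) (𝓝 0) :=
      tendsto_const_nhds.congr fun z => by rw [hz z, mul_zero]
    rw [tendsto_nhds_unique h1 h2, norm_zero, ← h, zero_mul]
  · have hadm : Admissible P (fun z => (C : ℂ)⁻¹ * g z) ((C : ℂ)⁻¹ * b) := by
      refine ⟨continuous_const.mul hg, ?_, ⟨P, hP, subset_rfl, hd.const_mul _⟩, ?_, ?_⟩
      · intro z
        rw [norm_mul, norm_inv, Complex.norm_real, Real.norm_of_nonneg h.le]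
        rw [inv_mul_le_iff₀ h, mul_one]
        exact hC z
      · have := h0.const_mul (C : ℂ)⁻¹
        rwa [mul_zero] at this
      · exact (h1.const_mul (C : ℂ)⁻¹).congr fun z => by ring
    have h2 := hadm.le_alpha
    rw [ENNReal.ofReal_le_iff_le_toReal (alpha_ne_top hP), norm_mul, norm_inv, Complex.norm_real,
      Real.norm_of_nonneg h.le, inv_mul_le_iff₀ h] at h2
    exact h2

theorem AF.coef_le {P : Set ℂ} {f : ℂ → ℂ} {x a b : ℂ} {M : ℝ} (hP : IsCompact P)
    (h : AF P x f a b) (hM : ∀ z, ‖f z‖ ≤ M) : ‖a‖ ≤ M * (alpha P).toReal :=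
  coeff_le_alpha hP h.cont h.holo h.coef.zero h.coef.ca hM

theorem AF.second_le {P : Set ℂ} {f : ℂ → ℂ} {x a b : ℂ} {M R : ℝ} (hP : IsCompact P)
    (hR : 0 < R) (hs : P ⊆ closedBall x R) (h : AF P x f a b) (hM : ∀ z, ‖f z‖ ≤ M) :
    ‖b‖ ≤ 2 * R * M * (alpha P).toReal := by
  have hM0 : 0 ≤ M := (norm_nonneg _).trans (hM 0)
  have ha : ‖a‖ ≤ M * R := (h.coef_le hP hM).trans
    (mul_le_mul_of_nonneg_left (alpha_toReal_le hR hs) hM0)
  set g : ℂ → ℂ := fun z => (z - x) * f z - a with hg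
  have hgc : Continuous g := ((continuous_id.sub continuous_const).mul h.cont).sub continuous_const
  have hgd : DifferentiableOn ℂ g Pᶜ := by
    refine DifferentiableOn.sub_const ?_ a
    exact (differentiableOn_id.sub_const x).mul h.holo
  have hg0 : Tendsto g (cocompact ℂ) (𝓝 0) := by
    have := (h.coef.ca' x).sub (tendsto_const_nhds (x := a))
    rwa [sub_self] at this
  have hg1 : Tendsto (fun z => z * g z) (cocompact ℂ) (𝓝 b) := by
    have h1 : Tendsto (fun z => (z - x) * ((z - x) * f z - a) + x * g z) (cocompact ℂ)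
        (𝓝 (b + x * 0)) := h.coef.cb.add (hg0.const_mul x)
    rw [mul_zero, add_zero] at h1
    exact h1.congr fun z => by simp only [hg]; ring
  have hbd : ∀ z ∈ P, ‖g z‖ ≤ 2 * R * M := by
    intro z hz
    have h1 : ‖z - x‖ ≤ R := by
      have := hs hz
      rwa [mem_closedBall, dist_eq_norm] at this
    calc ‖g z‖ ≤ ‖(z - x) * f z‖ + ‖a‖ := norm_sub_le _ _
      _ ≤ R * M + M * R := by
        rw [norm_mul]
        exact add_le_add (mul_le_mul h1 (hM z) (norm_nonneg _) hR.le) ha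
      _ = 2 * R * M := by ring
  have hall : ∀ z, ‖g z‖ ≤ 2 * R * M := by
    intro z
    have := max_ext hP hgc hgd hg0 hbd z
    rwa [norm_zero, max_eq_left (by positivity)] at this
  exact coeff_le_alpha hP hgc hgd hg0 hg1 hall

theorem AF.eq_zero {P : Set ℂ} {f : ℂ → ℂ} {x a b : ℂ} (hP : IsCompact P) (h0 : alpha P = 0)
    (h : AF P x f a b) : ∀ z, f z = 0 := by
  -- off `P`
  have hoff : ∀ z₀ ∉ P, f z₀ = 0 := by
    intro z₀ hz₀
    have hnhds : Pᶜ ∈ 𝓝 z₀ := hP.isClosed.isOpen_compl.mem_nhds hz₀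
    have hda : DifferentiableAt ℂ f z₀ := h.holo.differentiableAt hnhds
    set g : ℂ → ℂ := dslope f z₀ with hg
    have hgc : Continuous g := by
      rw [continuous_iff_continuousAt]
      intro z
      by_cases hz : z = z₀
      · rw [hz]
        exact continuousAt_dslope_same.mpr hda
      · exact (continuousAt_dslope_of_ne hz).mpr h.cont.continuousAt
    have hgd : DifferentiableOn ℂ g Pᶜ := (Complex.differentiableOn_dslope hnhds).mpr h.holo
    have hne : ∀ᶠ z : ℂ in cocompact ℂ, z ≠ z₀ := by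
      filter_upwards [(isCompact_singleton (x := z₀)).compl_mem_cocompact] with z hz
      exact hz
    have hinv : Tendsto (fun z : ℂ => (z - z₀)⁻¹) (cocompact ℂ) (𝓝 0) := by
      have h3 : Tendsto (fun z : ℂ => z⁻¹) (cocompact ℂ) (𝓝 0) := by
        rw [← Metric.cobounded_eq_cocompact]
        exact tendsto_inv₀_cobounded
      refine (h3.comp (tendsto_add_cocompact (-z₀))).congr fun z => ?_
      simp [sub_eq_add_neg]
    have hgeq : ∀ᶠ z : ℂ in cocompact ℂ, (z - z₀)⁻¹ * (f z - f z₀) = g z := by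
      filter_upwards [hne] with z hz
      rw [hg, dslope_of_ne _ hz, slope_def_field, div_eq_inv_mul]
    have hg0 : Tendsto g (cocompact ℂ) (𝓝 0) := by
      have h1 : Tendsto (fun z => (z - z₀)⁻¹ * (f z - f z₀)) (cocompact ℂ)
          (𝓝 (0 * (0 - f z₀))) := hinv.mul (h.coef.zero.sub tendsto_const_nhds)
      rw [zero_mul] at h1
      exact h1.congr' hgeq
    have hg1 : Tendsto (fun z => z * g z) (cocompact ℂ) (𝓝 (-f z₀)) := by
      have h1 : Tendsto (fun z => (f z - f z₀) + z₀ * g z) (cocompact ℂ)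
          (𝓝 ((0 - f z₀) + z₀ * 0)) :=
        (h.coef.zero.sub tendsto_const_nhds).add (hg0.const_mul z₀)
      rw [mul_zero, add_zero, zero_sub] at h1
      refine h1.congr' ?_
      filter_upwards [hne, hgeq] with z hz hz2
      have hz3 : z - z₀ ≠ 0 := sub_ne_zero.mpr hz
      have hz4 : (z - z₀) * g z = f z - f z₀ := by
        rw [← hz2, mul_inv_cancel_left₀ hz3]
      linear_combination -hz4
    obtain ⟨C, hC⟩ := hP.exists_bound_of_continuousOn hgc.continuousOn
    have hall : ∀ z, ‖g z‖ ≤ max C ‖(0 : ℂ)‖ := fun z => max_ext hP hgc hgd hg0 hC z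
    have h5 := coeff_le_alpha hP hgc hgd hg0 hg1 hall
    rw [h0, ENNReal.toReal_zero, mul_zero, norm_neg] at h5
    exact norm_le_zero_iff.mp h5
  intro z₀
  by_contra hne
  have hopen : IsOpen {z | f z ≠ 0} := isOpen_ne_fun h.cont continuous_const
  obtain ⟨r, hr, hsub⟩ := Metric.isOpen_iff.mp hopen z₀ hne
  have h1 : closedBall z₀ (r / 2) ⊆ P := by
    intro z hz
    by_contra hzP
    exact hsub (closedBall_subset_ball (by linarith) hz) (hoff z hzP)
  have h2 := alpha_mono h1
  rw [alpha_closedBall z₀ (by linarith : (0 : ℝ) < r / 2), h0, nonpos_iff_eq_zero,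
    ENNReal.ofReal_eq_zero] at h2
  linarith

end Pool.Agent.SV
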