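import Pool.Agent.Helper53.AC.C1
import Pool.Agent.Helper53.AC.C2

/-!
# C4: the data of a cell
-/

set_option autoImplicit false

open Complex Filter Topology Metric
open scoped ComplexConjugate

namespace Pool.Agent.SV

open Pool.Agent.Helper53.CAC

/-- an almost extremal function for the capacity -/
theorem c4_extremal {P : Set ℂ} {x : ℂ} {R : ℝ} (hP : IsCompact P)
    (hs : P ⊆ closedBall x R) {t : ℝ} (ht0 : 0 ≤ t) (ht : t < (alpha P).toReal) :
    ∃ (f : ℂ → ℂ) (a b : ℂ), AF P x f a b ∧ (∀ z, ‖f z‖ ≤ 1) ∧ t < ‖a‖ := by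
  have htop := alpha_ne_top hP
  have h1 : ENNReal.ofReal t < alpha P := by
    rw [← ENNReal.ofReal_toReal htop]
    exact (ENNReal.ofReal_lt_ofReal_iff (lt_of_le_of_lt ht0 ht)).2 ht
  unfold alpha at h1
  simp only [lt_iSup_iff] at h1
  obtain ⟨f, a, hf, h2⟩ := h1
  have h3 : t < ‖a‖ := by
    rw [ENNReal.ofReal_lt_ofReal_iff_of_nonneg ht0] at h2
    exact h2
  obtain ⟨K, hK, hKP, hKd⟩ := hf.holo
  have hd : DifferentiableOn ℂ f Pᶜ := hKd.mono (Set.compl_subset_compl.2 hKP)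
  have hsub : {z : ℂ | R < ‖z - x‖} ⊆ Pᶜ := by
    intro z hz hzP
    have h4 := hs hzP
    rw [mem_closedBall_iff_norm] at h4
    have h5 : R < ‖z - x‖ := hz
    linarith
  obtain ⟨a', b, hab⟩ := Coef.exists_of (hd.mono hsub) (fun z _ => hf.bound z) hf.zero
  have ha : a' = a := tendsto_nhds_unique hab.ca hf.coeff
  subst ha
  exact ⟨f, a', b, ⟨hf.cont, hd, hab⟩, hf.bound, h3⟩

theorem exists_cell {P : Set ℂ} {x : ℂ} {R : ℝ} (hR : 0 < R) (hP : IsCompact P)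
    (hs : P ⊆ closedBall x R) (hα : alpha P ≠ 0) :
    ∃ (d : ℝ) (c : ℂ) (G H : ℂ → ℂ), Cell P x R (alpha P).toReal d c G H := by
  have htop := alpha_ne_top hP
  set α : ℝ := (alpha P).toReal with hαd
  have hα0 : 0 < α := ENNReal.toReal_pos hα htop
  have hαR : α ≤ R := alpha_toReal_le hR hs
  have hαc : (α : ℂ) ≠ 0 := by exact_mod_cast hα0.ne'
  -- the first function
  obtain ⟨f₀, a₀, b₀, hf₀, hf₀b, ha₀⟩ := c4_extremal hP hs (t := α / 2) (by linarith)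
    (by rw [← hαd]; linarith)
  have ha₀0 : 0 < ‖a₀‖ := by linarith
  have ha₀' : a₀ ≠ 0 := norm_pos_iff.1 ha₀0
  set G : ℂ → ℂ := fun z => (α / a₀ : ℂ) * f₀ z with hG
  have hGx : AF P x G α (α / a₀ * b₀) := by
    have h1 := hf₀.const_mul (α / a₀ : ℂ)
    rwa [div_mul_cancel₀ _ ha₀'] at h1
  have hGb : ∀ z, ‖G z‖ ≤ 2 := by
    intro z
    rw [hG]
    simp only
    rw [norm_mul, norm_div, norm_real, Real.norm_of_nonneg hα0.le]
    have h1 : α / ‖a₀‖ ≤ 2 := by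
      rw [div_le_iff₀ ha₀0]
      linarith
    have h2 := hf₀b z
    calc α / ‖a₀‖ * ‖f₀ z‖ ≤ 2 * 1 := mul_le_mul h1 h2 (norm_nonneg _) (by norm_num)
      _ = 2 := by norm_num
  set b₁ : ℂ := α / a₀ * b₀ with hb₁
  have hb₁n : ‖b₁‖ ≤ 2 * R * 2 * α := AF.second_le hP hR hs hGx hGb
  set c : ℂ := x + b₁ / α with hc
  have hGc : AF P c G α 0 := by
    have h1 := hGx.recenter c
    have h2 : b₁ + (x - c) * α = 0 := by
      rw [hc]
      field_simp
      ring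
    rwa [h2] at h1
  -- the second capacity
  set B : Set ℝ := {t : ℝ | ∃ (f : ℂ → ℂ) (b : ℂ), AF P x f 0 b ∧ (∀ z, ‖f z‖ ≤ 1) ∧ t = ‖b‖}
    with hB
  have hBb : BddAbove B := by
    refine ⟨2 * R * 1 * α, ?_⟩
    rintro t ⟨f, b, hf, hfb, rfl⟩
    exact AF.second_le hP hR hs hf hfb
  have hsq : ‖a₀ ^ 2‖ ∈ B := by
    refine ⟨fun z => f₀ z * f₀ z, a₀ ^ 2, ⟨hf₀.cont.mul hf₀.cont, hf₀.holo.mul hf₀.holo,
      hf₀.coef.sq⟩, ?_, rfl⟩
    intro z
    rw [norm_mul]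
    exact mul_le_one₀ (hf₀b z) (norm_nonneg _) (hf₀b z)
  set β : ℝ := sSup B with hβ
  have hβ1 : α ^ 2 / 4 < β := by
    have h1 : ‖a₀ ^ 2‖ ≤ β := le_csSup hBb hsq
    rw [norm_pow] at h1
    nlinarith
  have hβ0 : 0 < β := lt_of_le_of_lt (by positivity) hβ1
  have hβ2 : β ≤ 2 * R * α := by
    refine csSup_le ⟨_, hsq⟩ ?_
    rintro t ⟨f, b, hf, hfb, rfl⟩
    have := AF.second_le hP hR hs hf hfb
    rw [← hαd] at this
    linarith
  have hβc : (β : ℂ) ≠ 0 := by exact_mod_cast hβ0.ne'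
  obtain ⟨t₁, ⟨f₁, b₂, hf₁, hf₁b, rfl⟩, hb₂⟩ := exists_lt_of_lt_csSup (s := B) (b := β / 2)
    ⟨_, hsq⟩ (by rw [← hβ]; linarith)
  have hb₂0 : 0 < ‖b₂‖ := by linarith
  have hb₂' : b₂ ≠ 0 := norm_pos_iff.1 hb₂0
  set H : ℂ → ℂ := fun z => (β / b₂ : ℂ) * f₁ z with hH
  have hHb : ∀ z, ‖H z‖ ≤ 2 := by
    intro z
    rw [hH]
    simp only
    rw [norm_mul, norm_div, norm_real, Real.norm_of_nonneg hβ0.le]
    have h1 : β / ‖b₂‖ ≤ 2 := by
      rw [div_le_iff₀ hb₂0]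
      linarith
    have h2 := hf₁b z
    calc β / ‖b₂‖ * ‖f₁ z‖ ≤ 2 * 1 := mul_le_mul h1 h2 (norm_nonneg _) (by norm_num)
      _ = 2 := by norm_num
  have hαd' : α * (β / α) = β := mul_div_cancel₀ _ hα0.ne'
  have hHc : AF P c H 0 (α * (β / α : ℝ)) := by
    have h1 := (hf₁.const_mul (β / b₂ : ℂ)).recenter c
    rw [mul_zero, mul_zero, add_zero, div_mul_cancel₀ _ hb₂'] at h1
    have h2 : ((α : ℂ) * ((β / α : ℝ) : ℂ)) = (β : ℂ) := by
      rw [← ofReal_mul, hαd']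
    rw [h2]
    exact h1
  refine ⟨β / α, c, G, H, ⟨hP, hs, hα0, hαR, ?_, ?_, ?_, hGc, hGb, hHc, hHb, ?_⟩⟩
  · rw [mul_div_assoc', le_div_iff₀ hα0]
    nlinarith
  · rw [div_le_iff₀ hα0]
    exact hβ2
  · rw [hc, add_sub_cancel_left, norm_div, norm_real, Real.norm_of_nonneg hα0.le,
      div_le_iff₀ hα0]
    linarith
  · intro f a b M hf hM
    have ha : ‖a‖ ≤ M * α := AF.coef_le hP hf hM
    refine ⟨ha, ?_⟩
    have hM0 : 0 ≤ M := (norm_nonneg _).trans (hM 0)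
    have hf' : AF P c (fun z => f z - (a / α : ℂ) * G z) 0 b := by
      have h1 := hf.sub (hGc.const_mul (a / α : ℂ))
      rwa [div_mul_cancel₀ _ hαc, sub_self, mul_zero, sub_zero] at h1
    have hb' : ∀ z, ‖f z - (a / α : ℂ) * G z‖ ≤ 3 * M := by
      intro z
      have h1 : ‖(a / α : ℂ)‖ ≤ M := by
        rw [norm_div, norm_real, Real.norm_of_nonneg hα0.le, div_le_iff₀ hα0]
        exact ha
      calc ‖f z - (a / α : ℂ) * G z‖ ≤ ‖f z‖ + ‖(a / α : ℂ) * G z‖ := norm_sub_le _ _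
        _ ≤ M + M * 2 := by
          rw [norm_mul]
          exact add_le_add (hM z) (mul_le_mul h1 (hGb z) (norm_nonneg _) hM0)
        _ = 3 * M := by ring
    have key : ∀ T : ℝ, 3 * M < T → ‖b‖ ≤ T * β := by
      intro T hT
      have hT0 : 0 < T := by linarith
      have hTc : (T : ℂ) ≠ 0 := by exact_mod_cast hT0.ne'
      have h1 := (hf'.const_mul (T : ℂ)⁻¹).recenter x
      rw [mul_zero, mul_zero, add_zero] at h1
      have h2 : ‖(T : ℂ)⁻¹ * b‖ ∈ B := by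
        refine ⟨_, _, h1, ?_, rfl⟩
        intro z
        rw [norm_mul, norm_inv, norm_real, Real.norm_of_nonneg hT0.le, inv_mul_le_iff₀ hT0]
        linarith [hb' z]
      have h3 : ‖(T : ℂ)⁻¹ * b‖ ≤ β := le_csSup hBb h2
      rw [norm_mul, norm_inv, norm_real, Real.norm_of_nonneg hT0.le, inv_mul_le_iff₀ hT0] at h3
      exact h3
    rw [hαd']
    refine le_of_forall_pos_le_add fun ε hε => ?_
    have h1 := key (3 * M + ε / β) (by
      have : 0 < ε / β := div_pos hε hβ0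
      linarith)
    have h2 : (3 * M + ε / β) * β = 3 * M * β + ε := by
      field_simp
    linarith

end Pool.Agent.SV
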