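import Pool.Agent.Helper53.AC.L0
import Pool.Agent.Helper53.AC.L1a
import Pool.Agent.Helper53.CAC.Exterior

/-!
# SV-L1b: the bound for the localisation operator
-/

set_option autoImplicit false

open Complex Filter Topology Metric MeasureTheory
open scoped ComplexConjugate

namespace Pool.Agent.SV

open Pool.Agent.Helper53.CAC

theorem l1b_dzbar {φ : ℂ → ℝ} (hφ : ContDiff ℝ (⊤ : ℕ∞) φ) (z : ℂ) :
    Pool.Agent.EN.dzbar (fun z => (φ z : ℂ)) z = dbarR φ z := by
  have hd : HasFDerivAt φ (fderiv ℝ φ z) z :=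
    (hφ.differentiable (by simp)).differentiableAt.hasFDerivAt
  have h1 : HasFDerivAt (fun z => (φ z : ℂ)) (Complex.ofRealCLM.comp (fderiv ℝ φ z)) z :=
    Complex.ofRealCLM.hasFDerivAt.comp z hd
  unfold Pool.Agent.EN.dzbar dbarR
  rw [h1.fderiv]
  rfl

theorem l1b_pompeiu {φ : ℂ → ℝ} (hφ : ContDiff ℝ (⊤ : ℕ∞) φ) (hc : HasCompactSupport φ) (z : ℂ) :
    ∫ ζ, dbarR φ ζ / (ζ - z) = -(Real.pi * φ z) := by
  have h1 : ContDiff ℝ 1 (fun z => (φ z : ℂ)) :=
    Complex.ofRealCLM.contDiff.comp (hφ.of_le (by norm_cast))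
  have h2 : HasCompactSupport (fun z => (φ z : ℂ)) := hc.comp_left (g := fun t : ℝ => (t : ℂ)) rfl
  have h3 := Pool.Agent.EN.pompeiu h1 h2 z
  rw [← h3, ← integral_neg]
  refine integral_congr_ae (Eventually.of_forall fun ζ => ?_)
  simp only
  rw [l1b_dzbar hφ, ← neg_sub ζ z, div_neg, neg_neg]

theorem loc_bound {φ : ℂ → ℝ} {f : ℂ → ℂ} {K : Set ℂ} {x : ℂ} {R ω D : ℝ} (hR : 0 < R)
    (hφ : ContDiff ℝ (⊤ : ℕ∞) φ) (hs : tsupport φ ⊆ closedBall x R)
    (hD : ∀ z, ‖dbarR φ z‖ ≤ D / R) (hf : Continuous f)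
    (hK : IsCompact K) (hfK : DifferentiableOn ℂ f Kᶜ)
    (hω : ∀ z ∈ closedBall x R, ∀ z' ∈ closedBall x R, ‖f z - f z'‖ ≤ ω) :
    ∀ z, ‖loc φ f z‖ ≤ 2 * D * ω := by
  have hpi := Real.pi_pos
  have hc : HasCompactSupport φ :=
    (isCompact_closedBall x R).of_isClosed_subset isClosed_closure hs
  have hx : x ∈ closedBall x R := mem_closedBall_self hR.le
  have hω0 : 0 ≤ ω := (norm_nonneg _).trans (hω x hx x hx)
  have hDR : 0 ≤ D / R := (norm_nonneg _).trans (hD x)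
  have hD0 : 0 ≤ D := by
    have := mul_nonneg hDR hR.le
    rwa [div_mul_cancel₀ _ hR.ne'] at this
  have hdc : Continuous (dbarR φ) := l1a_dbarR_continuous hφ
  have hds : HasCompactSupport (dbarR φ) := by
    refine HasCompactSupport.intro (isCompact_closedBall x R) (fun ζ hζ => ?_)
    exact l1a_dbarR_zero (fun h => hζ (hs h))
  have inside : ∀ z ∈ closedBall x R, ‖loc φ f z‖ ≤ 2 * D * ω := by
    intro z hz
    have hi1 : Integrable (fun ζ => f ζ * dbarR φ ζ / (ζ - z)) :=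
      l1a_ptl_integrable (hf.mul hdc) (hds.mul_left) z
    have hi2 : Integrable (fun ζ => dbarR φ ζ / (ζ - z)) := l1a_ptl_integrable hdc hds z
    have e1 : loc φ f z = (Real.pi : ℂ)⁻¹ * ∫ ζ, (f ζ - f z) * dbarR φ ζ / (ζ - z) := by
      have e2 : ∫ ζ, (f ζ - f z) * dbarR φ ζ / (ζ - z) =
          (∫ ζ, f ζ * dbarR φ ζ / (ζ - z)) - f z * ∫ ζ, dbarR φ ζ / (ζ - z) := by
        rw [← integral_const_mul, ← integral_sub hi1 (hi2.const_mul _)]
        refine integral_congr_ae (Eventually.of_forall fun ζ => ?_)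
        simp only
        ring
      rw [e2, l1b_pompeiu hφ hc z]
      unfold loc
      have : (Real.pi : ℂ) ≠ 0 := by exact_mod_cast hpi.ne'
      field_simp
      ring
    obtain ⟨hI, hb⟩ := inv_ball_integral z x hR
    have h1 : Integrable ((closedBall x R).indicator
        (fun ζ : ℂ => ω * (D / R) * ‖z - ζ‖⁻¹)) :=
      (integrable_indicator_iff measurableSet_closedBall).2 (hI.const_mul _)
    have h2 : ‖∫ ζ, (f ζ - f z) * dbarR φ ζ / (ζ - z)‖ ≤ ∫ ζ, (closedBall x R).indicator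
        (fun ζ : ℂ => ω * (D / R) * ‖z - ζ‖⁻¹) ζ := by
      refine norm_integral_le_of_norm_le h1 (Eventually.of_forall fun ζ => ?_)
      by_cases h : ζ ∈ closedBall x R
      · rw [Set.indicator_of_mem h, norm_div, norm_mul, div_eq_mul_inv, norm_sub_rev ζ z]
        have a1 := hω ζ h z hz
        have a2 := hD ζ
        gcongr
      · rw [Set.indicator_of_notMem h, l1a_dbarR_zero (fun h' => h (hs h')), mul_zero, zero_div,
          norm_zero]
    rw [integral_indicator measurableSet_closedBall, integral_const_mul] at h2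
    rw [e1, norm_mul, norm_inv, Complex.norm_real, Real.norm_eq_abs, abs_of_pos hpi]
    calc Real.pi⁻¹ * ‖∫ ζ, (f ζ - f z) * dbarR φ ζ / (ζ - z)‖
        ≤ Real.pi⁻¹ * (ω * (D / R) * ∫ ζ in closedBall x R, ‖z - ζ‖⁻¹) := by gcongr
      _ ≤ Real.pi⁻¹ * (ω * (D / R) * (2 * Real.pi * R)) := by gcongr
      _ = 2 * D * ω := by field_simp
  intro z
  obtain ⟨r1, r2, r3⟩ := loc_reg hφ hs hf hK hfK
  have h := max_ext (isCompact_closedBall x R) r1
    (r2.mono (Set.compl_subset_compl.2 Set.inter_subset_right)) r3 inside z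
  rw [norm_zero, max_eq_left (by positivity)] at h
  exact h

end Pool.Agent.SV
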