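import Pool.Agent.Helper53.AC.L1a

/-!
# SV-L1c: sums of localisations, and localisation by a function equal to one near the singularities
-/

set_option autoImplicit false

open Complex Filter Topology Metric
open scoped ComplexConjugate

namespace Pool.Agent.SV

theorem l1c_dbarR_sum {ι : Type*} (J : Finset ι) {φ : ι → ℂ → ℝ}
    (hφ : ∀ j ∈ J, ContDiff ℝ (⊤ : ℕ∞) (φ j)) (z : ℂ) :
    dbarR (fun y => ∑ j ∈ J, φ j y) z = ∑ j ∈ J, dbarR (φ j) z := by
  have h1 : fderiv ℝ (fun y => ∑ j ∈ J, φ j y) z = ∑ j ∈ J, fderiv ℝ (φ j) z :=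
    fderiv_fun_sum fun j hj => ((hφ j hj).differentiable (by simp)).differentiableAt
  unfold dbarR
  rw [h1, _root_.sum_apply, _root_.sum_apply, ← Finset.sum_div,
    Finset.sum_add_distrib, ← Finset.mul_sum]
  push_cast
  rfl

theorem l1c_supp {φ : ℂ → ℝ} {f : ℂ → ℂ} (hs : HasCompactSupport φ) :
    HasCompactSupport fun ζ => f ζ * dbarR φ ζ := by
  refine HasCompactSupport.intro hs.isCompact fun ζ hζ => ?_
  rw [l1a_dbarR_zero hζ, mul_zero]

theorem loc_sum {ι : Type*} (J : Finset ι) {φ : ι → ℂ → ℝ} {f : ℂ → ℂ}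
    (hφ : ∀ j ∈ J, ContDiff ℝ (⊤ : ℕ∞) (φ j)) (hs : ∀ j ∈ J, HasCompactSupport (φ j))
    (hf : Continuous f) (z : ℂ) :
    loc (fun y => ∑ j ∈ J, φ j y) f z = ∑ j ∈ J, loc (φ j) f z := by
  unfold loc
  rw [Finset.sum_add_distrib, ← Finset.mul_sum, ← Finset.sum_mul]
  congr 1
  · push_cast
    rfl
  · congr 1
    rw [← MeasureTheory.integral_finsetSum J]
    · refine MeasureTheory.integral_congr_ae (Eventually.of_forall fun ζ => ?_)
      simp only
      rw [l1c_dbarR_sum J hφ ζ, Finset.mul_sum, Finset.sum_div]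
    · intro j hj
      exact l1a_ptl_integrable (hf.mul (l1a_dbarR_continuous (hφ j hj))) (l1c_supp (hs j hj)) z

theorem loc_one {φ : ℂ → ℝ} {f : ℂ → ℂ} {K U : Set ℂ} (hφ : ContDiff ℝ (⊤ : ℕ∞) φ)
    (hs : HasCompactSupport φ) (hf : Continuous f) (hK : IsCompact K)
    (hfK : DifferentiableOn ℂ f Kᶜ) (h0 : Tendsto f (cocompact ℂ) (𝓝 0)) (hU : IsOpen U)
    (hKU : K ⊆ U) (h1 : ∀ z ∈ U, φ z = 1) : ∀ z, loc φ f z = f z := by
  obtain ⟨R, hR⟩ := hs.isCompact.isBounded.subset_closedBall (0 : ℂ)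
  obtain ⟨-, hreg, hlim⟩ := loc_reg (x := 0) (R := R) hφ hR hf hK hfK
  have hd : Differentiable ℂ fun z => loc φ f z - f z := by
    intro z
    by_cases hz : z ∈ K
    · have hzU : U ∈ 𝓝 z := hU.mem_nhds (hKU hz)
      have hg : Continuous fun ζ => f ζ * dbarR φ ζ := hf.mul (l1a_dbarR_continuous hφ)
      have hnt : z ∉ tsupport fun ζ => f ζ * dbarR φ ζ := by
        rw [notMem_tsupport_iff_eventuallyEq]
        refine Filter.eventually_of_mem hzU fun w hw => ?_
        have h2 : φ =ᶠ[𝓝 w] fun _ => (1 : ℝ) :=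
          Filter.eventually_of_mem (hU.mem_nhds hw) fun y hy => h1 y hy
        have h3 : dbarR φ w = 0 := by
          unfold dbarR
          rw [h2.fderiv_eq, (hasFDerivAt_const (1 : ℝ) w).fderiv]
          simp
        simp [h3]
      have h4 : DifferentiableAt ℂ (l1a_ptl fun ζ => f ζ * dbarR φ ζ) z :=
        l1a_ptl_differentiableAt hg (l1c_supp hs) hnt
      have h5 : (fun z => loc φ f z - f z) =ᶠ[𝓝 z]
          fun z => (Real.pi : ℂ)⁻¹ * l1a_ptl (fun ζ => f ζ * dbarR φ ζ) z := by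
        refine Filter.eventually_of_mem hzU fun w hw => ?_
        simp only [loc, l1a_ptl]
        rw [h1 w hw]
        push_cast
        ring
      exact (h4.const_mul _).congr_of_eventuallyEq h5
    · have hz1 : (K ∩ closedBall 0 R)ᶜ ∈ 𝓝 z :=
        (hK.isClosed.inter isClosed_closedBall).isOpen_compl.mem_nhds fun h => hz h.1
      have hz2 : Kᶜ ∈ 𝓝 z := hK.isClosed.isOpen_compl.mem_nhds hz
      exact ((hreg.differentiableAt hz1).sub (hfK.differentiableAt hz2))
  have ht : Tendsto (fun z => loc φ f z - f z) (cocompact ℂ) (𝓝 0) := by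
    simpa using hlim.sub h0
  intro z
  have h6 := hd.apply_eq_of_tendsto_cocompact z ht
  exact sub_eq_zero.1 h6

end Pool.Agent.SV
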