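import Pool.Agent.Helper53.AC.Defs

/-!
# L2a: a smooth partition of unity on the square lattice
-/

set_option autoImplicit false

open Complex Filter Topology Metric
open scoped ComplexConjugate

namespace Pool.Agent.SV

/-- the one dimensional bump -/
noncomputable def l2psi (t : ℝ) : ℝ := Real.smoothTransition (t + 1) - Real.smoothTransition t

theorem l2psi_contDiff : ContDiff ℝ (⊤ : ℕ∞) l2psi := by
  unfold l2psi
  exact (Real.smoothTransition.contDiff.comp (contDiff_id.add contDiff_const)).sub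
    Real.smoothTransition.contDiff

theorem l2psi_eq_zero {t : ℝ} (h : 1 ≤ |t|) : l2psi t = 0 := by
  unfold l2psi
  rcases le_abs.1 h with h | h
  · rw [Real.smoothTransition.one_of_one_le h, Real.smoothTransition.one_of_one_le (by linarith),
      sub_self]
  · rw [Real.smoothTransition.zero_of_nonpos (by linarith),
      Real.smoothTransition.zero_of_nonpos (by linarith), sub_self]

theorem l2psi_mem {t : ℝ} {j : ℤ} (h : l2psi (t - j) ≠ 0) : j ∈ ({⌊t⌋, ⌊t⌋ + 1} : Finset ℤ) := by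
  have h1 : |t - j| < 1 := by
    by_contra hcon
    exact h (l2psi_eq_zero (not_lt.1 hcon))
  rw [abs_lt] at h1
  have h2 : ⌊t⌋ - 1 < j := by
    have h3 : (⌊t⌋ : ℝ) - 1 < j := by linarith [Int.floor_le t]
    exact_mod_cast h3
  have h4 : j < ⌊t⌋ + 2 := by
    have h3 : (j : ℝ) < (⌊t⌋ : ℝ) + 2 := by linarith [Int.lt_floor_add_one t]
    exact_mod_cast h3
  rw [Finset.mem_insert, Finset.mem_singleton]
  omega

theorem l2psi_sum (t : ℝ) : ∑ j ∈ ({⌊t⌋, ⌊t⌋ + 1} : Finset ℤ), l2psi (t - j) = 1 := by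
  rw [Finset.sum_pair (by omega)]
  have h1 := Int.floor_le t
  have h2 := Int.lt_floor_add_one t
  unfold l2psi
  push_cast
  rw [Real.smoothTransition.one_of_one_le (x := t - ⌊t⌋ + 1) (by linarith),
    Real.smoothTransition.zero_of_nonpos (x := t - (⌊t⌋ + 1)) (by linarith),
    show t - ((⌊t⌋ : ℝ) + 1) + 1 = t - ⌊t⌋ by ring]
  ring

/-- the two dimensional bump -/
noncomputable def l2Phi (w : ℂ) : ℝ := l2psi w.re * l2psi w.im

theorem l2Phi_contDiff : ContDiff ℝ (⊤ : ℕ∞) l2Phi := by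
  unfold l2Phi
  exact (l2psi_contDiff.comp Complex.reCLM.contDiff).mul
    (l2psi_contDiff.comp Complex.imCLM.contDiff)

theorem l2Phi_eq_zero {w : ℂ} (h : w ∉ closedBall (0 : ℂ) 2) : l2Phi w = 0 := by
  unfold l2Phi
  by_contra hcon
  rw [mul_eq_zero, not_or] at hcon
  have h1 : |w.re| < 1 := by
    by_contra h2
    exact hcon.1 (l2psi_eq_zero (not_lt.1 h2))
  have h3 : |w.im| < 1 := by
    by_contra h2
    exact hcon.2 (l2psi_eq_zero (not_lt.1 h2))
  apply h
  rw [mem_closedBall_zero_iff]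
  have := Complex.norm_le_abs_re_add_abs_im w
  linarith

theorem l2Phi_bound : ∃ C : ℝ, 0 < C ∧ ∀ w, ‖fderiv ℝ l2Phi w‖ ≤ C := by
  have hc : HasCompactSupport l2Phi :=
    HasCompactSupport.intro (isCompact_closedBall (0 : ℂ) 2) fun x hx => l2Phi_eq_zero hx
  have hcont : Continuous (fderiv ℝ l2Phi) :=
    l2Phi_contDiff.continuous_fderiv (by simp)
  obtain ⟨C, hC⟩ := hcont.bounded_above_of_compact_support (hc.fderiv (𝕜 := ℝ))
  exact ⟨max C 1, lt_max_of_lt_right one_pos, fun w => (hC w).trans (le_max_left _ _)⟩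

/-- L2a.lean -/
theorem exists_pou : ∃ D : ℝ, 0 < D ∧ ∀ s : ℝ, 0 < s → ∃ φ : ℤ × ℤ → ℂ → ℝ,
    (∀ j, ContDiff ℝ (⊤ : ℕ∞) (φ j)) ∧ (∀ j, tsupport (φ j) ⊆ closedBall (lp s j) (2 * s)) ∧
    (∀ j z, ‖dbarR (φ j) z‖ ≤ D / (2 * s)) ∧
    (∀ z, ∀ J : Finset (ℤ × ℤ), (∀ j, φ j z ≠ 0 → j ∈ J) → ∑ j ∈ J, φ j z = 1) := by
  obtain ⟨C, hC0, hC⟩ := l2Phi_bound
  refine ⟨2 * C, by positivity, fun s hs => ?_⟩
  refine ⟨fun j z => l2Phi ((s⁻¹ : ℝ) • (z - lp s j)), fun j => ?_, fun j => ?_, fun j z => ?_,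
    fun z J hJ => ?_⟩
  · exact l2Phi_contDiff.comp ((contDiff_id.sub contDiff_const).const_smul _)
  · apply closure_minimal _ isClosed_closedBall
    intro z hz
    have h1 : (s⁻¹ : ℝ) • (z - lp s j) ∈ closedBall (0 : ℂ) 2 := by
      by_contra h2
      exact hz (l2Phi_eq_zero h2)
    rw [mem_closedBall_zero_iff, norm_smul, Real.norm_of_nonneg (by positivity),
      inv_mul_le_iff₀ hs] at h1
    rw [mem_closedBall, dist_eq_norm]
    linarith
  · have hd : HasFDerivAt (fun z => l2Phi ((s⁻¹ : ℝ) • (z - lp s j)))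
        ((fderiv ℝ l2Phi ((s⁻¹ : ℝ) • (z - lp s j))).comp
          ((s⁻¹ : ℝ) • ContinuousLinearMap.id ℝ ℂ)) z := by
      have ha : HasFDerivAt l2Phi (fderiv ℝ l2Phi ((s⁻¹ : ℝ) • (z - lp s j)))
          ((s⁻¹ : ℝ) • (z - lp s j)) :=
        (l2Phi_contDiff.differentiable (by simp) _).hasFDerivAt
      have hb : HasFDerivAt (fun z : ℂ => (s⁻¹ : ℝ) • (z - lp s j))
          ((s⁻¹ : ℝ) • ContinuousLinearMap.id ℝ ℂ) z := by
        have h1 : HasFDerivAt (fun z : ℂ => z - lp s j) (ContinuousLinearMap.id ℝ ℂ) z :=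
          (hasFDerivAt_id z).sub_const _
        exact h1.const_smul (s⁻¹ : ℝ)
      exact HasFDerivAt.comp z ha hb
    have hb : ∀ v : ℂ, ‖v‖ = 1 →
        |fderiv ℝ (fun z => l2Phi ((s⁻¹ : ℝ) • (z - lp s j))) z v| ≤ C / s := by
      intro v hv
      rw [hd.fderiv]
      change ‖fderiv ℝ l2Phi ((s⁻¹ : ℝ) • (z - lp s j)) ((s⁻¹ : ℝ) • v)‖ ≤ C / s
      refine (ContinuousLinearMap.le_opNorm _ _).trans ?_
      rw [norm_smul, hv, mul_one, Real.norm_of_nonneg (by positivity), div_eq_mul_inv]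
      exact mul_le_mul_of_nonneg_right (hC _) (by positivity)
    have h1 := hb 1 (by simp)
    have hI := hb I (by simp)
    unfold dbarR
    rw [norm_div, Complex.norm_ofNat]
    have h2 : ‖((fderiv ℝ (fun z => l2Phi ((s⁻¹ : ℝ) • (z - lp s j))) z 1 : ℝ) : ℂ) +
        I * (fderiv ℝ (fun z => l2Phi ((s⁻¹ : ℝ) • (z - lp s j))) z I : ℝ)‖ ≤ C / s + C / s := by
      refine (norm_add_le _ _).trans (add_le_add ?_ ?_)
      · rw [Complex.norm_real]; exact h1
      · rw [norm_mul, Complex.norm_I, one_mul, Complex.norm_real]; exact hI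
    calc _ ≤ (C / s + C / s) / 2 := by gcongr
      _ = 2 * C / (2 * s) := by field_simp; ring
  · have hval : ∀ j : ℤ × ℤ, l2Phi ((s⁻¹ : ℝ) • (z - lp s j)) =
        l2psi (z.re / s - j.1) * l2psi (z.im / s - j.2) := by
      intro j
      unfold l2Phi lp
      simp only [Complex.real_smul, Complex.mul_re, Complex.mul_im, Complex.ofReal_re,
        Complex.ofReal_im, Complex.sub_re, Complex.sub_im]
      congr 2 <;> field_simp <;> ring
    let Q : Finset (ℤ × ℤ) := ({⌊z.re / s⌋, ⌊z.re / s⌋ + 1} : Finset ℤ) ×ˢ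
      ({⌊z.im / s⌋, ⌊z.im / s⌋ + 1} : Finset ℤ)
    have h1 : ∑ j ∈ J, l2Phi ((s⁻¹ : ℝ) • (z - lp s j)) =
        ∑ j ∈ J ∪ Q, l2Phi ((s⁻¹ : ℝ) • (z - lp s j)) := by
      apply Finset.sum_subset Finset.subset_union_left
      intro j _ hj
      by_contra h2
      exact hj (hJ j h2)
    have h2 : ∑ j ∈ Q, l2Phi ((s⁻¹ : ℝ) • (z - lp s j)) =
        ∑ j ∈ J ∪ Q, l2Phi ((s⁻¹ : ℝ) • (z - lp s j)) := by
      apply Finset.sum_subset Finset.subset_union_right
      intro j _ hj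
      by_contra h3
      rw [hval j, mul_eq_zero, not_or] at h3
      exact hj (Finset.mem_product.2 ⟨l2psi_mem h3.1, l2psi_mem h3.2⟩)
    rw [h1, ← h2, Finset.sum_congr rfl fun j _ => hval j, Finset.sum_product]
    simp only [← Finset.mul_sum, l2psi_sum, mul_one]

end Pool.Agent.SV
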