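import Pool.Agent.Helper53.AC.C1
import Pool.Agent.Helper53.AC.C2
import Pool.Agent.Helper53.AC.C4
import Pool.Agent.Helper53.AC.L1a
import Pool.Agent.Helper53.AC.L1b
import Pool.Agent.Helper53.AC.L1c
import Pool.Agent.Helper53.AC.L2a
import Pool.Agent.Helper53.AC.L2b
import Pool.Agent.Helper53.SV.D6

/-!
# Decomposition of a function into cell functions (L3)
-/

set_option autoImplicit false

open Complex Filter Topology Metric
open scoped ComplexConjugate

namespace Pool.Agent.SV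

open Pool.Agent.Helper53.CAC

/-- the lattice points close to a bounded set form a finite set -/
theorem l3_finite {s M : ℝ} (hs : 0 < s) :
    ∃ J : Finset (ℤ × ℤ), ∀ j : ℤ × ℤ, ‖lp s j‖ ≤ M → j ∈ J := by
  refine ⟨Finset.Icc (-⌈M / s⌉) ⌈M / s⌉ ×ˢ Finset.Icc (-⌈M / s⌉) ⌈M / s⌉, fun j hj => ?_⟩
  have h1 : |s * j.1| ≤ M := (Complex.abs_re_le_norm (lp s j)).trans hj
  have h2 : |s * j.2| ≤ M := (Complex.abs_im_le_norm (lp s j)).trans hj
  have key : ∀ n : ℤ, |s * n| ≤ M → n ∈ Finset.Icc (-⌈M / s⌉) ⌈M / s⌉ := by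
    intro n hn
    rw [abs_mul, abs_of_pos hs] at hn
    have h3 : |(n : ℝ)| ≤ M / s := by
      rw [le_div_iff₀ hs]; linarith
    have h4 := abs_le.1 (h3.trans (Int.le_ceil (M / s)))
    rw [Finset.mem_Icc]
    constructor
    · have := h4.1
      exact_mod_cast this
    · have := h4.2
      exact_mod_cast this
  rw [Finset.mem_product]
  exact ⟨key _ h1, key _ h2⟩

theorem exists_family : ∃ C₀ : ℝ, 0 < C₀ ∧ ∀ (m : ℕ) (K : Fin m → Set ℂ),
    (∀ i, IsCompact (K i)) → ∀ r : ℝ, 0 < r →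
    (∀ x : ℂ, ∃ i, (⋃ i, K i) ∩ closedBall x r ⊆ K i) →
    ∀ (f : ℂ → ℂ) (a : ℂ), Continuous f → DifferentiableOn ℂ f (⋃ i, K i)ᶜ →
    Tendsto f (cocompact ℂ) (𝓝 0) → Tendsto (fun z => z * f z) (cocompact ℂ) (𝓝 a) →
    ∀ ω : ℝ, 0 < ω → ∃ (Fam : CellFam m K C₀) (g : Fin Fam.k → ℂ → ℂ) (A B : Fin Fam.k → ℂ),
      (∀ j, AF (Fam.P j) (Fam.c j) (g j) (A j) (B j)) ∧ (∀ j z, ‖g j z‖ ≤ ω) ∧
      (∀ z, f z = ∑ j, g j z) ∧ a = ∑ j, A j := by
  obtain ⟨C₀, hC₀, hlat⟩ := lattice_sum
  obtain ⟨D, hD, hpou⟩ := exists_pou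
  refine ⟨C₀, hC₀, ?_⟩
  intro m K hK r hr hloc f a hf hfd hf0 hfa ω hω
  classical
  have hKc : IsCompact (⋃ i, K i) := isCompact_iUnion hK
  -- uniform continuity
  have huc : UniformContinuous f := hf.uniformContinuous_of_tendsto_cocompact hf0
  obtain ⟨δ, hδ, hδf⟩ := Metric.uniformContinuous_iff.1 huc (ω / (2 * D)) (by positivity)
  obtain ⟨s, hs, hsr, hsδ⟩ : ∃ s : ℝ, 0 < s ∧ 2 * s ≤ r ∧ 4 * s < δ :=
    ⟨min (r / 2) (δ / 8), by positivity, by
      have := min_le_left (r / 2) (δ / 8); linarith, by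
      have := min_le_right (r / 2) (δ / 8); linarith⟩
  obtain ⟨φ, hφc, hφs, hφd, hφ1⟩ := hpou s hs
  have hs2 : 0 < 2 * s := by linarith
  -- a large disc
  obtain ⟨M, hM⟩ := hKc.isBounded.subset_ball (0 : ℂ)
  obtain ⟨J, hJ⟩ := l3_finite (M := M + 2 * s) hs
  have hJmem : ∀ z ∈ ball (0 : ℂ) M, ∀ j, φ j z ≠ 0 → j ∈ J := by
    intro z hz j hj
    apply hJ
    have h1 : z ∈ tsupport (φ j) := subset_tsupport _ hj
    have h2 := hφs j h1
    rw [mem_closedBall, dist_eq_norm] at h2
    rw [mem_ball_zero_iff] at hz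
    have h3 : ‖lp s j‖ ≤ ‖z‖ + ‖z - lp s j‖ := by
      have h4 : lp s j = z - (z - lp s j) := by ring
      calc ‖lp s j‖ = ‖z - (z - lp s j)‖ := by rw [← h4]
        _ ≤ _ := norm_sub_le _ _
    linarith
  have hcs : ∀ j, HasCompactSupport (φ j) := fun j =>
    HasCompactSupport.of_support_subset_isCompact (isCompact_closedBall (lp s j) (2 * s))
      ((subset_tsupport _).trans (hφs j))
  -- the localised functions
  set g₀ : ℤ × ℤ → ℂ → ℂ := fun j => loc (φ j) f with hg₀
  have hsumf : ∀ z, f z = ∑ j ∈ J, g₀ j z := by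
    intro z
    have h1 : ContDiff ℝ (⊤ : ℕ∞) (fun y => ∑ j ∈ J, φ j y) := ContDiff.sum fun j _ => hφc j
    have h2 : HasCompactSupport (fun y => ∑ j ∈ J, φ j y) := by
      have : ∀ S : Finset (ℤ × ℤ), HasCompactSupport (fun y => ∑ j ∈ S, φ j y) := by
        intro S
        induction S using Finset.induction_on with
        | empty =>
          simp only [Finset.sum_empty]
          exact HasCompactSupport.zero
        | insert j S hj ih =>
          simp only [Finset.sum_insert hj]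
          exact (hcs j).add ih
      exact this J
    have h3 := loc_one h1 h2 hf hKc hfd hf0 isOpen_ball hM (fun z hz => hφ1 z J (hJmem z hz)) z
    rw [← h3]
    exact loc_sum J (fun j _ => hφc j) (fun j _ => hcs j) hf z
  have hreg : ∀ j, Continuous (g₀ j) ∧
      DifferentiableOn ℂ (g₀ j) ((⋃ i, K i) ∩ closedBall (lp s j) (2 * s))ᶜ ∧
      Tendsto (g₀ j) (cocompact ℂ) (𝓝 0) := fun j => loc_reg (hφc j) (hφs j) hf hKc hfd
  have hbd : ∀ j z, ‖g₀ j z‖ ≤ ω := by
    intro j z
    have h1 := loc_bound hs2 (hφc j) (hφs j) (hφd j) hf hKc hfd (ω := ω / (2 * D))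
      (fun y hy y' hy' => by
        rw [mem_closedBall] at hy hy'
        have h2 : dist y y' < δ := by
          have h3 := dist_triangle_right y y' (lp s j)
          linarith
        have h3 := hδf h2
        rw [dist_eq_norm] at h3
        exact h3.le) z
    have h2 : 2 * D * (ω / (2 * D)) = ω := by field_simp
    rwa [h2] at h1
  set P : ℤ × ℤ → Set ℂ := fun j => (⋃ i, K i) ∩ closedBall (lp s j) (2 * s) with hP
  have hPc : ∀ j, IsCompact (P j) := fun j => hKc.inter_right isClosed_closedBall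
  have hPs : ∀ j, P j ⊆ closedBall (lp s j) (2 * s) := fun j => Set.inter_subset_right
  have hAF : ∀ j, ∃ a b : ℂ, AF (P j) (lp s j) (g₀ j) a b := by
    intro j
    obtain ⟨h1, h2, h3⟩ := hreg j
    have h4 : {z | 2 * s < ‖z - lp s j‖} ⊆ (P j)ᶜ := by
      intro z hz hzP
      have h5 := hPs j hzP
      rw [mem_closedBall, dist_eq_norm] at h5
      have h6 : 2 * s < ‖z - lp s j‖ := hz
      linarith
    obtain ⟨a, b, hab⟩ := Coef.exists_of (h2.mono h4) (fun z _ => hbd j z) h3
    exact ⟨a, b, h1, h2, hab⟩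
  choose A₀ B₀ hAB using hAF
  have hcell : ∀ j, ∃ (d : ℝ) (c : ℂ) (G H : ℂ → ℂ), alpha (P j) ≠ 0 →
      Cell (P j) (lp s j) (2 * s) (alpha (P j)).toReal d c G H := by
    intro j
    by_cases h : alpha (P j) = 0
    · exact ⟨0, 0, 0, 0, fun h' => absurd h h'⟩
    · obtain ⟨d, c, G, H, hC⟩ := exists_cell hs2 (hPc j) (hPs j) h
      exact ⟨d, c, G, H, fun _ => hC⟩
  choose d c G H hC using hcell
  choose grp hgrp using fun j => hloc (lp s j)
  set J' := J.filter (fun j => alpha (P j) ≠ 0) with hJ'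
  have hJ'mem : ∀ n : Fin J'.card, alpha (P (enum J' n)) ≠ 0 := fun n =>
    (Finset.mem_filter.1 (d6_enum_mem J' n)).2
  let Fam : CellFam m K C₀ :=
    { k := J'.card
      P := fun n => P (enum J' n)
      x := fun n => lp s (enum J' n)
      R := 2 * s
      α := fun n => (alpha (P (enum J' n))).toReal
      d := fun n => d (enum J' n)
      c := fun n => c (enum J' n)
      G := fun n => G (enum J' n)
      H := fun n => H (enum J' n)
      grp := fun n => grp (enum J' n)
      R_pos := hs2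
      cell := fun n => hC _ (hJ'mem n)
      sub := fun n => (Set.inter_subset_inter_right _ (closedBall_subset_closedBall hsr)).trans
        (hgrp (enum J' n))
      lat := fun z => by
        rw [d6_enum_sum J' (fun j => wt (2 * s) (z - lp s j))]
        exact hlat s hs z J' }
  have hsumf' : ∀ z, f z = ∑ j ∈ J', g₀ j z := by
    intro z
    rw [hsumf z, hJ', Finset.sum_filter]
    refine Finset.sum_congr rfl fun j _ => ?_
    split_ifs with h
    · rfl
    · push Not at h
      exact AF.eq_zero (hPc j) h (hAB j) z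
  refine ⟨Fam, fun n => g₀ (enum J' n), fun n => A₀ (enum J' n),
    fun n => B₀ (enum J' n) + (lp s (enum J' n) - c (enum J' n)) * A₀ (enum J' n), ?_, ?_, ?_, ?_⟩
  · intro n
    exact (hAB (enum J' n)).recenter (c (enum J' n))
  · intro n z
    exact hbd _ z
  · intro z
    rw [hsumf' z]
    exact (d6_enum_sum J' (fun j => g₀ j z)).symm
  · have h1 : a = ∑ j ∈ J', A₀ j := by
      have h2 : Tendsto (fun z => z * f z) (cocompact ℂ) (𝓝 (∑ j ∈ J', A₀ j)) := by
        have h3 := tendsto_finsetSum J' (fun j _ => (hAB j).coef.ca)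
        refine h3.congr fun z => ?_
        rw [hsumf' z, Finset.mul_sum]
      exact tendsto_nhds_unique hfa h2
    rw [h1]
    exact (d6_enum_sum J' A₀).symm

end Pool.Agent.SV
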