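import Pool.Agent.Helper53.CAC.Defs
import Pool.Agent.Helper53.SV.DDefs

/-!
# Continuous analytic capacity: localisation, cells and the discrete model. Definitions
-/

set_option autoImplicit false

open Complex Filter Topology Metric
open scoped ComplexConjugate

namespace Pool.Agent.SV

/-- `f` tends to zero at infinity; `a` and `b` are its first two coefficients at infinity with
respect to the centre `x`: `f z = a / (z - x) + b / (z - x) ^ 2 + ...` -/
structure Coef (f : ℂ → ℂ) (x a b : ℂ) : Prop where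
  zero : Tendsto f (cocompact ℂ) (𝓝 0)
  ca : Tendsto (fun z => z * f z) (cocompact ℂ) (𝓝 a)
  cb : Tendsto (fun z => (z - x) * ((z - x) * f z - a)) (cocompact ℂ) (𝓝 b)

/-- continuous functions on the plane which are holomorphic off `P`, with their coefficients -/
structure AF (P : Set ℂ) (x : ℂ) (f : ℂ → ℂ) (a b : ℂ) : Prop where
  cont : Continuous f
  holo : DifferentiableOn ℂ f Pᶜ
  coef : Coef f x a b

/-- The data attached to a cell: `α` is the capacity of `P`, `α * d` is comparable to the second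
capacity, `c` is the centre, `G` and `H` are functions which realise the two coefficients. -/
structure Cell (P : Set ℂ) (x : ℂ) (R α d : ℝ) (c : ℂ) (G H : ℂ → ℂ) : Prop where
  compact : IsCompact P
  sub : P ⊆ closedBall x R
  α_pos : 0 < α
  α_le : α ≤ R
  α_d : α ≤ 4 * d
  d_le : d ≤ 2 * R
  near : ‖c - x‖ ≤ 4 * R
  hG : AF P c G α 0
  hGb : ∀ z, ‖G z‖ ≤ 2
  hH : AF P c H 0 (α * d)
  hHb : ∀ z, ‖H z‖ ≤ 2
  up : ∀ (f : ℂ → ℂ) (a b : ℂ) (M : ℝ), AF P c f a b → (∀ z, ‖f z‖ ≤ M) →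
    ‖a‖ ≤ M * α ∧ ‖b‖ ≤ 3 * M * (α * d)

/-- the weight `min 1 (R / |y|)³` -/
noncomputable def wt (R : ℝ) (y : ℂ) : ℝ := (R / max R ‖y‖) ^ 3

/-- A finite family of cells, coloured by `Fin m`. -/
structure CellFam (m : ℕ) (K : Fin m → Set ℂ) (C₀ : ℝ) where
  /-- the number of cells -/
  k : ℕ
  /-- the compact sets -/
  P : Fin k → Set ℂ
  /-- the centres of the lattice cells -/
  x : Fin k → ℂ
  /-- the size -/
  R : ℝ
  /-- the capacities -/
  α : Fin k → ℝ
  /-- the second capacities divided by the capacities -/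
  d : Fin k → ℝ
  /-- the analytic centres -/
  c : Fin k → ℂ
  /-- first function -/
  G : Fin k → ℂ → ℂ
  /-- second function -/
  H : Fin k → ℂ → ℂ
  /-- the colour -/
  grp : Fin k → Fin m
  R_pos : 0 < R
  cell : ∀ j, Cell (P j) (x j) R (α j) (d j) (c j) (G j) (H j)
  sub : ∀ j, P j ⊆ K (grp j)
  lat : ∀ z, ∑ j, wt R (z - x j) ≤ C₀

/-- the derivative with respect to the conjugate variable of a real function -/
noncomputable def dbarR (φ : ℂ → ℝ) (z : ℂ) : ℂ :=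
  ((fderiv ℝ φ z 1 : ℝ) + I * (fderiv ℝ φ z I : ℝ)) / 2

/-- the localisation operator of Vitushkin -/
noncomputable def loc (φ : ℂ → ℝ) (f : ℂ → ℂ) (z : ℂ) : ℂ :=
  φ z * f z + (Real.pi : ℂ)⁻¹ * ∫ ζ, f ζ * dbarR φ ζ / (ζ - z)

/-- points of the square lattice -/
noncomputable def lp (s : ℝ) (j : ℤ × ℤ) : ℂ := ⟨s * j.1, s * j.2⟩

/-- a cone with integral one, supported in the disc of radius `t` about `c` -/
noncomputable def blob (c : ℂ) (t : ℝ) (ζ : ℂ) : ℝ :=
  3 / (Real.pi * t ^ 2) * max 0 (1 - ‖ζ - c‖ / t)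

/-- the density of the radii in a cell -/
noncomputable def rhoC (α d : ℝ) (c : ℂ) (θ lam : ℝ) (ζ : ℂ) : ℝ :=
  lam * α * (blob (c + d) (θ * α) ζ + blob (c - d) (θ * α) ζ)

/-- the complex density in a cell -/
noncomputable def gC (α d : ℝ) (c : ℂ) (θ : ℝ) (a b : ℂ) (ζ : ℂ) : ℂ :=
  Real.pi * ((a + b / d) / 2 * blob (c + d) (θ * α) ζ + (a - b / d) / 2 * blob (c - d) (θ * α) ζ)

/-- the part of `F` at the disc with centre `p` and radius `t` -/
noncomputable def part (F : ℂ → ℂ) (p : ℂ) (t : ℝ) (z : ℂ) : ℂ :=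
  (2 * Real.pi * I)⁻¹ * ∮ ζ in C(p, t), F ζ / (z - ζ)

/-- first coefficient of the part -/
noncomputable def pA (F : ℂ → ℂ) (p : ℂ) (t : ℝ) : ℂ :=
  (2 * Real.pi * I)⁻¹ * ∮ ζ in C(p, t), F ζ

/-- second coefficient of the part with respect to `c` -/
noncomputable def pB (F : ℂ → ℂ) (p : ℂ) (t : ℝ) (c : ℂ) : ℂ :=
  (2 * Real.pi * I)⁻¹ * ∮ ζ in C(p, t), F ζ * (ζ - c)

/-- `f` is admissible for the analytic capacity of `M` with coefficient `a`. -/
structure AdmG (M : Set ℂ) (f : ℂ → ℂ) (a : ℂ) : Prop where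
  holo : ∃ K : Set ℂ, IsCompact K ∧ K ⊆ M ∧ DifferentiableOn ℂ f Kᶜ ∧ ∀ z ∈ Kᶜ, ‖f z‖ ≤ 1
  zero : Tendsto f (cocompact ℂ) (𝓝 0)
  coeff : Tendsto (fun z => z * f z) (cocompact ℂ) (𝓝 a)

/-- The analytic capacity of `M`. -/
noncomputable def gamma (M : Set ℂ) : ENNReal :=
  ⨆ (f : ℂ → ℂ) (a : ℂ) (_ : AdmG M f a), ENNReal.ofReal ‖a‖

end Pool.Agent.SV
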