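import Pool.Agent.Helper53.AC.Defs
import Pool.Agent.Helper53.CAC.Exterior
import Pool.Agent.Helper53.CAC.Disc
import Pool.Agent.Helper6.Ends.UltraLim

/-!
# SV-G1: analytic capacity
-/

set_option autoImplicit false

open Complex Filter Topology Metric
open scoped ComplexConjugate

namespace Pool.Agent.SV

open Pool.Agent.Helper53.CAC

theorem AdmG.le_gamma {M : Set ℂ} {f : ℂ → ℂ} {a : ℂ} (h : AdmG M f a) :
    ENNReal.ofReal ‖a‖ ≤ gamma M :=
  le_iSup_of_le f (le_iSup_of_le a (le_iSup_of_le h le_rfl))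

theorem alpha_le_gamma (M : Set ℂ) : alpha M ≤ gamma M := by
  rw [alpha_le_iff]
  intro f A hf
  obtain ⟨K, hK, hKM, hd⟩ := hf.holo
  exact AdmG.le_gamma ⟨⟨K, hK, hKM, hd, fun z _ => hf.bound z⟩, hf.zero, hf.coeff⟩

theorem gamma_mono {P Q : Set ℂ} (h : P ⊆ Q) : gamma P ≤ gamma Q := by
  refine iSup_le fun f => iSup_le fun a => iSup_le fun hf => ?_
  obtain ⟨K, hK, hKM, hd⟩ := hf.holo
  exact AdmG.le_gamma ⟨⟨K, hK, hKM.trans h, hd⟩, hf.zero, hf.coeff⟩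

/-- Schwarz estimates at infinity. -/
theorem ext_schwarz {g : ℂ → ℂ} {a : ℂ} {R : ℝ} (hR : 0 < R)
    (hg : DifferentiableOn ℂ g {z | R < ‖z‖}) (hb : ∀ z, R < ‖z‖ → ‖g z‖ ≤ 1)
    (h0 : Tendsto g (cocompact ℂ) (𝓝 0)) (ha : Tendsto (fun z => z * g z) (cocompact ℂ) (𝓝 a))
    (z : ℂ) (hz : R < ‖z‖) : ‖g z‖ ≤ 2 * R / ‖z‖ ∧ ‖z * g z - a‖ ≤ 5 * R ^ 2 / ‖z‖ ∧ ‖a‖ ≤ 2 * R := by
  have hd := inv_ext hR hg h0
  set φ := Function.update (fun ζ => g ζ⁻¹) 0 0 with hφ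
  have hRi : 0 < R⁻¹ := inv_pos.2 hR
  have hφ0 : φ 0 = 0 := by simp [hφ]
  have hφne : ∀ ζ, ζ ≠ 0 → φ ζ = g ζ⁻¹ := fun ζ hζ => by simp [hφ, hζ]
  have hmem : ∀ ζ : ℂ, ζ ≠ 0 → ζ ∈ ball (0 : ℂ) R⁻¹ → R < ‖ζ⁻¹‖ := by
    intro ζ hζ hζb
    rw [mem_ball_zero_iff] at hζb
    rw [norm_inv]
    have h1 : 0 < ‖ζ‖ := norm_pos_iff.2 hζ
    rw [lt_inv_comm₀ hR h1]
    exact hζb
  have hmaps : Set.MapsTo φ (ball 0 R⁻¹) (ball (φ 0) 2) := by
    intro ζ hζ
    rw [hφ0, mem_ball_zero_iff]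
    by_cases h : ζ = 0
    · rw [h, hφ0, norm_zero]; norm_num
    · rw [hφne ζ h]
      have := hb _ (hmem ζ h hζ)
      linarith
  have hψb : ∀ ζ ∈ ball (0 : ℂ) R⁻¹, ‖dslope φ 0 ζ‖ ≤ 2 * R := by
    intro ζ hζ
    have h1 := Complex.norm_dslope_le_div_of_mapsTo_ball hd (hmaps.mono_right ball_subset_closedBall) hζ
    rwa [div_inv_eq_mul] at h1
  have h0b : (0 : ℂ) ∈ ball (0 : ℂ) R⁻¹ := mem_ball_self hRi
  have hψd : DifferentiableOn ℂ (dslope φ 0) (ball 0 R⁻¹) :=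
    (differentiableOn_dslope (isOpen_ball.mem_nhds h0b)).2 hd
  have hψne : ∀ ζ, ζ ≠ 0 → dslope φ 0 ζ = ζ⁻¹ * g ζ⁻¹ := by
    intro ζ hζ
    rw [dslope_of_ne _ hζ, slope_def_field, hφ0, sub_zero, sub_zero, hφne ζ hζ,
      div_eq_mul_inv, mul_comm]
  have hψ0 : dslope φ 0 0 = a := by
    have h1 : Tendsto (dslope φ 0) (𝓝[≠] 0) (𝓝 (dslope φ 0 0)) :=
      ((hψd.differentiableAt (isOpen_ball.mem_nhds h0b)).continuousAt.tendsto).mono_left
        nhdsWithin_le_nhds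
    have hinv : Tendsto (fun u : ℂ => u⁻¹) (𝓝[≠] 0) (cocompact ℂ) := by
      rw [← Metric.cobounded_eq_cocompact]
      exact tendsto_inv₀_nhdsNE_zero
    have h2 : Tendsto (dslope φ 0) (𝓝[≠] 0) (𝓝 a) := by
      refine (ha.comp hinv).congr' ?_
      filter_upwards [self_mem_nhdsWithin] with ζ hζ
      exact (hψne ζ hζ).symm
    exact tendsto_nhds_unique h1 h2
  have hz0 : z ≠ 0 := norm_pos_iff.1 (hR.trans hz)
  have hzi : z⁻¹ ∈ ball (0 : ℂ) R⁻¹ := by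
    rw [mem_ball_zero_iff, norm_inv]
    exact (inv_lt_inv₀ (hR.trans hz) hR).2 hz
  have hzi0 : z⁻¹ ≠ 0 := inv_ne_zero hz0
  have hzn : 0 < ‖z‖ := hR.trans hz
  have ha2 : ‖a‖ ≤ 2 * R := by
    rw [← hψ0]
    exact hψb 0 h0b
  refine ⟨?_, ?_, ha2⟩
  · have h1 := hψb _ hzi
    rw [hψne _ hzi0, inv_inv, norm_mul] at h1
    rw [le_div_iff₀ hzn, mul_comm]
    exact h1
  · have hmaps2 : Set.MapsTo (dslope φ 0) (ball 0 R⁻¹) (ball (dslope φ 0 0) (5 * R)) := by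
      intro ζ hζ
      rw [mem_ball, dist_eq_norm]
      refine lt_of_le_of_lt (norm_sub_le _ _) ?_
      have h1 := hψb ζ hζ
      have h2 := hψb 0 h0b
      linarith
    have h3 := Complex.dist_le_div_mul_dist_of_mapsTo_ball hψd
      (hmaps2.mono_right ball_subset_closedBall) hzi
    rw [hψ0, hψne _ hzi0, inv_inv, dist_eq_norm, dist_zero_right, norm_inv, div_inv_eq_mul] at h3
    calc ‖z * g z - a‖ ≤ 5 * R * R * ‖z‖⁻¹ := h3
      _ = 5 * R ^ 2 / ‖z‖ := by rw [div_eq_mul_inv]; ring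

theorem gamma_outer {X : Set ℂ} (hX : IsCompact X) {ε : ℝ} (hε : 0 < ε) :
    ∃ t : ℝ, 0 < t ∧ gamma (cthickening t X) ≤ gamma X + ENNReal.ofReal ε := by
  classical
  by_contra hcon
  push Not at hcon
  have htn : ∀ n : ℕ, (0 : ℝ) < 1 / (n + 1) := fun n => Nat.one_div_pos_of_nat
  have h1 : ∀ n : ℕ, ∃ (f : ℂ → ℂ) (a : ℂ), AdmG (cthickening (1 / (n + 1)) X) f a ∧
      gamma X + ENNReal.ofReal ε < ENNReal.ofReal ‖a‖ := by
    intro n
    have h := hcon (1 / (n + 1)) (htn n)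
    unfold gamma at h
    rw [lt_iSup_iff] at h
    obtain ⟨f, h⟩ := h
    rw [lt_iSup_iff] at h
    obtain ⟨a, h⟩ := h
    rw [lt_iSup_iff] at h
    obtain ⟨ha, h⟩ := h
    exact ⟨f, a, ha, h⟩
  choose f a hf ha using h1
  choose K hK hKM hKd hKb using fun n => (hf n).holo
  set D : ℕ → Set ℂ := fun m => (cthickening (1 / ((m : ℝ) + 1)) X)ᶜ with hD
  have hDo : ∀ m, IsOpen (D m) := fun m => isClosed_cthickening.isOpen_compl
  have hDmono : ∀ m n, m ≤ n → D m ⊆ D n := fun m n hmn =>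
    Set.compl_subset_compl.2 (cthickening_mono (Nat.one_div_le_one_div hmn) X)
  have hDK : ∀ n, D n ⊆ (K n)ᶜ := fun n => Set.compl_subset_compl.2 (hKM n)
  let G : ℕ → ℕ → ℂ → ℂ := fun m n => if m ≤ n then f n else 0
  have hGd : ∀ m n, DifferentiableOn ℂ (G m n) (D m) := by
    intro m n
    by_cases h : m ≤ n
    · simp only [G, if_pos h]
      exact (hKd n).mono ((hDmono m n h).trans (hDK n))
    · simp only [G, if_neg h]
      exact differentiableOn_const _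
  have hGb : ∀ m n, ∀ z ∈ D m, ‖G m n z‖ ≤ 1 := by
    intro m n z hz
    by_cases h : m ≤ n
    · simp only [G, if_pos h]
      exact hKb n z (hDK n (hDmono m n h hz))
    · simp only [G, if_neg h]
      simp
  let U : Ultrafilter ℕ := hyperfilter ℕ
  have hU : (U : Filter ℕ) ≤ atTop := Nat.hyperfilter_le_atTop
  choose F hF using fun m => Pool.Agent.EN.exists_ultralim (hDo m) (G m) (hGd m) (hGb m) U
  have hlim : ∀ m, ∀ z ∈ D m, Tendsto (fun n => f n z) (U : Filter ℕ) (𝓝 (F m z)) := by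
    intro m z hz
    refine ((hF m).tendsto_at hz).congr' ?_
    have h2 : ∀ᶠ n in (U : Filter ℕ), m ≤ n := hU (eventually_ge_atTop m)
    filter_upwards [h2] with n hn
    simp only [G, if_pos hn]
  have hcov : ∀ z ∈ Xᶜ, ∃ m, z ∈ D m := by
    intro z hz
    have h2 : z ∉ closure X := by rwa [hX.isClosed.closure_eq]
    rw [closure_eq_iInter_cthickening] at h2
    simp only [Set.mem_iInter, not_forall] at h2
    obtain ⟨δ, hδ, h3⟩ := h2
    obtain ⟨m, hm⟩ := exists_nat_one_div_lt hδ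
    exact ⟨m, fun h4 => h3 (cthickening_mono hm.le X h4)⟩
  let g : ℂ → ℂ := fun z => if h : ∃ m, z ∈ D m then F (Classical.choose h) z else 0
  have hg : ∀ m, ∀ z ∈ D m, g z = F m z := by
    intro m z hz
    have h2 : ∃ m, z ∈ D m := ⟨m, hz⟩
    simp only [g, dif_pos h2]
    exact tendsto_nhds_unique (hlim _ z (Classical.choose_spec h2)) (hlim m z hz)
  have hgl : ∀ m, ∀ z ∈ D m, Tendsto (fun n => f n z) (U : Filter ℕ) (𝓝 (g z)) := by
    intro m z hz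
    rw [hg m z hz]
    exact hlim m z hz
  have hgd : DifferentiableOn ℂ g Xᶜ := by
    intro z hz
    obtain ⟨m, hm⟩ := hcov z hz
    have h2 : DifferentiableOn ℂ (F m) (D m) :=
      (hF m).differentiableOn (Eventually.of_forall (hGd m)) (hDo m)
    have h3 : DifferentiableOn ℂ g (D m) := h2.congr (hg m)
    exact (h3.differentiableAt ((hDo m).mem_nhds hm)).differentiableWithinAt
  have hgb : ∀ z ∈ Xᶜ, ‖g z‖ ≤ 1 := by
    intro z hz
    obtain ⟨m, hm⟩ := hcov z hz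
    have h2 : Tendsto (fun n => ‖G m n z‖) (U : Filter ℕ) (𝓝 ‖F m z‖) :=
      ((hF m).tendsto_at hm).norm
    rw [hg m z hm]
    exact le_of_tendsto h2 (Eventually.of_forall fun n => hGb m n z hm)
  obtain ⟨R, hR0, hR⟩ := exists_bound_compact (hX.cthickening (r := 1))
  have hD0 : ∀ z : ℂ, R < ‖z‖ → z ∈ D 0 := by
    intro z hz h2
    have h3 := hR z (cthickening_mono (by norm_num) X h2)
    linarith
  have hDR : ∀ n, {z : ℂ | R < ‖z‖} ⊆ (K n)ᶜ := fun n z hz =>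
    hDK n (hDmono 0 n (Nat.zero_le n) (hD0 z hz))
  have hS : ∀ n z, R < ‖z‖ → ‖f n z‖ ≤ 2 * R / ‖z‖ ∧ ‖z * f n z - a n‖ ≤ 5 * R ^ 2 / ‖z‖ ∧
      ‖a n‖ ≤ 2 * R := fun n z hz =>
    ext_schwarz hR0 ((hKd n).mono (hDR n)) (fun w hw => hKb n w (hDR n hw)) (hf n).zero
      (hf n).coeff z hz
  have haR : ∀ n, ‖a n‖ ≤ 2 * R := by
    intro n
    refine (hS n ((R + 1 : ℝ) : ℂ) ?_).2.2
    rw [norm_real, Real.norm_of_nonneg (by linarith)]
    linarith
  obtain ⟨A, hA⟩ : ∃ A : ℂ, Tendsto a (U : Filter ℕ) (𝓝 A) := by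
    have hle : ((U.map a : Ultrafilter ℂ) : Filter ℂ) ≤ 𝓟 (closedBall (0 : ℂ) (2 * R)) := by
      rw [le_principal_iff]
      change a ⁻¹' closedBall (0 : ℂ) (2 * R) ∈ (U : Filter ℕ)
      refine mem_of_superset univ_mem fun n _ => ?_
      simp only [Set.mem_preimage, mem_closedBall_zero_iff]
      exact haR n
    obtain ⟨y, _, hy⟩ := (isCompact_closedBall (0 : ℂ) (2 * R)).ultrafilter_le_nhds _ hle
    exact ⟨y, hy⟩
  have hg0 : ∀ z, R < ‖z‖ → ‖g z‖ ≤ 2 * R / ‖z‖ := fun z hz =>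
    le_of_tendsto (hgl 0 z (hD0 z hz)).norm (Eventually.of_forall fun n => (hS n z hz).1)
  have hg1 : ∀ z, R < ‖z‖ → ‖z * g z - A‖ ≤ 5 * R ^ 2 / ‖z‖ := fun z hz =>
    le_of_tendsto (((hgl 0 z (hD0 z hz)).const_mul z).sub hA).norm
      (Eventually.of_forall fun n => (hS n z hz).2.1)
  have hev : ∀ᶠ z : ℂ in cocompact ℂ, R < ‖z‖ :=
    (tendsto_norm_cocompact_atTop (E := ℂ)).eventually_gt_atTop _
  have hdec : ∀ C : ℝ, Tendsto (fun z : ℂ => C / ‖z‖) (cocompact ℂ) (𝓝 0) := fun C =>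
    tendsto_const_nhds.div_atTop (tendsto_norm_cocompact_atTop (E := ℂ))
  have hadm : AdmG X g A := by
    refine ⟨⟨X, hX, subset_rfl, hgd, hgb⟩, ?_, ?_⟩
    · refine squeeze_zero_norm' ?_ (hdec (2 * R))
      filter_upwards [hev] with z hz using hg0 z hz
    · rw [tendsto_iff_norm_sub_tendsto_zero]
      refine squeeze_zero' (Eventually.of_forall fun z => norm_nonneg _) ?_ (hdec (5 * R ^ 2))
      filter_upwards [hev] with z hz using hg1 z hz
  have h2 : gamma X + ENNReal.ofReal ε ≤ ENNReal.ofReal ‖A‖ := by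
    have h3 : Tendsto (fun n => ENNReal.ofReal ‖a n‖) (U : Filter ℕ) (𝓝 (ENNReal.ofReal ‖A‖)) :=
      (ENNReal.continuous_ofReal.tendsto _).comp hA.norm
    exact ge_of_tendsto h3 (Eventually.of_forall fun n => (ha n).le)
  have h3 : gamma X + ENNReal.ofReal ε ≤ gamma X := h2.trans hadm.le_gamma
  have h4 : gamma X ≠ ⊤ := by
    intro h5
    have h6 := ha 0
    rw [h5, top_add] at h6
    exact absurd h6 (not_lt.2 le_top)
  have h5 : ENNReal.ofReal ε ≤ 0 := by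
    have h6 : gamma X + ENNReal.ofReal ε ≤ gamma X + 0 := by rwa [add_zero]
    exact (ENNReal.add_le_add_iff_left h4).1 h6
  rw [nonpos_iff_eq_zero, ENNReal.ofReal_eq_zero] at h5
  linarith

end Pool.Agent.SV
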