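import Pool.Agent.Helper53.AC.B9
import Pool.Agent.Helper53.AC.G1
import Pool.Agent.Helper53.AC.C2

/-!
# SV-G2: subadditivity for disjoint sets and in general with the capacity of the intersection
-/

set_option autoImplicit false

open Complex Filter Topology Metric
open scoped ComplexConjugate

namespace Pool.Agent.SV

open Pool.Agent.Helper53.CAC

/-- two disjoint compact sets are a positive distance apart -/
theorem exists_sep {A B : Set ℂ} (hA : IsCompact A) (hB : IsCompact B) (h : Disjoint A B) :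
    ∃ r : ℝ, 0 < r ∧ ∀ x : ℂ, (A ∪ B) ∩ closedBall x r ⊆ A ∨ (A ∪ B) ∩ closedBall x r ⊆ B := by
  obtain ⟨δ, hδ, hδ2⟩ := h.exists_cthickenings hA hB.isClosed
  refine ⟨δ, hδ, fun x => ?_⟩
  by_cases hx : x ∈ cthickening δ A
  · left
    rintro y ⟨hy | hy, hyx⟩
    · exact hy
    · exfalso
      have h1 : x ∈ cthickening δ B := by
        apply mem_cthickening_of_dist_le x y δ B hy
        rw [dist_comm]
        exact hyx
      exact Set.disjoint_left.1 hδ2 hx h1
  · right
    rintro y ⟨hy | hy, hyx⟩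
    · exfalso
      apply hx
      apply mem_cthickening_of_dist_le x y δ A hy
      rw [dist_comm]
      exact hyx
    · exact hy

theorem alpha_disjoint {E₁ E₂ : Set ℂ} (h1 : IsCompact E₁) (h2 : IsCompact E₂)
    (h : Disjoint E₁ E₂) : alpha (E₁ ∪ E₂) ≤ alpha E₁ + alpha E₂ := by
  obtain ⟨r, hr, hr2⟩ := exists_sep h1 h2 h
  have hU : (⋃ i, (![E₁, E₂] : Fin 2 → Set ℂ) i) = E₁ ∪ E₂ := by
    ext z
    simp [Fin.exists_fin_two]
  have h3 := alpha_cover (![E₁, E₂] : Fin 2 → Set ℂ) (by
    intro i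
    fin_cases i
    · exact h1
    · exact h2) hr (by
    intro x
    rw [hU]
    rcases hr2 x with h4 | h4
    · exact ⟨0, h4⟩
    · exact ⟨1, h4⟩)
  rw [hU, Fin.sum_univ_two] at h3
  exact h3

theorem alpha_union {E₁ E₂ : Set ℂ} (h1 : IsCompact E₁) (h2 : IsCompact E₂) :
    alpha (E₁ ∪ E₂) ≤ alpha E₁ + alpha E₂ + gamma (E₁ ∩ E₂) := by
  have hX : IsCompact (E₁ ∩ E₂) := h1.inter h2
  apply ENNReal.le_of_forall_pos_le_add
  intro ε hε _
  obtain ⟨t, ht, hg⟩ := gamma_outer hX (ε := (ε : ℝ)) (by exact_mod_cast hε)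
  obtain ⟨X, hXdef⟩ : ∃ X, X = E₁ ∩ E₂ := ⟨_, rfl⟩
  rw [← hXdef] at hg hX ⊢
  obtain ⟨s, hs⟩ : ∃ s, s = t / 2 := ⟨_, rfl⟩
  have hs0 : 0 < s := by linarith
  have k1 : IsCompact (E₁ \ thickening s X) := h1.diff isOpen_thickening
  have k2 : IsCompact (E₂ \ thickening s X) := h2.diff isOpen_thickening
  have k3 : IsCompact ((E₁ ∪ E₂) ∩ cthickening t X) := (h1.union h2).inter_right isClosed_cthickening
  have hd : Disjoint (E₁ \ thickening s X) (E₂ \ thickening s X) := by
    rw [Set.disjoint_left]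
    rintro z ⟨hz1, hz2⟩ ⟨hz3, _⟩
    apply hz2
    apply self_subset_thickening hs0 X
    rw [hXdef]
    exact ⟨hz1, hz3⟩
  obtain ⟨r, hr, hr2⟩ := exists_sep k1 k2 hd
  have hU : (⋃ i, (![E₁ \ thickening s X, E₂ \ thickening s X, (E₁ ∪ E₂) ∩ cthickening t X] :
      Fin 3 → Set ℂ) i) = E₁ ∪ E₂ := by
    have hsub : thickening s X ⊆ cthickening t X :=
      (thickening_mono (by linarith) X).trans (thickening_subset_cthickening t X)
    ext z
    simp only [Set.mem_iUnion, Fin.exists_fin_succ, Set.mem_union]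
    constructor
    · rintro (h | h | h | ⟨i, _⟩)
      · exact Or.inl h.1
      · exact Or.inr h.1
      · exact h.1
      · exact i.elim0
    · intro h
      by_cases hz : z ∈ thickening s X
      · right; right; left
        exact ⟨h, hsub hz⟩
      · rcases h with h | h
        · left
          exact ⟨h, hz⟩
        · right; left
          exact ⟨h, hz⟩
  have h3 := alpha_cover (![E₁ \ thickening s X, E₂ \ thickening s X,
      (E₁ ∪ E₂) ∩ cthickening t X] : Fin 3 → Set ℂ) (by
    intro i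
    fin_cases i
    · exact k1
    · exact k2
    · exact k3) (r := min r (s / 2)) (by positivity) (by
    intro x
    rw [hU]
    by_cases hx : ∃ y ∈ closedBall x (min r (s / 2)), y ∈ thickening s X
    · obtain ⟨y, hy, hyX⟩ := hx
      refine ⟨2, ?_⟩
      rintro z ⟨hz, hzx⟩
      refine ⟨hz, ?_⟩
      rw [mem_thickening_iff] at hyX
      obtain ⟨w, hw, hyw⟩ := hyX
      apply mem_cthickening_of_dist_le z w t X hw
      have e1 : dist z x ≤ s / 2 := hzx.trans (min_le_right _ _)
      have e2 : dist y x ≤ s / 2 := hy.trans (min_le_right _ _)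
      have e3 := dist_triangle z x w
      have e4 := dist_triangle x y w
      rw [dist_comm x y] at e4
      linarith
    · push Not at hx
      have hcb : closedBall x (min r (s / 2)) ⊆ closedBall x r :=
        closedBall_subset_closedBall (min_le_left _ _)
      rcases hr2 x with h4 | h4
      · refine ⟨0, ?_⟩
        rintro z ⟨hz, hzx⟩
        apply h4
        refine ⟨?_, hcb hzx⟩
        rcases hz with hz | hz
        · exact Or.inl ⟨hz, hx z hzx⟩
        · exact Or.inr ⟨hz, hx z hzx⟩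
      · refine ⟨1, ?_⟩
        rintro z ⟨hz, hzx⟩
        apply h4
        refine ⟨?_, hcb hzx⟩
        rcases hz with hz | hz
        · exact Or.inl ⟨hz, hx z hzx⟩
        · exact Or.inr ⟨hz, hx z hzx⟩)
  rw [hU, Fin.sum_univ_three] at h3
  have e1 : alpha (E₁ \ thickening s X) ≤ alpha E₁ := alpha_mono Set.sdiff_subset
  have e2 : alpha (E₂ \ thickening s X) ≤ alpha E₂ := alpha_mono Set.sdiff_subset
  have e3 : alpha ((E₁ ∪ E₂) ∩ cthickening t X) ≤ gamma X + ENNReal.ofReal ε :=
    (alpha_mono Set.inter_subset_right).trans ((alpha_le_gamma _).trans hg)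
  have e4 : ENNReal.ofReal (ε : ℝ) = (ε : ENNReal) := ENNReal.ofReal_coe_nnreal
  rw [e4] at e3
  calc alpha (E₁ ∪ E₂) ≤ alpha (E₁ \ thickening s X) + alpha (E₂ \ thickening s X) +
        alpha ((E₁ ∪ E₂) ∩ cthickening t X) := h3
    _ ≤ alpha E₁ + alpha E₂ + (gamma X + ε) := add_le_add (add_le_add e1 e2) e3
    _ = alpha E₁ + alpha E₂ + gamma X + ε := by rw [add_assoc (alpha E₁ + alpha E₂)]

end Pool.Agent.SV
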